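import Pool.Agent.BPN.D.Defs

/-!
# BPN, part D, module Dig: digits and codes

PROOFS.
* `dig_apply`: for `R x.1 ≤ x.2` one has `R x.1 < p ^ x.2` (`Nat.lt_pow_self`), so both sides are `0`.
* `toR_add`, `toR_single`: `Finsupp.sum_add_index'`, `Finsupp.sum_single_index`.
* `toR_dig`: at `j`: `∑_m ((r / p^m) % p) p^m = r` (sum over `m < r`; by `Nat.ofDigits`, or: `∑_{m < M} ((r / p^m) % p) p^m = r % p^M` by
  induction on `M` (`Nat.mod_pow_succ`) and `r < p^r`).
* `dig_toR`: `a x < p`: the entry at `j` is `∑_m a (j,m) p^m`; its `m`-th digit is `a (j, m)` (induction, or uniqueness).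
* `dig_add`: `dig_toR` for the vector `dig p R + single (j, m) 1`, whose `toR` is `R + single j (p^m)`.
* `code_norm`: induction on `wa (fun _ => 1) a`.  If all `a x < p` then `dig (toR a) = a`.  If `p ≤ a x`, `x = (j, m)`, let
  `a' = a - single x p + single (j, m+1) 1`: `toR a' = toR a`, `code a' = code a - p p^(2l) + p^(2l+2) > code a`, and the sum of the
  digits has decreased by `p - 1 ≥ 1`.
* `code_carry`: `code_norm` for `dig p R + single (j, m) 1`.
* `code_le`: `code (dig R) = ∑ d_x p^(2l) ≤ ∑ (d_x p^l)^2 ≤ (∑ d_x p^l)^2` and `∑ d_x p^l = wtR R` (`wtR_toR`, `toR_dig`), `l = x.1 + x.2 + 1`.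
* `levels_le`: choose for each level one digit `≥ 1`; e.g. `∑_{l ∈ levels} p^(l+1) ≤ ∑_{l ∈ levels} ∑_{x ∈ support, x.1+x.2 = l} d_x p^(l+1)`
  (`Finset.sum_fiberwise_of_maps_to`).
* `sum_AS`: `Finset.sum_biUnion` (the antidiagonals are disjoint), `(p-1) ∑_{m ≤ l} p^m = p^(l+1) - 1`.
-/

set_option autoImplicit false

namespace BPN.D

open Finset

variable {p : ℕ}

theorem dig_wa_add {X : Type} (wt : X → ℕ) (a b : X →₀ ℕ) : wa wt (a + b) = wa wt a + wa wt b := by
  classical
  unfold wa
  exact Finsupp.sum_add_index' (fun x => by simp) (fun x r s => by ring)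

theorem dig_wa_single {X : Type} (wt : X → ℕ) (x : X) (r : ℕ) :
    wa wt (Finsupp.single x r) = r * wt x := by
  unfold wa
  exact Finsupp.sum_single_index (by simp)

theorem dig_wa_zero {X : Type} (wt : X → ℕ) : wa wt (0 : X →₀ ℕ) = 0 := by
  simp [wa]

theorem dig_digit_sum (hp : 2 ≤ p) : ∀ (k M : ℕ) (f : ℕ → ℕ), (∀ m, f m < p) →
    ((∑ m ∈ range M, f m * p ^ m) / p ^ k) % p = if k < M then f k else 0 := by
  intro k
  induction k with
  | zero =>
    intro M f hf
    rcases M with _ | M
    · simp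
    · rw [Finset.sum_range_succ']
      have h : ∑ m ∈ range M, f (m + 1) * p ^ (m + 1) = p * ∑ m ∈ range M, f (m + 1) * p ^ m := by
        rw [Finset.mul_sum]
        refine Finset.sum_congr rfl fun m _ => by ring
      rw [h]
      simp only [pow_zero, mul_one, Nat.div_one, Nat.zero_lt_succ, if_true]
      rw [Nat.mul_add_mod]
      exact Nat.mod_eq_of_lt (hf 0)
  | succ k ih =>
    intro M f hf
    rcases M with _ | M
    · simp
    · rw [Finset.sum_range_succ']
      have h : ∑ m ∈ range M, f (m + 1) * p ^ (m + 1) = p * ∑ m ∈ range M, f (m + 1) * p ^ m := by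
        rw [Finset.mul_sum]
        refine Finset.sum_congr rfl fun m _ => by ring
      have hp0 : 0 < p := by omega
      have h2 : (p * ∑ m ∈ range M, f (m + 1) * p ^ m + f 0 * p ^ 0) / p ^ (k + 1)
          = (∑ m ∈ range M, f (m + 1) * p ^ m) / p ^ k := by
        rw [pow_succ', ← Nat.div_div_eq_div_mul]
        congr 1
        rw [pow_zero, mul_one, Nat.mul_add_div hp0, Nat.div_eq_of_lt (hf 0), add_zero]
      rw [h, h2, ih M (fun m => f (m + 1)) (fun m => hf (m + 1))]
      simp

theorem dig_sum_digit (r M : ℕ) :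
    ∑ m ∈ range M, ((r / p ^ m) % p) * p ^ m = r % p ^ M := by
  induction M with
  | zero => simp [Nat.mod_one]
  | succ M ih =>
    rw [Finset.sum_range_succ, ih, Nat.mod_pow_succ]
    ring

theorem dig_apply (hp : 2 ≤ p) (R : ℕ →₀ ℕ) (x : ℕ × ℕ) :
    dig p R x = (R x.1 / p ^ x.2) % p := by
  classical
  unfold dig
  rw [Finsupp.onFinset_apply]
  split_ifs with h
  · rfl
  · have h1 : R x.1 < p ^ x.2 := lt_of_le_of_lt (not_lt.mp h) (Nat.lt_pow_self (by omega))
    rw [Nat.div_eq_of_lt h1, Nat.zero_mod]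

theorem dig_lt (hp : 2 ≤ p) (R : ℕ →₀ ℕ) (x : ℕ × ℕ) : dig p R x < p := by
  rw [dig_apply hp]
  exact Nat.mod_lt _ (by omega)

theorem toR_add (a b : ℕ × ℕ →₀ ℕ) : toR p (a + b) = toR p a + toR p b := by
  classical
  unfold toR
  exact Finsupp.sum_add_index' (fun x => by simp) (fun x r s => by rw [add_mul, Finsupp.single_add])

theorem toR_single (x : ℕ × ℕ) (r : ℕ) :
    toR p (Finsupp.single x r) = Finsupp.single x.1 (r * p ^ x.2) := by
  unfold toR
  exact Finsupp.sum_single_index (by simp)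

theorem dig_toR_apply (a : ℕ × ℕ →₀ ℕ) (j : ℕ) :
    ∃ M0, ∀ M, M0 ≤ M → toR p a j = ∑ m ∈ range M, a (j, m) * p ^ m := by
  classical
  induction a using Finsupp.induction_linear with
  | zero =>
    refine ⟨0, fun M _ => ?_⟩
    simp [toR]
  | add a b ha hb =>
    obtain ⟨A, hA⟩ := ha
    obtain ⟨B, hB⟩ := hb
    refine ⟨max A B, fun M hM => ?_⟩
    rw [toR_add, Finsupp.add_apply, hA M (le_trans (le_max_left _ _) hM),
      hB M (le_trans (le_max_right _ _) hM), ← Finset.sum_add_distrib]
    refine Finset.sum_congr rfl fun m _ => ?_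
    rw [Finsupp.add_apply]
    ring
  | single x r =>
    obtain ⟨i, k⟩ := x
    refine ⟨k + 1, fun M hM => ?_⟩
    rw [toR_single, Finsupp.single_apply]
    have h1 : ∀ m ∈ range M, m ≠ k → (Finsupp.single (i, k) r) (j, m) * p ^ m = 0 := by
      intro m _ hm
      rw [Finsupp.single_apply, if_neg, zero_mul]
      intro h
      exact hm (by injection h with _ h2; exact h2.symm)
    rw [Finset.sum_eq_single k h1 (fun h => absurd (Finset.mem_range.mpr (by omega)) h),
      Finsupp.single_apply]
    by_cases h : i = j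
    · subst h
      simp
    · rw [if_neg h, if_neg, zero_mul]
      intro h2
      injection h2 with h3 _
      exact h h3

theorem toR_dig (hp : 2 ≤ p) (R : ℕ →₀ ℕ) : toR p (dig p R) = R := by
  ext j
  obtain ⟨M0, hM⟩ := dig_toR_apply (p := p) (dig p R) j
  have h := hM (max M0 (R j)) (le_max_left _ _)
  rw [h]
  have h1 : ∀ m ∈ range (max M0 (R j)), (dig p R) (j, m) * p ^ m = ((R j / p ^ m) % p) * p ^ m := by
    intro m _
    rw [dig_apply hp]
  rw [Finset.sum_congr rfl h1, dig_sum_digit]
  apply Nat.mod_eq_of_lt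
  calc R j < p ^ R j := Nat.lt_pow_self (by omega)
    _ ≤ p ^ (max M0 (R j)) := Nat.pow_le_pow_right (by omega) (le_max_right _ _)

theorem dig_toR (hp : 2 ≤ p) (a : ℕ × ℕ →₀ ℕ) (ha : ∀ x, a x < p) : dig p (toR p a) = a := by
  ext x
  obtain ⟨j, k⟩ := x
  rw [dig_apply hp]
  obtain ⟨M0, hM⟩ := dig_toR_apply (p := p) a j
  have h := hM (max M0 (k + 1)) (le_max_left _ _)
  simp only
  rw [h, dig_digit_sum hp k _ (fun m => a (j, m)) (fun m => ha (j, m)),
    if_pos (lt_of_lt_of_le (Nat.lt_succ_self k) (le_max_right _ _))]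

theorem sz_toR (a : ℕ × ℕ →₀ ℕ) : sz (toR p a) = wa (fun x => p ^ x.2) a := by
  induction a using Finsupp.induction_linear with
  | zero => simp [sz, wa, toR]
  | add a b ha hb =>
    unfold sz at *
    rw [toR_add, dig_wa_add, dig_wa_add, ha, hb]
  | single x r =>
    unfold sz
    rw [toR_single, dig_wa_single, dig_wa_single, mul_one]

theorem wtR_toR (a : ℕ × ℕ →₀ ℕ) :
    wtR p (toR p a) = wa (fun x => p ^ (x.1 + x.2 + 1)) a := by
  induction a using Finsupp.induction_linear with
  | zero => simp [wtR, wa, toR]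
  | add a b ha hb =>
    unfold wtR at *
    rw [toR_add, dig_wa_add, dig_wa_add, ha, hb]
  | single x r =>
    unfold wtR
    rw [toR_single, dig_wa_single, dig_wa_single, mul_assoc, ← pow_add]
    congr 2
    omega

theorem dig_add (hp : 2 ≤ p) (R : ℕ →₀ ℕ) (j m : ℕ) (h : dig p R (j, m) + 1 < p) :
    dig p (R + Finsupp.single j (p ^ m)) = dig p R + Finsupp.single (j, m) 1 := by
  have h1 : R + Finsupp.single j (p ^ m) = toR p (dig p R + Finsupp.single (j, m) 1) := by
    rw [toR_add, toR_dig hp, toR_single, one_mul]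
  rw [h1]
  refine dig_toR hp _ ?_
  intro x
  rw [Finsupp.add_apply, Finsupp.single_apply]
  by_cases hx : (j, m) = x
  · rw [if_pos hx, ← hx]
    exact h
  · rw [if_neg hx, add_zero]
    exact dig_lt hp R x

theorem code_norm (hp : 2 ≤ p) (a : ℕ × ℕ →₀ ℕ) : code p a ≤ code p (dig p (toR p a)) ∧
    ((∃ x, p ≤ a x) → code p a < code p (dig p (toR p a))) := by
  have key : ∀ (s : ℕ) (a : ℕ × ℕ →₀ ℕ), wa (fun _ => 1) a = s →
      code p a ≤ code p (dig p (toR p a)) ∧
      ((∃ x, p ≤ a x) → code p a < code p (dig p (toR p a))) := by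
    intro s
    induction s using Nat.strong_induction_on with
    | _ s ih =>
      intro a hs
      by_cases hall : ∀ x, a x < p
      · rw [dig_toR hp a hall]
        refine ⟨le_rfl, ?_⟩
        rintro ⟨x, hx⟩
        exact absurd (hall x) (not_lt.mpr hx)
      · push Not at hall
        obtain ⟨x, hx⟩ := hall
        obtain ⟨j, m⟩ := x
        set c : ℕ × ℕ →₀ ℕ := a - Finsupp.single (j, m) p with hc
        have hac : a = c + Finsupp.single (j, m) p := by
          rw [hc]
          refine (tsub_add_cancel_of_le ?_).symm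
          rw [Finsupp.single_le_iff]
          exact hx
        set b : ℕ × ℕ →₀ ℕ := c + Finsupp.single (j, m + 1) 1 with hb
        have h1 : toR p b = toR p a := by
          rw [hb, hac, toR_add, toR_add, toR_single, toR_single, one_mul, pow_succ']
        have h2 : code p a < code p b := by
          unfold code
          rw [hb, hac, dig_wa_add, dig_wa_add, dig_wa_single, dig_wa_single]
          apply Nat.add_lt_add_left
          have h3 : p ^ (2 * (j + (m + 1) + 1)) = p ^ 2 * p ^ (2 * (j + m + 1)) := by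
            rw [← pow_add]
            congr 1
            omega
          simp only [one_mul]
          rw [h3]
          apply Nat.mul_lt_mul_of_pos_right
          · nlinarith
          · positivity
        have h4 : wa (fun _ => 1) b < s := by
          rw [← hs, hb, hac, dig_wa_add, dig_wa_add, dig_wa_single, dig_wa_single]
          omega
        have h5 := (ih _ h4 b rfl).1
        rw [h1] at h5
        exact ⟨le_of_lt (lt_of_lt_of_le h2 h5), fun _ => lt_of_lt_of_le h2 h5⟩
  exact key _ a rfl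

theorem code_carry (hp : 2 ≤ p) (R : ℕ →₀ ℕ) (j m : ℕ) (h : p ≤ dig p R (j, m) + 1) :
    code p (dig p R) + p ^ (2 * (j + m + 1)) <
      code p (dig p (R + Finsupp.single j (p ^ m))) := by
  have h1 : toR p (dig p R + Finsupp.single (j, m) 1) = R + Finsupp.single j (p ^ m) := by
    rw [toR_add, toR_dig hp, toR_single, one_mul]
  have h2 := (code_norm hp (dig p R + Finsupp.single (j, m) 1)).2
    ⟨(j, m), by rw [Finsupp.add_apply, Finsupp.single_eq_same]; exact h⟩
  rw [h1] at h2
  have h3 : code p (dig p R + Finsupp.single (j, m) 1) =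
      code p (dig p R) + p ^ (2 * (j + m + 1)) := by
    unfold code
    rw [dig_wa_add, dig_wa_single, one_mul]
  rw [← h3]
  exact h2

theorem code_add_le (hp : 2 ≤ p) (R : ℕ →₀ ℕ) (j m : ℕ) :
    code p (dig p R) + p ^ (2 * (j + m + 1)) ≤
      code p (dig p (R + Finsupp.single j (p ^ m))) := by
  have h1 : toR p (dig p R + Finsupp.single (j, m) 1) = R + Finsupp.single j (p ^ m) := by
    rw [toR_add, toR_dig hp, toR_single, one_mul]
  have h2 := (code_norm hp (dig p R + Finsupp.single (j, m) 1)).1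
  rw [h1] at h2
  have h3 : code p (dig p R + Finsupp.single (j, m) 1) =
      code p (dig p R) + p ^ (2 * (j + m + 1)) := by
    unfold code
    rw [dig_wa_add, dig_wa_single, one_mul]
  rw [← h3]
  exact h2

theorem code_le (hp : 2 ≤ p) (R : ℕ →₀ ℕ) : code p (dig p R) ≤ wtR p R ^ 2 := by
  have h1 : wtR p R = wa (fun x => p ^ (x.1 + x.2 + 1)) (dig p R) := by
    rw [← wtR_toR, toR_dig hp]
  rw [h1]
  unfold code wa Finsupp.sum
  have h2 : ∀ (s : Finset (ℕ × ℕ)) (f : ℕ × ℕ → ℕ), ∑ x ∈ s, f x ^ 2 ≤ (∑ x ∈ s, f x) ^ 2 := by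
    intro s f
    classical
    induction s using Finset.induction_on with
    | empty => simp
    | insert x s hx ih =>
      rw [Finset.sum_insert hx, Finset.sum_insert hx]
      nlinarith [Nat.zero_le (f x * ∑ y ∈ s, f y)]
  refine le_trans (Finset.sum_le_sum fun x _ => ?_) (h2 _ _)
  have h3 : p ^ (2 * (x.1 + x.2 + 1)) = (p ^ (x.1 + x.2 + 1)) ^ 2 := by
    rw [← pow_mul]
    congr 1
    ring
  show (dig p R) x * p ^ (2 * (x.1 + x.2 + 1)) ≤ ((dig p R) x * p ^ (x.1 + x.2 + 1)) ^ 2
  rw [h3, mul_pow]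
  apply Nat.mul_le_mul_right
  nlinarith [Nat.zero_le ((dig p R) x)]

theorem levels_le (hp : 2 ≤ p) (R : ℕ →₀ ℕ) :
    ∑ l ∈ levels (dig p R), p ^ (l + 1) ≤ wtR p R := by
  classical
  have h1 : wtR p R = wa (fun x => p ^ (x.1 + x.2 + 1)) (dig p R) := by
    rw [← wtR_toR, toR_dig hp]
  rw [h1]
  unfold wa Finsupp.sum levels
  rw [← Finset.sum_fiberwise_of_maps_to (s := (dig p R).support)
    (t := (dig p R).support.image fun x => x.1 + x.2) (g := fun x => x.1 + x.2)
    (fun x hx => Finset.mem_image_of_mem _ hx)]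
  refine Finset.sum_le_sum fun l hl => ?_
  obtain ⟨x, hx, hxl⟩ := Finset.mem_image.mp hl
  have h2 : 1 ≤ (dig p R) x := Nat.one_le_iff_ne_zero.mpr (Finsupp.mem_support_iff.mp hx)
  calc p ^ (l + 1) ≤ (dig p R) x * p ^ (x.1 + x.2 + 1) := by
        rw [hxl]
        exact Nat.le_mul_of_pos_left _ h2
    _ ≤ _ := Finset.single_le_sum (f := fun x => (dig p R) x * p ^ (x.1 + x.2 + 1))
        (fun _ _ => Nat.zero_le _) (Finset.mem_filter.mpr ⟨hx, hxl⟩)

theorem mem_AS (S : Finset ℕ) (x : ℕ × ℕ) : x ∈ AS S ↔ x.1 + x.2 ∈ S := by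
  unfold AS
  simp only [Finset.mem_biUnion, Finset.HasAntidiagonal.mem_antidiagonal]
  constructor
  · rintro ⟨l, hl, h⟩
    rw [h]
    exact hl
  · intro h
    exact ⟨_, h, rfl⟩

theorem sum_AS (hp : 2 ≤ p) (S : Finset ℕ) :
    ∑ x ∈ AS S, (p - 1) * p ^ x.2 = ∑ l ∈ S, (p ^ (l + 1) - 1) := by
  unfold AS
  rw [Finset.sum_biUnion]
  · refine Finset.sum_congr rfl fun l _ => ?_
    rw [Finset.Nat.sum_antidiagonal_eq_sum_range_succ_mk]
    have h1 : ∑ k ∈ range l.succ, (p - 1) * p ^ ((k, l - k) : ℕ × ℕ).2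
        = ∑ k ∈ range (l + 1), (p - 1) * p ^ k := by
      rw [← Finset.sum_range_reflect]
      refine Finset.sum_congr rfl fun k hk => ?_
      have := Finset.mem_range.mp hk
      simp only
      congr 2
      omega
    rw [h1]
    have h2 : ∀ L : ℕ, ∑ k ∈ range L, (p - 1) * p ^ k = p ^ L - 1 := by
      intro L
      induction L with
      | zero => simp
      | succ L ih =>
        rw [Finset.sum_range_succ, ih, pow_succ']
        have h3 : 1 ≤ p ^ L := Nat.one_le_pow _ _ (by omega)
        obtain ⟨q, rfl⟩ : ∃ q, p = q + 1 := ⟨p - 1, by omega⟩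
        rw [Nat.add_sub_cancel]
        have h4 : (q + 1) * (q + 1) ^ L = q * (q + 1) ^ L + (q + 1) ^ L := by ring
        rw [h4]
        omega
    exact h2 (l + 1)
  · intro l _ l' _ hne
    rw [Function.onFun, Finset.disjoint_left]
    intro x hx hx'
    rw [Finset.HasAntidiagonal.mem_antidiagonal] at hx hx'
    exact hne (hx.symm.trans hx')

theorem support_AS (S : Finset ℕ) (a : ℕ × ℕ →₀ ℕ) : a.support ⊆ AS S ↔ levels a ⊆ S := by
  unfold levels
  constructor
  · intro h l hl
    obtain ⟨x, hx, rfl⟩ := Finset.mem_image.mp hl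
    exact (mem_AS S x).mp (h hx)
  · intro h x hx
    exact (mem_AS S x).mpr (h (Finset.mem_image_of_mem _ hx))

theorem levels_add (a : ℕ × ℕ →₀ ℕ) (x : ℕ × ℕ) :
    levels (a + Finsupp.single x 1) = insert (x.1 + x.2) (levels a) := by
  classical
  have h1 : (a + Finsupp.single x 1).support = insert x a.support := by
    ext y
    rw [Finsupp.mem_support_iff, Finset.mem_insert, Finsupp.mem_support_iff, Finsupp.add_apply,
      Finsupp.single_apply]
    by_cases hy : x = y
    · simp [hy]
    · rw [if_neg hy, add_zero]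
      constructor
      · intro h
        exact Or.inr h
      · rintro (h | h)
        · exact absurd h.symm hy
        · exact h
  unfold levels
  rw [h1, Finset.image_insert]

end BPN.D
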