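import Pool.Agent.BPN.D.Ops
import Pool.Agent.BPN.D.Dig

/-!
# BPN, part D, module Lead: leading parts

`K := code p (dig p R)` for short.  Let `n < k`.  For `t ≤ n` the vector `R + single (k-1-t) (p^(t+j))` has code
`≥ K + p^(2(k+j))` (`code_add_le`, `(k-1-t) + (t+j) + 1 = k + j`).
* `rr_ne_zero`: `op_ne_zero`.
* `lead1`: if `(rr k j z) R J ≠ 0` then `z (R + ..) ≠ 0` for some `t`, so `K + p^(2(k+j)) + e ≤ c`.
* `lead2`: let `A` contain the digits `(k-1-t, t+j)`.  Compare the sums termwise at `(a, J)`.  If `a` has an entry `≥ p` or its support is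
  not in `A`: both sides vanish (the same holds for `a + single x 1`, `x ∈ A`).  Otherwise `toR (a + single x 1) = toR a + single (k-1-t) (p^(t+j))`,
  `x = (k-1-t, t+j)`, and `code (a + single x 1) = code a + p^(2(k+j))`.  If `a x + 1 < p` the terms agree.  If `a x + 1 = p` the left term is `0`
  and the right term is `0` unless `code a + (e + p^(2(k+j))) = c`, and then `code (dig (toR a + ..)) + e > c` (`code_carry`, `dig_toR`), so
  `z` vanishes there.
* `rr_TW`: `wtR` and `sz` of `single`.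
-/

set_option autoImplicit false

namespace BPN.D

open Finset

variable {n p : ℕ}

private theorem ld_lvl {k : ℕ} (hk : n < k) (t : Fin (n + 1)) (j : ℕ) :
    k - 1 - (t : ℕ) + ((t : ℕ) + j) + 1 = k + j := by
  have := t.isLt
  omega

private theorem ld_tr_pos {A : Finset (ℕ × ℕ)} {e c : ℕ} {z : V ℕ n p} {a : ℕ × ℕ →₀ ℕ}
    {J : Fin (n + 1) →₀ ℕ} (h : (∀ x, a x < p) ∧ a.support ⊆ A ∧ code p a + e = c) :
    tr p A e c z a J = z (toR p a) J := by
  unfold tr
  exact if_pos h

private theorem ld_tr_neg {A : Finset (ℕ × ℕ)} {e c : ℕ} {z : V ℕ n p} {a : ℕ × ℕ →₀ ℕ}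
    {J : Fin (n + 1) →₀ ℕ} (h : ¬ ((∀ x, a x < p) ∧ a.support ⊆ A ∧ code p a + e = c)) :
    tr p A e c z a J = 0 := by
  unfold tr
  exact if_neg h

theorem rr_apply (k j : ℕ) (z : V ℕ n p) (R : ℕ →₀ ℕ) (J : Fin (n + 1) →₀ ℕ) :
    rr p k j z R J = ∑ t : Fin (n + 1), if p ^ j ≤ J t then
      z (R + Finsupp.single (k - 1 - t) (p ^ ((t : ℕ) + j))) (J - Finsupp.single t (p ^ j))
      else 0 := by
  unfold rr
  rw [op_apply, Finset.filter_true_of_mem fun t _ => Nat.zero_le _]

theorem rr_TW (hp : 2 ≤ p) {k j : ℕ} (hk : n < k) {w e h : ℕ} {z : V ℕ n p}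
    (hz : TW p w e h z) : TW p w (e + p ^ (k + j)) h (rr p k j z) := by
  intro R J hne
  unfold rr at hne
  obtain ⟨t, -, hJ, hne⟩ := op_ne_zero hne
  obtain ⟨h1, h2⟩ := hz _ _ hne
  have ht := t.isLt
  have h3 : wtR p (R + Finsupp.single (k - 1 - (t : ℕ)) (p ^ ((t : ℕ) + j))) =
      wtR p R + p ^ (k + j) := by
    unfold wtR
    rw [wa_add, wa_single, ← pow_add]
    congr 2
    omega
  have h4 : sz (R + Finsupp.single (k - 1 - (t : ℕ)) (p ^ ((t : ℕ) + j))) =
      sz R + p ^ ((t : ℕ) + j) := by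
    unfold sz
    rw [wa_add, wa_single, mul_one]
  have h5 := dJ_sub (p := p) J t (p ^ j) hJ
  rw [← pow_add, add_comm j] at h5
  rw [h3] at h1
  rw [h4] at h2
  constructor <;> omega

theorem rr_comm (k j k' j' : ℕ) (z : V ℕ n p) : rr p k j (rr p k' j' z) = rr p k' j' (rr p k j z) := by
  unfold rr
  exact LinearMap.congr_fun (op_comm (n := n) (p := p) 0 (p ^ j) 0 (p ^ j')
    (fun t => Finsupp.single (k - 1 - (t : ℕ)) (p ^ ((t : ℕ) + j)))
    (fun t => Finsupp.single (k' - 1 - (t : ℕ)) (p ^ ((t : ℕ) + j')))).eq z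

theorem lead1 (hp : 2 ≤ p) {k j e c : ℕ} (hk : n < k) {z : V ℕ n p}
    (hz : ∀ R J, z R J ≠ 0 → code p (dig p R) + e ≤ c) :
    ∀ R J, rr p k j z R J ≠ 0 → code p (dig p R) + (e + p ^ (2 * (k + j))) ≤ c := by
  intro R J hne
  unfold rr at hne
  obtain ⟨t, -, -, hne⟩ := op_ne_zero hne
  have h1 := hz _ _ hne
  have h2 := code_add_le hp R (k - 1 - (t : ℕ)) ((t : ℕ) + j)
  rw [ld_lvl hk t j] at h2
  omega

theorem lead2 (hp : 2 ≤ p) {k j e c : ℕ} (hk : n < k) {z : V ℕ n p}
    (hz : ∀ R J, z R J ≠ 0 → code p (dig p R) + e ≤ c) (A : Finset (ℕ × ℕ))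
    (hA : ∀ t : Fin (n + 1), (k - 1 - (t : ℕ), (t : ℕ) + j) ∈ A) :
    op 0 (p ^ j) (fun t : Fin (n + 1) => Finsupp.single (k - 1 - (t : ℕ), (t : ℕ) + j) 1)
      (tr p A e c z) = tr p A (e + p ^ (2 * (k + j))) c (rr p k j z) := by
  funext a J
  rw [op_apply, Finset.filter_true_of_mem fun t _ => Nat.zero_le _]
  have hcode : ∀ t : Fin (n + 1), code p (a + Finsupp.single (k - 1 - (t : ℕ), (t : ℕ) + j) 1) =
      code p a + p ^ (2 * (k + j)) := by
    intro t
    unfold code
    rw [wa_add, wa_single, one_mul, ld_lvl hk t j]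
  by_cases hb : (∀ x, a x < p) ∧ a.support ⊆ A ∧ code p a + (e + p ^ (2 * (k + j))) = c
  · rw [ld_tr_pos hb, rr_apply]
    obtain ⟨h1, h2, h3⟩ := hb
    refine Finset.sum_congr rfl fun t _ => ?_
    by_cases hJ : p ^ j ≤ J t
    · rw [if_pos hJ, if_pos hJ]
      by_cases hx : a (k - 1 - (t : ℕ), (t : ℕ) + j) + 1 < p
      · rw [ld_tr_pos, toR_add, toR_single, one_mul]
        refine ⟨fun y => ?_, ?_, ?_⟩
        · rw [Finsupp.add_apply]
          by_cases hy : (k - 1 - (t : ℕ), (t : ℕ) + j) = y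
          · rw [← hy, Finsupp.single_eq_same]
            exact hx
          · rw [Finsupp.single_eq_of_ne (Ne.symm hy), add_zero]
            exact h1 y
        · intro y hy
          rcases Finset.mem_union.1 (Finsupp.support_add hy) with hy | hy
          · exact h2 hy
          · have := Finsupp.support_single_subset hy
            rw [Finset.mem_singleton] at this
            rw [this]
            exact hA t
        · rw [hcode t]
          omega
      · rw [ld_tr_neg]
        · symm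
          by_contra hne
          have h4 := hz _ _ hne
          have h5 := code_carry hp (toR p a) (k - 1 - (t : ℕ)) ((t : ℕ) + j) (by
            rw [dig_toR hp a h1]
            omega)
          rw [dig_toR hp a h1, ld_lvl hk t j] at h5
          omega
        · rintro ⟨h4, -, -⟩
          have h5 := h4 (k - 1 - (t : ℕ), (t : ℕ) + j)
          rw [Finsupp.add_apply, Finsupp.single_eq_same] at h5
          exact hx h5
    · rw [if_neg hJ, if_neg hJ]
  · rw [ld_tr_neg hb]
    refine Finset.sum_eq_zero fun t _ => ?_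
    by_cases hJ : p ^ j ≤ J t
    · rw [if_pos hJ, ld_tr_neg]
      rintro ⟨h1, h2, h3⟩
      apply hb
      refine ⟨fun y => ?_, fun y hy => h2 ?_, ?_⟩
      · have h4 := h1 y
        rw [Finsupp.add_apply] at h4
        omega
      · rw [Finsupp.mem_support_iff] at hy ⊢
        rw [Finsupp.add_apply]
        omega
      · rw [hcode t] at h3
        omega
    · rw [if_neg hJ]

theorem tr_N (hp : 2 ≤ p) {w e c h e' : ℕ} {z : V ℕ n p} (hz : TW p w e' h z)
    (A : Finset (ℕ × ℕ)) : tr p A e c z ∈ N n p A (fun x => p ^ x.2) 0 h := by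
  intro a J hne
  by_cases hb : (∀ x, a x < p) ∧ a.support ⊆ A ∧ code p a + e = c
  · rw [ld_tr_pos hb] at hne
    refine ⟨hb.1, hb.2.1, fun t ht => absurd ht (Nat.not_lt_zero _), ?_⟩
    rw [← sz_toR]
    exact (hz _ _ hne).2
  · exact absurd (ld_tr_neg hb) hne

end BPN.D
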