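import Pool.Agent.BPN.D.Fp
import Pool.Agent.BPN.D.Lead

/-!
# BPN, part D, module Appr: exactness at exterior degree 1

`step`: `X (k, j) = r_k^{p^j - 1} x_k` (`xx x k j`), so `X (k, 0) = x k`, `r_{k'}^{p^{j'}} X (k, j) = r_k^{p^j} X (k', j')` and
`(r_k^{p^j})^{p-1} X (k, j) = X (k, j+1)` (`rr_pow`, `(p-1) p^j + (p^j - 1) = p^{j+1} - 1`).  Write `B l = p^(2l)` and `K R = code p (dig p R)`.
Suppose `X (k, j) R J ≠ 0 → K R + B (k+j) ≤ C` for all `k ∈ 𝒦`, `j`, `R`, `J`.
For a finite set `S` of levels with `∑_{l ∈ S} p^(l+1) ≤ w` apply `solveDig` with `X = ℕ × ℕ`, `A = AS S`, `wt x = p^x.2`, `Q = ℕ × ℕ`, `e (k,j) = p^j`,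
`dg (k,j) t = (k-1-t, t+j)`, `L` a list without repetitions of all `(k,j)` with `k ∈ 𝒦`, `k+j-1 ∈ S`, in which `j` increases (weakly), and
`x (k,j) = tr (AS S) (B (k+j)) C (X (k,j))`:
 * `hA`: the level of `dg (k,j) t` is `k-1+j ∈ S`; `h1`, `h2`: second components `s + j`, `t + j'` with `j ≤ j'`, `s ≤ t`;
   equality forces `s = t`, `j = j'`, then `k = k'` from the first components (`k, k' > n ≥ t`).
 * `hh`: `∑_{x ∈ AS S} (p-1) p^x.2 = ∑_{l ∈ S} (p^(l+1) - 1) ≤ w < h + ∑ p^t`.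
 * `hx`: `tr_N`; `hc`: `lead2` and the compatibility of the `X (k,j)`; `ht`: iterate `lead1`, `lead2`:
   `c^(p-1) (tr (B l) C X(k,j)) = tr (B l + (p-1) B l) C (X (k,j+1)) = 0` since `X (k,j+1) R J ≠ 0` gives `K R + p² B l ≤ C` but `tr` requires
   `K R + p B l = C` (`K (toR a) = code a` by `dig_toR`).
Let `yS S` be the solution (`0` for other `S`) and `y R J = if wtR R = w ∧ K R = C then yS (levels (dig R)) (dig R) J else 0`.
CLAIM: `(X (k,j) - r_k^{p^j} y) R J ≠ 0 → K R + B (k+j) < C`.  Let `l = k + j - 1`.  If `K R + B (k+j) > C` both terms vanish (`lead1`).  Let `K R + B (k+j) = C`.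
If `wtR R + p^(k+j) ≠ w` both vanish.  Otherwise `S = insert l (levels (dig R))` satisfies `∑_{S} p^(l'+1) ≤ wtR R + p^(k+j) = w` (`levels_le`), and for every
`t`, `x = (k-1-t, t+j)`, `R' = R + single ..`: if `dig R x + 1 < p`: `dig R' = dig R + single x 1`, `levels = S` (`levels_add`), `K R' = C`, `wtR R' = w`, so
`y R' J' = yS S (dig R + single x 1) J'`; if `dig R x + 1 = p`: `K R' > C`, so `y R' J' = 0`, and `yS S (dig R + single x 1) J' = 0` (entries of
elements of `N` are `< p`).  Hence `(r_k^{p^j} y) R J = (cc (k,j) (yS S)) (dig R) J = tr (AS S) (B (k+j)) C (X (k,j)) (dig R) J = X (k,j) (toR (dig R)) J = X (k,j) R J`.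
`solveS`: induction on `C`: claim for all `x` with `TW`, compatible, and the support condition with bound `C`.  `C = 0`: `x = 0` (`B > 0`), `y = 0`.
Start: `C = w^2`: `X (k,j) R J ≠ 0` implies `wtR R + p^(k+j) = w` (`rr_TW` iterated), `K R ≤ (wtR R)^2` (`code_le`), `a² + b² ≤ (a+b)²`.
(`xx (x - r y) k j = xx x k j - r_k^{p^j} y`.)
-/

set_option autoImplicit false

namespace BPN.D

open Finset

variable {n p : ℕ}

/-- `r_k^{p^j - 1} x_k` -/
noncomputable def xx (x : ℕ → V ℕ n p) (k j : ℕ) : V ℕ n p := (rr p k 0 ^ (p ^ j - 1)) (x k)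

private lemma exists_list (Q : Finset (ℕ × ℕ)) : ∃ L : List (ℕ × ℕ), (∀ q, q ∈ L ↔ q ∈ Q) ∧
    L.Pairwise fun q q' => q.2 ≤ q'.2 ∧ q ≠ q' := by
  classical
  induction Q using Finset.induction_on_max_value (f := fun q : ℕ × ℕ => q.2) with
  | empty => exact ⟨[], by simp, List.Pairwise.nil⟩
  | insert a s ha hs ih =>
    obtain ⟨L, hL, hP⟩ := ih
    refine ⟨L ++ [a], fun q => ?_, ?_⟩
    · rw [List.mem_append, hL, Finset.mem_insert]
      simp only [List.mem_singleton]
      tauto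
    · rw [List.pairwise_append]
      refine ⟨hP, List.pairwise_singleton _ _, fun q hq q' hq' => ?_⟩
      rw [List.mem_singleton] at hq'
      subst hq'
      rw [hL] at hq
      exact ⟨hs q hq, fun h => ha (h ▸ hq)⟩

private lemma rr_commute (k j k' j' : ℕ) :
    Commute (rr p k j : Module.End (ZMod p) (V ℕ n p)) (rr p k' j') :=
  LinearMap.ext fun z => rr_comm k j k' j' z

private lemma xx_TW [Fact p.Prime] {k : ℕ} (hk : n < k) {w h : ℕ} {x : ℕ → V ℕ n p}
    (hx : TW p w (p ^ k) h (x k)) (j : ℕ) : TW p w (p ^ (k + j)) h (xx x k j) := by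
  have hp : 2 ≤ p := (Fact.out : p.Prime).two_le
  have key : ∀ m, TW p w (p ^ k + m * p ^ k) h ((rr p k 0 ^ m) (x k)) := by
    intro m
    induction m with
    | zero => simpa using hx
    | succ m ih =>
      rw [pow_succ', Module.End.mul_apply]
      have h1 := rr_TW hp hk (j := 0) ih
      have e1 : p ^ k + m * p ^ k + p ^ (k + 0) = p ^ k + (m + 1) * p ^ k := by
        rw [add_zero]
        ring
      rw [e1] at h1
      exact h1
  have h1 := key (p ^ j - 1)
  have h2 : 1 ≤ p ^ j := Nat.one_le_pow _ _ (by omega)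
  have e2 : p ^ k + (p ^ j - 1) * p ^ k = p ^ (k + j) := by
    obtain ⟨q, hq⟩ := Nat.exists_eq_add_of_le h2
    rw [pow_add, hq, Nat.add_sub_cancel_left]
    ring
  rw [e2] at h1
  exact h1

private lemma xx_comm [Fact p.Prime] {x : ℕ → V ℕ n p} {k l : ℕ}
    (hc : rr p k 0 (x l) = rr p l 0 (x k)) (j i : ℕ) :
    rr p k j (xx x l i) = rr p l i (xx x k j) := by
  have hp : 2 ≤ p := (Fact.out : p.Prime).two_le
  have hrs : Commute (rr p k 0 : Module.End (ZMod p) (V ℕ n p)) (rr p l 0) :=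
    rr_commute k 0 l 0
  rw [← rr_pow k j, ← rr_pow l i]
  unfold xx
  have h1 : p ^ j = (p ^ j - 1) + 1 := by
    have := Nat.one_le_pow j p (by omega)
    omega
  have h2 : p ^ i = (p ^ i - 1) + 1 := by
    have := Nat.one_le_pow i p (by omega)
    omega
  generalize p ^ j - 1 = a at *
  generalize p ^ i - 1 = b at *
  rw [h1, h2]
  generalize (rr p k 0 : Module.End (ZMod p) (V ℕ n p)) = r at *
  generalize (rr p l 0 : Module.End (ZMod p) (V ℕ n p)) = s at *
  have e1 : r ^ (a + 1) * s ^ b = (r ^ a * s ^ b) * r := by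
    rw [pow_succ, mul_assoc, (hrs.pow_right b).eq, mul_assoc]
  have e2 : s ^ (b + 1) * r ^ a = (r ^ a * s ^ b) * s := by
    rw [← (hrs.pow_pow a (b + 1)).eq, pow_succ, mul_assoc]
  rw [← Module.End.mul_apply, ← Module.End.mul_apply, e1, e2,
    Module.End.mul_apply (r ^ a * s ^ b) r, Module.End.mul_apply (r ^ a * s ^ b) s, hc]

private lemma xx_succ [Fact p.Prime] (x : ℕ → V ℕ n p) (k j : ℕ) :
    (rr p k j ^ (p - 1)) (xx x k j) = xx x k (j + 1) := by
  have hp : 2 ≤ p := (Fact.out : p.Prime).two_le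
  rw [← rr_pow k j]
  unfold xx
  rw [← pow_mul, ← Module.End.mul_apply, ← pow_add]
  have h2 : 1 ≤ p ^ j := Nat.one_le_pow _ _ (by omega)
  have h3 : p ^ j * (p - 1) = p ^ j * p - p ^ j := Nat.mul_sub_one _ _
  have h4 : p ^ j ≤ p ^ j * p := Nat.le_mul_of_pos_right _ (by omega)
  have h5 : p ^ j * (p - 1) + (p ^ j - 1) = p ^ (j + 1) - 1 := by
    rw [pow_succ, h3]
    omega
  rw [h5]

private lemma pow_tr (hp : 2 ≤ p) {k j c : ℕ} (hk : n < k) (A : Finset (ℕ × ℕ))
    (hA : ∀ t : Fin (n + 1), (k - 1 - (t : ℕ), (t : ℕ) + j) ∈ A) (m : ℕ) :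
    ∀ (e : ℕ) (z : V ℕ n p), (∀ R J, z R J ≠ 0 → code p (dig p R) + e ≤ c) →
      ((op 0 (p ^ j) (fun t : Fin (n + 1) =>
        Finsupp.single (k - 1 - (t : ℕ), (t : ℕ) + j) 1)) ^ m) (tr p A e c z) =
      tr p A (e + m * p ^ (2 * (k + j))) c ((rr p k j ^ m) z) := by
  induction m with
  | zero =>
    intro e z hz
    simp
  | succ m ih =>
    intro e z hz
    rw [pow_succ, Module.End.mul_apply, lead2 hp hk hz A hA, ih _ _ (lead1 hp hk hz),
      pow_succ (rr p k j), Module.End.mul_apply]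
    congr 1
    ring

private lemma stepS [Fact p.Prime] (𝒦 : Finset ℕ) (hK : ∀ k ∈ 𝒦, n < k) (w h C : ℕ)
    (hw : w < h + ∑ t : Fin (n + 1), p ^ (t : ℕ)) (x : ℕ → V ℕ n p)
    (hx : ∀ k ∈ 𝒦, TW p w (p ^ k) h (x k))
    (hc : ∀ k ∈ 𝒦, ∀ l ∈ 𝒦, rr p k 0 (x l) = rr p l 0 (x k))
    (hC : ∀ k ∈ 𝒦, ∀ j R J, xx x k j R J ≠ 0 → code p (dig p R) + p ^ (2 * (k + j)) ≤ C)
    (S : Finset ℕ) (hS : ∑ l ∈ S, p ^ (l + 1) ≤ w) :
    ∃ y ∈ N n p (AS S) (fun x => p ^ x.2) 0 h, ∀ k ∈ 𝒦, ∀ j, k + j - 1 ∈ S →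
      op 0 (p ^ j) (fun t : Fin (n + 1) => Finsupp.single (k - 1 - (t : ℕ), (t : ℕ) + j) 1) y =
        tr p (AS S) (p ^ (2 * (k + j))) C (xx x k j) := by
  classical
  have hp : 2 ≤ p := (Fact.out : p.Prime).two_le
  obtain ⟨L, hL, hP⟩ := exists_list
    ((𝒦 ×ˢ range (S.sup id + 2)).filter fun q => q.1 + q.2 - 1 ∈ S)
  have hL1 : ∀ q ∈ L, q.1 ∈ 𝒦 ∧ q.1 + q.2 - 1 ∈ S := by
    intro q hq
    have h1 := (hL q).1 hq
    rw [Finset.mem_filter, Finset.mem_product] at h1
    exact ⟨h1.1.1, h1.2⟩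
  have hL2 : ∀ k ∈ 𝒦, ∀ j, k + j - 1 ∈ S → (k, j) ∈ L := by
    intro k hk j hj
    have h1 : id (k + j - 1) ≤ S.sup id := Finset.le_sup hj
    have h2 := hK k hk
    rw [hL, Finset.mem_filter, Finset.mem_product, Finset.mem_range]
    refine ⟨⟨hk, ?_⟩, hj⟩
    simp only [id] at h1
    show j < S.sup id + 2
    omega
  have hA : ∀ q ∈ L, ∀ t : Fin (n + 1), (q.1 - 1 - (t : ℕ), (t : ℕ) + q.2) ∈ AS S := by
    intro q hq t
    obtain ⟨h1, h2⟩ := hL1 q hq
    have h3 := hK _ h1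
    have h4 := t.isLt
    rw [mem_AS]
    have e1 : q.1 - 1 - (t : ℕ) + ((t : ℕ) + q.2) = q.1 + q.2 - 1 := by omega
    show q.1 - 1 - (t : ℕ) + ((t : ℕ) + q.2) ∈ S
    rw [e1]
    exact h2
  have hsum : ∑ y ∈ AS S, (p - 1) * p ^ y.2 < h + ∑ t : Fin (n + 1), p ^ (t : ℕ) := by
    rw [sum_AS hp]
    refine lt_of_le_of_lt ?_ hw
    refine le_trans (Finset.sum_le_sum fun l _ => ?_) hS
    exact Nat.sub_le _ _
  obtain ⟨y, hy, hyL⟩ := solveDig (n := n) (p := p) (AS S) (fun y : ℕ × ℕ => p ^ y.2)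
    (fun q : ℕ × ℕ => p ^ q.2)
    (fun (q : ℕ × ℕ) (t : Fin (n + 1)) => (q.1 - 1 - (t : ℕ), (t : ℕ) + q.2)) L hA
    (fun q _ t => by
      show p ^ ((t : ℕ) + q.2) = p ^ (t : ℕ) * p ^ q.2
      exact pow_add _ _ _)
    (fun q _ => Nat.one_le_pow _ _ (by omega))
    (fun q _ s t hst he => by
      have h1 : (s : ℕ) + q.2 = (t : ℕ) + q.2 := congrArg Prod.snd he
      have h2 : (s : ℕ) < t := hst
      omega)
    (hP.imp_of_mem fun {q q'} hq hq' hqq s t hst he => by
      have h1 : (s : ℕ) + q.2 = (t : ℕ) + q'.2 := congrArg Prod.snd he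
      have h2 : (s : ℕ) ≤ t := hst
      have h3 : q.1 - 1 - (s : ℕ) = q'.1 - 1 - (t : ℕ) := congrArg Prod.fst he
      have h4 := hqq.1
      have h5 := hK _ (hL1 q hq).1
      have h6 := hK _ (hL1 q' hq').1
      have h7 := s.isLt
      have h8 := t.isLt
      apply hqq.2
      have h9 : q.1 = q'.1 := by omega
      have h10 : q.2 = q'.2 := by omega
      exact Prod.ext h9 h10)
    h hsum (fun q => tr p (AS S) (p ^ (2 * (q.1 + q.2))) C (xx x q.1 q.2))
    (fun q hq => tr_N hp (xx_TW (hK _ (hL1 q hq).1) (hx _ (hL1 q hq).1) q.2) _)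
    (fun q hq q' hq' => by
      unfold cc
      show op 0 (p ^ q.2) (fun t : Fin (n + 1) =>
        Finsupp.single (q.1 - 1 - (t : ℕ), (t : ℕ) + q.2) 1) (tr p (AS S)
          (p ^ (2 * (q'.1 + q'.2))) C (xx x q'.1 q'.2)) =
        op 0 (p ^ q'.2) (fun t : Fin (n + 1) =>
        Finsupp.single (q'.1 - 1 - (t : ℕ), (t : ℕ) + q'.2) 1) (tr p (AS S)
          (p ^ (2 * (q.1 + q.2))) C (xx x q.1 q.2))
      rw [lead2 hp (hK _ (hL1 q hq).1) (hC _ (hL1 q' hq').1 _) (AS S) (hA q hq),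
        lead2 hp (hK _ (hL1 q' hq').1) (hC _ (hL1 q hq).1 _) (AS S) (hA q' hq'),
        xx_comm (hc _ (hL1 q hq).1 _ (hL1 q' hq').1), add_comm])
    (fun q hq => by
      unfold cc
      show ((op 0 (p ^ q.2) (fun t : Fin (n + 1) =>
        Finsupp.single (q.1 - 1 - (t : ℕ), (t : ℕ) + q.2) 1)) ^ (p - 1)) (tr p (AS S)
          (p ^ (2 * (q.1 + q.2))) C (xx x q.1 q.2)) = 0
      rw [pow_tr hp (hK _ (hL1 q hq).1) (AS S) (hA q hq) (p - 1) _ _
        (hC _ (hL1 q hq).1 _), xx_succ]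
      funext a J
      unfold tr
      show (if (∀ x, a x < p) ∧ a.support ⊆ AS S ∧
        code p a + (p ^ (2 * (q.1 + q.2)) + (p - 1) * p ^ (2 * (q.1 + q.2))) = C then
          xx x q.1 (q.2 + 1) (toR p a) J else 0) = 0
      split_ifs with hcond
      · obtain ⟨ha, _, hcode⟩ := hcond
        by_contra hne
        have h1 := hC _ (hL1 q hq).1 (q.2 + 1) (toR p a) J hne
        rw [dig_toR hp a ha] at h1
        have hB : 0 < p ^ (2 * (q.1 + q.2)) := by positivity
        have e1 : p ^ (2 * (q.1 + (q.2 + 1))) = p * (p * p ^ (2 * (q.1 + q.2))) := by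
          have : 2 * (q.1 + (q.2 + 1)) = 2 * (q.1 + q.2) + 1 + 1 := by ring
          rw [this, pow_succ, pow_succ]
          ring
        have e2 : p ^ (2 * (q.1 + q.2)) + (p - 1) * p ^ (2 * (q.1 + q.2)) =
            p * p ^ (2 * (q.1 + q.2)) := by
          obtain ⟨r, hr⟩ := Nat.exists_eq_add_of_le (show 1 ≤ p by omega)
          generalize p ^ (2 * (q.1 + q.2)) = B
          rw [hr, Nat.add_sub_cancel_left]
          ring
        rw [e1] at h1
        rw [e2] at hcode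
        have h3 : 2 * (p * p ^ (2 * (q.1 + q.2))) ≤ p * (p * p ^ (2 * (q.1 + q.2))) :=
          Nat.mul_le_mul_right _ hp
        have h4 : 0 < p * p ^ (2 * (q.1 + q.2)) := by positivity
        omega
      · rfl)
  refine ⟨y, hy, fun k hk j hj => ?_⟩
  exact hyL (k, j) (hL2 k hk j hj)

theorem step [Fact p.Prime] (𝒦 : Finset ℕ) (hK : ∀ k ∈ 𝒦, n < k) (w h C : ℕ)
    (hw : w < h + ∑ t : Fin (n + 1), p ^ (t : ℕ)) (x : ℕ → V ℕ n p)
    (hx : ∀ k ∈ 𝒦, TW p w (p ^ k) h (x k))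
    (hc : ∀ k ∈ 𝒦, ∀ l ∈ 𝒦, rr p k 0 (x l) = rr p l 0 (x k))
    (hC : ∀ k ∈ 𝒦, ∀ j R J, xx x k j R J ≠ 0 → code p (dig p R) + p ^ (2 * (k + j)) ≤ C) :
    ∃ y : V ℕ n p, TW p w 0 h y ∧ ∀ k ∈ 𝒦, ∀ j R J, (xx x k j - rr p k j y) R J ≠ 0 →
      code p (dig p R) + p ^ (2 * (k + j)) < C := by
  classical
  have hp : 2 ≤ p := (Fact.out : p.Prime).two_le
  have hsol := stepS 𝒦 hK w h C hw x hx hc hC
  choose! yS hyS1 hyS2 using hsol
  obtain ⟨y, hy⟩ : ∃ y : V ℕ n p, y = fun R J =>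
      if wtR p R = w ∧ code p (dig p R) = C then yS (levels (dig p R)) (dig p R) J else 0 :=
    ⟨_, rfl⟩
  have hyv : ∀ R J, y R J = if wtR p R = w ∧ code p (dig p R) = C then
      yS (levels (dig p R)) (dig p R) J else 0 := fun R J => by rw [hy]
  have hTW : TW p w 0 h y := by
    intro R J hne
    rw [hyv] at hne
    split_ifs at hne with hcond
    · have hlev : ∑ l ∈ levels (dig p R), p ^ (l + 1) ≤ w := by
        rw [← hcond.1]
        exact levels_le hp R
      obtain ⟨_, _, _, h4⟩ := hyS1 _ hlev (dig p R) J hne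
      rw [← sz_toR, toR_dig hp] at h4
      exact ⟨by rw [add_zero]; exact hcond.1, h4⟩
    · exact absurd rfl hne
  refine ⟨y, hTW, ?_⟩
  intro k hk j R J hne
  by_contra hlt
  apply hne
  have hkn := hK k hk
  show xx x k j R J - rr p k j y R J = 0
  have hy0 : ∀ R J, y R J ≠ 0 → code p (dig p R) + 0 ≤ C := by
    intro R J h0
    rw [hyv] at h0
    split_ifs at h0 with hcond
    · rw [add_zero]
      exact hcond.2.le
    · exact absurd rfl h0
  rcases Nat.lt_or_ge C (code p (dig p R) + p ^ (2 * (k + j))) with hcase | hcase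
  · have h1 : xx x k j R J = 0 := by
      by_contra h0
      have := hC k hk j R J h0
      omega
    have h2 : rr p k j y R J = 0 := by
      by_contra h0
      have := lead1 hp hkn hy0 R J h0
      omega
    rw [h1, h2, sub_zero]
  · have hcode : code p (dig p R) + p ^ (2 * (k + j)) = C := by omega
    by_cases hwt : wtR p R + p ^ (k + j) = w
    · have hkj : k + j - 1 + 1 = k + j := by omega
      have hSle : ∑ l ∈ insert (k + j - 1) (levels (dig p R)), p ^ (l + 1) ≤ w := by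
        have h1 := levels_le hp R
        by_cases hm : k + j - 1 ∈ levels (dig p R)
        · rw [Finset.insert_eq_of_mem hm]
          omega
        · rw [Finset.sum_insert hm, hkj]
          omega
      have hsol := hyS2 _ hSle k hk j (Finset.mem_insert_self _ _)
      have h1 := congrFun (congrFun hsol (dig p R)) J
      rw [op_apply] at h1
      have h2 : tr p (AS (insert (k + j - 1) (levels (dig p R)))) (p ^ (2 * (k + j))) C
          (xx x k j) (dig p R) J = xx x k j R J := by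
        unfold tr
        show (if (∀ x, dig p R x < p) ∧ (dig p R).support ⊆
          AS (insert (k + j - 1) (levels (dig p R))) ∧
            code p (dig p R) + p ^ (2 * (k + j)) = C then
          xx x k j (toR p (dig p R)) J else 0) = xx x k j R J
        rw [if_pos ⟨dig_lt hp R, (support_AS _ _).2 (Finset.subset_insert _ _), hcode⟩,
          toR_dig hp]
      rw [h2] at h1
      rw [← h1, rr_apply, sub_eq_zero]
      have hfil : (univ.filter fun t : Fin (n + 1) => 0 ≤ (t : ℕ)) = univ :=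
        Finset.filter_true_of_mem fun t _ => Nat.zero_le _
      rw [hfil]
      refine Finset.sum_congr rfl fun t _ => ?_
      by_cases hJ : p ^ j ≤ J t
      · rw [if_pos hJ, if_pos hJ]
        have ht := t.isLt
        have hlev : k - 1 - (t : ℕ) + ((t : ℕ) + j) = k + j - 1 := by omega
        rcases Nat.lt_or_ge (dig p R (k - 1 - (t : ℕ), (t : ℕ) + j) + 1) p with hd | hd
        · have hdig := dig_add hp R (k - 1 - (t : ℕ)) ((t : ℕ) + j) hd
          rw [hyv, hdig]
          have hL : levels (dig p R + Finsupp.single (k - 1 - (t : ℕ), (t : ℕ) + j) 1) =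
              insert (k + j - 1) (levels (dig p R)) := by
            rw [levels_add]
            show insert (k - 1 - (t : ℕ) + ((t : ℕ) + j)) (levels (dig p R)) = _
            rw [hlev]
          have hcd : code p (dig p R +
              Finsupp.single (k - 1 - (t : ℕ), (t : ℕ) + j) 1) = C := by
            unfold code at hcode ⊢
            rw [wa_add, wa_single]
            show wa (fun x : ℕ × ℕ => p ^ (2 * (x.1 + x.2 + 1))) (dig p R) +
              1 * p ^ (2 * (k - 1 - (t : ℕ) + ((t : ℕ) + j) + 1)) = C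
            rw [hlev, hkj, one_mul]
            exact hcode
          have hww : wtR p (R + Finsupp.single (k - 1 - (t : ℕ)) (p ^ ((t : ℕ) + j))) = w := by
            unfold wtR at hwt ⊢
            rw [wa_add, wa_single, ← pow_add]
            have e1 : (t : ℕ) + j + (k - 1 - (t : ℕ) + 1) = k + j := by omega
            rw [e1]
            exact hwt
          rw [if_pos ⟨hww, hcd⟩, hL]
        · have h3 := code_carry hp R (k - 1 - (t : ℕ)) ((t : ℕ) + j) hd
          have e2 : k - 1 - (t : ℕ) + ((t : ℕ) + j) + 1 = k + j := by omega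
          rw [e2] at h3
          rw [hyv, if_neg (by
            rintro ⟨_, h4⟩
            omega)]
          by_contra h0
          have h5 := (hyS1 _ hSle _ _ h0).1 (k - 1 - (t : ℕ), (t : ℕ) + j)
          rw [Finsupp.add_apply, Finsupp.single_eq_same] at h5
          omega
      · rw [if_neg hJ, if_neg hJ]
    · have h1 : xx x k j R J = 0 := by
        by_contra h0
        exact hwt (xx_TW hkn (hx k hk) j R J h0).1
      have h2 : rr p k j y R J = 0 := by
        by_contra h0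
        have h3 := (rr_TW hp hkn (j := j) hTW R J h0).1
        apply hwt
        rw [← h3]
        ring
      rw [h1, h2, sub_zero]

private lemma solveC [Fact p.Prime] (𝒦 : Finset ℕ) (hK : ∀ k ∈ 𝒦, n < k) (w h : ℕ)
    (hw : w < h + ∑ t : Fin (n + 1), p ^ (t : ℕ)) (C : ℕ) : ∀ x : ℕ → V ℕ n p,
    (∀ k ∈ 𝒦, TW p w (p ^ k) h (x k)) →
    (∀ k ∈ 𝒦, ∀ l ∈ 𝒦, rr p k 0 (x l) = rr p l 0 (x k)) →
    (∀ k ∈ 𝒦, ∀ j R J, xx x k j R J ≠ 0 → code p (dig p R) + p ^ (2 * (k + j)) ≤ C) →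
    ∃ y : V ℕ n p, TW p w 0 h y ∧ ∀ k ∈ 𝒦, rr p k 0 y = x k := by
  have hp : 2 ≤ p := (Fact.out : p.Prime).two_le
  induction C with
  | zero =>
    intro x hx hc hC
    refine ⟨0, fun R J h0 => absurd rfl h0, fun k hk => ?_⟩
    rw [map_zero]
    funext R J
    by_contra h0
    have h1 := hC k hk 0 R J (by
      unfold xx
      rw [pow_zero, Nat.sub_self, pow_zero]
      exact fun h2 => h0 h2.symm)
    have h2 : 0 < p ^ (2 * (k + 0)) := by positivity
    omega
  | succ C ih =>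
    intro x hx hc hC
    obtain ⟨y1, hy1, hy2⟩ := step 𝒦 hK w h (C + 1) hw x hx hc hC
    have hxx : ∀ k j, xx (fun k => x k - rr p k 0 y1) k j = xx x k j - rr p k j y1 := by
      intro k j
      unfold xx
      rw [map_sub, ← rr_pow k j]
      congr 1
      rw [← Module.End.mul_apply, ← pow_succ]
      have := Nat.one_le_pow j p (by omega)
      rw [Nat.sub_add_cancel this]
    obtain ⟨y2, hy3, hy4⟩ := ih (fun k => x k - rr p k 0 y1)
      (fun k hk R J h0 => by
        by_cases h1 : x k R J = 0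
        · have h2 : rr p k 0 y1 R J ≠ 0 := by
            intro h3
            apply h0
            show x k R J - rr p k 0 y1 R J = 0
            rw [h1, h3, sub_zero]
          have h3 := rr_TW hp (hK k hk) (j := 0) hy1 R J h2
          rw [add_zero, zero_add] at h3
          exact h3
        · exact hx k hk R J h1)
      (fun k hk l hl => by
        rw [map_sub, map_sub, hc k hk l hl, rr_comm])
      (fun k hk j R J h0 => by
        rw [hxx] at h0
        have := hy2 k hk j R J h0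
        omega)
    refine ⟨y1 + y2, fun R J h0 => ?_, fun k hk => ?_⟩
    · by_cases h1 : y1 R J = 0
      · refine hy3 R J fun h2 => h0 ?_
        show y1 R J + y2 R J = 0
        rw [h1, h2, add_zero]
      · exact hy1 R J h1
    · rw [map_add, hy4 k hk, add_sub_cancel]

theorem solveS [Fact p.Prime] (𝒦 : Finset ℕ) (hK : ∀ k ∈ 𝒦, n < k) (w h : ℕ)
    (hw : w < h + ∑ t : Fin (n + 1), p ^ (t : ℕ)) (x : ℕ → V ℕ n p)
    (hx : ∀ k ∈ 𝒦, TW p w (p ^ k) h (x k))
    (hc : ∀ k ∈ 𝒦, ∀ l ∈ 𝒦, rr p k 0 (x l) = rr p l 0 (x k)) :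
    ∃ y : V ℕ n p, TW p w 0 h y ∧ ∀ k ∈ 𝒦, rr p k 0 y = x k := by
  have hp : 2 ≤ p := (Fact.out : p.Prime).two_le
  refine solveC 𝒦 hK w h hw (w ^ 2) x hx hc fun k hk j R J h0 => ?_
  have h1 := (xx_TW (hK k hk) (hx k hk) j R J h0).1
  have h2 := code_le hp R
  have h3 : p ^ (2 * (k + j)) = (p ^ (k + j)) ^ 2 := by
    rw [← pow_mul, mul_comm]
  rw [h3]
  calc code p (dig p R) + (p ^ (k + j)) ^ 2 ≤ wtR p R ^ 2 + (p ^ (k + j)) ^ 2 := by
        omega
    _ ≤ (wtR p R + p ^ (k + j)) ^ 2 := by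
        generalize wtR p R = a
        generalize p ^ (k + j) = b
        nlinarith [Nat.zero_le (a * b)]
    _ = w ^ 2 := by rw [h1]

end BPN.D
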