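import Mathlib

/-!
# BPN, part D, module Av: iterated commutators

For commuting operators `c q` with `(c q)^p = 0` in characteristic `p`: `adm c c' ψ = cψ - ψc'`, `av = adm^{p-1}`
(`= ∑ c^b ψ c'^{p-1-b}`), `AV` = iteration over a list.  `AV L u = 1` for some `u` means that the module is
projective over `F_p[c_q]/(c_q^p)`.
-/

set_option autoImplicit false

namespace BPN.D

variable {p : ℕ} {Q : Type}

section

variable {M M' M₂ : Type} [AddCommGroup M] [Module (ZMod p) M] [AddCommGroup M']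
  [Module (ZMod p) M'] [AddCommGroup M₂] [Module (ZMod p) M₂]

/-- Twisted commutator. -/
def adm (c : Module.End (ZMod p) M) (c' : Module.End (ZMod p) M') (ψ : M' →ₗ[ZMod p] M) :
    M' →ₗ[ZMod p] M := c ∘ₗ ψ - ψ ∘ₗ c'

/-- `(p-1)`-fold twisted commutator. -/
def av (c : Module.End (ZMod p) M) (c' : Module.End (ZMod p) M') (ψ : M' →ₗ[ZMod p] M) :
    M' →ₗ[ZMod p] M := (adm c c')^[p - 1] ψ

/-- Iteration over a list. -/
def AV (c : Q → Module.End (ZMod p) M) (c' : Q → Module.End (ZMod p) M') :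
    List Q → (M' →ₗ[ZMod p] M) → (M' →ₗ[ZMod p] M)
  | [], ψ => ψ
  | q :: L, ψ => av (c q) (c' q) (AV c c' L ψ)

theorem adm_left {c : Module.End (ZMod p) M} {c' : Module.End (ZMod p) M'}
    {c₂ : Module.End (ZMod p) M₂} (r : M →ₗ[ZMod p] M₂) (hr : r ∘ₗ c = c₂ ∘ₗ r)
    (ψ : M' →ₗ[ZMod p] M) : r ∘ₗ adm c c' ψ = adm c₂ c' (r ∘ₗ ψ) := by
  unfold adm
  rw [LinearMap.comp_sub, ← LinearMap.comp_assoc, hr]
  rfl

theorem adm_right {c : Module.End (ZMod p) M} {c' : Module.End (ZMod p) M'}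
    {c₂ : Module.End (ZMod p) M₂} (s : M₂ →ₗ[ZMod p] M') (hs : c' ∘ₗ s = s ∘ₗ c₂)
    (ψ : M' →ₗ[ZMod p] M) : adm c c' ψ ∘ₗ s = adm c c₂ (ψ ∘ₗ s) := by
  unfold adm
  rw [LinearMap.sub_comp, LinearMap.comp_assoc, LinearMap.comp_assoc, hs]
  rfl

theorem av_left {c : Module.End (ZMod p) M} {c' : Module.End (ZMod p) M'}
    {c₂ : Module.End (ZMod p) M₂} (r : M →ₗ[ZMod p] M₂) (hr : r ∘ₗ c = c₂ ∘ₗ r)
    (ψ : M' →ₗ[ZMod p] M) : r ∘ₗ av c c' ψ = av c₂ c' (r ∘ₗ ψ) := by
  unfold av
  generalize p - 1 = m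
  induction m generalizing ψ with
  | zero => rfl
  | succ m ih => rw [Function.iterate_succ_apply, Function.iterate_succ_apply, ih, adm_left r hr]

theorem av_right {c : Module.End (ZMod p) M} {c' : Module.End (ZMod p) M'}
    {c₂ : Module.End (ZMod p) M₂} (s : M₂ →ₗ[ZMod p] M') (hs : c' ∘ₗ s = s ∘ₗ c₂)
    (ψ : M' →ₗ[ZMod p] M) : av c c' ψ ∘ₗ s = av c c₂ (ψ ∘ₗ s) := by
  unfold av
  generalize p - 1 = m
  induction m generalizing ψ with
  | zero => rfl
  | succ m ih => rw [Function.iterate_succ_apply, Function.iterate_succ_apply, ih, adm_right s hs]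

theorem AV_left {c : Q → Module.End (ZMod p) M} {c' : Q → Module.End (ZMod p) M'}
    {c₂ : Q → Module.End (ZMod p) M₂} (L : List Q) (r : M →ₗ[ZMod p] M₂)
    (hr : ∀ q ∈ L, r ∘ₗ c q = c₂ q ∘ₗ r) (ψ : M' →ₗ[ZMod p] M) :
    r ∘ₗ AV c c' L ψ = AV c₂ c' L (r ∘ₗ ψ) := by
  induction L with
  | nil => rfl
  | cons q L ih =>
    unfold AV
    rw [av_left r (hr q (by simp)), ih fun q' hq' => hr q' (List.mem_cons_of_mem _ hq')]

theorem AV_right {c : Q → Module.End (ZMod p) M} {c' : Q → Module.End (ZMod p) M'}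
    {c₂ : Q → Module.End (ZMod p) M₂} (L : List Q) (s : M₂ →ₗ[ZMod p] M')
    (hs : ∀ q ∈ L, c' q ∘ₗ s = s ∘ₗ c₂ q) (ψ : M' →ₗ[ZMod p] M) :
    AV c c' L ψ ∘ₗ s = AV c c₂ L (ψ ∘ₗ s) := by
  induction L with
  | nil => rfl
  | cons q L ih =>
    unfold AV
    rw [av_right s (hs q (by simp)), ih fun q' hq' => hs q' (List.mem_cons_of_mem _ hq')]

/-- The binomial formula in characteristic `p`. -/
theorem adm_iterate_p [Fact p.Prime] (c : Module.End (ZMod p) M) (c' : Module.End (ZMod p) M')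
    (ψ : M' →ₗ[ZMod p] M) : (adm c c')^[p] ψ = (c ^ p) ∘ₗ ψ - ψ ∘ₗ (c' ^ p) := by
  let Lc : Module.End (ZMod p) (M' →ₗ[ZMod p] M) :=
    { toFun := fun ψ => c ∘ₗ ψ
      map_add' := fun a b => LinearMap.comp_add _ _ _
      map_smul' := fun a b => LinearMap.comp_smul _ _ _ }
  let Rc : Module.End (ZMod p) (M' →ₗ[ZMod p] M) :=
    { toFun := fun ψ => (-1 : ZMod p) • (ψ ∘ₗ c')
      map_add' := fun a b => by rw [LinearMap.add_comp, smul_add]
      map_smul' := fun a b => by rw [LinearMap.smul_comp, smul_comm]; rfl }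
  have hcomm : Commute Lc Rc := by
    ext ψ x
    show c ((-1 : ZMod p) • (ψ (c' x))) = (-1 : ZMod p) • (c (ψ (c' x)))
    rw [map_smul]
  have hL : ∀ (m : ℕ) ψ, (Lc ^ m) ψ = (c ^ m) ∘ₗ ψ := by
    intro m
    induction m with
    | zero => intro ψ; ext; simp
    | succ m ih =>
      intro ψ
      rw [pow_succ', Module.End.mul_apply, ih, pow_succ']
      rfl
  have hR : ∀ (m : ℕ) ψ, (Rc ^ m) ψ = (-1 : ZMod p) ^ m • (ψ ∘ₗ (c' ^ m)) := by
    intro m
    induction m with
    | zero => intro ψ; ext; simp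
    | succ m ih =>
      intro ψ
      rw [pow_succ', Module.End.mul_apply, ih]
      ext x
      show (-1 : ZMod p) • ((-1 : ZMod p) ^ m • (ψ ((c' ^ m) (c' x)))) =
        (-1 : ZMod p) ^ (m + 1) • ψ ((c' ^ (m + 1)) x)
      rw [smul_smul, ← pow_succ', pow_succ c' m]
      rfl
  have h1 : (adm c c') = fun ψ => (Lc + Rc) ψ := by
    funext ψ
    ext x
    show c (ψ x) - ψ (c' x) = c (ψ x) + (-1 : ZMod p) • (ψ (c' x))
    rw [neg_smul, one_smul, sub_eq_add_neg]
  have h2 : (adm c c')^[p] ψ = ((Lc + Rc) ^ p) ψ := by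
    rw [h1, Module.End.pow_apply]
  obtain ⟨r, hr⟩ := hcomm.exists_add_pow_prime_eq (Fact.out : p.Prime)
  rw [h2, hr]
  have hp0 : (p : Module.End (ZMod p) (M' →ₗ[ZMod p] M)) = 0 := by
    ext ψ x
    rw [← nsmul_one]
    have h3 : (p • (1 : Module.End (ZMod p) (M' →ₗ[ZMod p] M))) ψ = (p : ZMod p) • ψ := by
      rw [LinearMap.smul_apply, Module.End.one_apply, Nat.cast_smul_eq_nsmul]
    rw [h3, ZMod.natCast_self, zero_smul]
    rfl
  rw [hp0, zero_mul, zero_mul, zero_mul, add_zero, LinearMap.add_apply, hL, hR, ZMod.pow_card,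
    neg_smul, one_smul, sub_eq_add_neg]

theorem av_comm [Fact p.Prime] {c : Module.End (ZMod p) M} {c' : Module.End (ZMod p) M'}
    (h : c ^ p = 0) (h' : c' ^ p = 0) (ψ : M' →ₗ[ZMod p] M) :
    c ∘ₗ av c c' ψ = av c c' ψ ∘ₗ c' := by
  have h1 := adm_iterate_p c c' ψ
  rw [h, h', LinearMap.zero_comp, LinearMap.comp_zero, sub_zero] at h1
  have h2 : adm c c' (av c c' ψ) = 0 := by
    unfold av
    rw [← Function.iterate_succ_apply' (adm c c')]
    have h3 : (p - 1).succ = p := Nat.succ_pred_eq_of_pos (Fact.out : p.Prime).pos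
    rw [h3]
    exact h1
  exact sub_eq_zero.1 h2

theorem AV_comm [Fact p.Prime] {c : Q → Module.End (ZMod p) M} {c' : Q → Module.End (ZMod p) M'}
    (L : List Q) (hc : ∀ q ∈ L, ∀ q' ∈ L, c q ∘ₗ c q' = c q' ∘ₗ c q)
    (hc' : ∀ q ∈ L, ∀ q' ∈ L, c' q ∘ₗ c' q' = c' q' ∘ₗ c' q)
    (hp : ∀ q ∈ L, c q ^ p = 0) (hp' : ∀ q ∈ L, c' q ^ p = 0) (ψ : M' →ₗ[ZMod p] M) :
    ∀ q ∈ L, c q ∘ₗ AV c c' L ψ = AV c c' L ψ ∘ₗ c' q := by
  induction L with
  | nil => intro q hq; simp at hq
  | cons q₀ L ih =>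
    intro q hq
    rcases List.mem_cons.1 hq with rfl | hq
    · exact av_comm (hp _ (by simp)) (hp' _ (by simp)) _
    · unfold AV
      have h1 := ih (fun a ha b hb => hc a (by simp [ha]) b (by simp [hb]))
        (fun a ha b hb => hc' a (by simp [ha]) b (by simp [hb]))
        (fun a ha => hp a (by simp [ha])) (fun a ha => hp' a (by simp [ha])) q hq
      rw [av_left (c q) (hc q (by simp [hq]) q₀ (by simp)), h1,
        av_right (c' q) (hc' q₀ (by simp) q (by simp [hq]))]

/-- On the kernel of `c'`. -/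
theorem adm_iterate_ker (c : Module.End (ZMod p) M) (c' : Module.End (ZMod p) M')
    (ψ : M' →ₗ[ZMod p] M) (m : ℕ) {x : M'} (hx : c' x = 0) :
    ((adm c c')^[m] ψ) x = (c ^ m) (ψ x) := by
  induction m with
  | zero => simp
  | succ m ih =>
    rw [Function.iterate_succ_apply']
    show c (((adm c c')^[m] ψ) x) - ((adm c c')^[m] ψ) (c' x) = (c ^ (m + 1)) (ψ x)
    rw [hx, map_zero, sub_zero, ih, pow_succ']
    rfl

/-- Modulo the image of `c`. -/
theorem adm_iterate_range (c : Module.End (ZMod p) M) (c' : Module.End (ZMod p) M')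
    (ψ : M' →ₗ[ZMod p] M) (m : ℕ) : ∃ Z : M' →ₗ[ZMod p] M, ∀ x,
      ((adm c c')^[m] ψ) x = (-1 : ZMod p) ^ m • ψ ((c' ^ m) x) + c (Z x) := by
  induction m with
  | zero => exact ⟨0, fun x => by simp⟩
  | succ m ih =>
    obtain ⟨Z, hZ⟩ := ih
    refine ⟨((adm c c')^[m] ψ) - Z ∘ₗ c', fun x => ?_⟩
    rw [Function.iterate_succ_apply']
    show c (((adm c c')^[m] ψ) x) - ((adm c c')^[m] ψ) (c' x) =
      (-1 : ZMod p) ^ (m + 1) • ψ ((c' ^ (m + 1)) x) + c (((adm c c')^[m] ψ) x - Z (c' x))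
    rw [hZ (c' x), map_sub, pow_succ c' m]
    show _ - ((-1 : ZMod p) ^ m • ψ ((c' ^ m) (c' x)) + c (Z (c' x))) =
      (-1 : ZMod p) ^ (m + 1) • ψ ((c' ^ m) (c' x)) + _
    rw [pow_succ, mul_neg_one, neg_smul]
    abel

end

/-- Compatible families are solvable on projective modules. -/
theorem solveAV [Fact p.Prime] (L : List Q) : ∀ (M : Type) [AddCommGroup M] [Module (ZMod p) M]
    (c : Q → Module.End (ZMod p) M) (_ : ∀ q q', c q ∘ₗ c q' = c q' ∘ₗ c q)
    (_ : ∀ q, c q ^ p = 0) (u : M →ₗ[ZMod p] M) (_ : AV c c L u = LinearMap.id) (x : Q → M)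
    (_ : ∀ q ∈ L, ∀ q' ∈ L, c q (x q') = c q' (x q)) (_ : ∀ q ∈ L, (c q ^ (p - 1)) (x q) = 0),
    ∃ y, ∀ q ∈ L, c q y = x q := by
  induction L with
  | nil => intro M _ _ c _ _ u _ x _ _; exact ⟨0, fun q hq => by simp at hq⟩
  | cons q₀ L ih =>
    intro M _ _ c hc hp u hu x hx ht
    have hp1 : (p - 1) + 1 = p := Nat.succ_pred_eq_of_pos (Fact.out : p.Prime).pos
    have hcc : ∀ q q' (z : M), c q (c q' z) = c q' (c q z) := fun q q' z =>
      LinearMap.congr_fun (hc q q') z
    have hΨ : ∀ z, (av (c q₀) (c q₀) (AV c c L u)) z = z := fun z =>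
      LinearMap.congr_fun hu z
    -- first variable
    obtain ⟨Z, hZ⟩ := adm_iterate_range (c q₀) (c q₀) (AV c c L u) (p - 1)
    have hy1 : c q₀ (Z (x q₀)) = x q₀ := by
      have h1 := hΨ (x q₀)
      unfold av at h1
      rw [hZ, ht q₀ (by simp), map_zero, smul_zero, zero_add] at h1
      exact h1
    -- the kernel of the first variable
    let K : Submodule (ZMod p) M := LinearMap.ker (c q₀)
    have hK : ∀ q, ∀ z ∈ K, c q z ∈ K := by
      intro q z hz
      have hz' : c q₀ z = 0 := hz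
      show c q₀ (c q z) = 0
      rw [hcc, hz', map_zero]
    let cK : Q → Module.End (ZMod p) K := fun q => (c q).restrict (hK q)
    have hcK : ∀ q (z : K), ((cK q z : K) : M) = c q z := fun q z => rfl
    have hpow : ∀ m q (z : K), (((cK q ^ m) z : K) : M) = (c q ^ m) z := by
      intro m q
      induction m with
      | zero => intro z; rfl
      | succ m ihm =>
        intro z
        rw [pow_succ', pow_succ', Module.End.mul_apply, Module.End.mul_apply, hcK, ihm]
    have hu'mem : ∀ z : K, (c q₀ ^ (p - 1)) (u z) ∈ K := by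
      intro z
      show c q₀ ((c q₀ ^ (p - 1)) (u z)) = 0
      rw [← Module.End.mul_apply, ← pow_succ', hp1, hp]
      rfl
    let u' : K →ₗ[ZMod p] K :=
      ((c q₀ ^ (p - 1)) ∘ₗ u ∘ₗ K.subtype).codRestrict K hu'mem
    have hAV : AV cK cK L u' = LinearMap.id := by
      have e1 : K.subtype ∘ₗ AV cK cK L u' = AV c cK L (K.subtype ∘ₗ u') :=
        AV_left L K.subtype (fun q _ => rfl) u'
      have e2 : K.subtype ∘ₗ u' = ((c q₀ ^ (p - 1)) ∘ₗ u) ∘ₗ K.subtype := rfl
      have e3 : AV c c L ((c q₀ ^ (p - 1)) ∘ₗ u) ∘ₗ K.subtype =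
          AV c cK L (((c q₀ ^ (p - 1)) ∘ₗ u) ∘ₗ K.subtype) :=
        AV_right L K.subtype (fun q _ => rfl) _
      have e4 : (c q₀ ^ (p - 1)) ∘ₗ AV c c L u = AV c c L ((c q₀ ^ (p - 1)) ∘ₗ u) := by
        refine AV_left L (c q₀ ^ (p - 1)) (fun q _ => ?_) u
        have : Commute (c q₀ ^ (p - 1)) (c q) := Commute.pow_left (hc q₀ q) _
        exact this
      ext z
      have e5 : ((AV cK cK L u' z : K) : M) = (K.subtype ∘ₗ AV cK cK L u') z := rfl
      rw [e5, e1, e2, ← e3, ← e4]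
      show (c q₀ ^ (p - 1)) (AV c c L u z) = z
      have hz0 : c q₀ (z : M) = 0 := z.2
      rw [← adm_iterate_ker (c q₀) (c q₀) (AV c c L u) (p - 1) hz0]
      exact hΨ z
    -- the remaining variables
    have hxK : ∀ q, q ∈ L → x q - c q (Z (x q₀)) ∈ K := by
      intro q hq
      show c q₀ (x q - c q (Z (x q₀))) = 0
      rw [map_sub, hcc q₀ q, hy1, hx q₀ (by simp) q (by simp [hq]), sub_self]
    classical
    let x' : Q → K := fun q => if h : q ∈ L then ⟨x q - c q (Z (x q₀)), hxK q h⟩ else 0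
    have hx' : ∀ q ∈ L, ((x' q : K) : M) = x q - c q (Z (x q₀)) := by
      intro q hq
      show ((if h : q ∈ L then (⟨x q - c q (Z (x q₀)), hxK q h⟩ : K) else 0 : K) : M) = _
      rw [dif_pos hq]
    obtain ⟨y, hy⟩ := ih K cK (fun q q' => by ext z; exact hcc q q' z)
      (fun q => by
        ext z
        rw [hpow p q z, hp]
        rfl) u' hAV x'
      (fun q hq q' hq' => by
        apply Subtype.ext
        rw [hcK, hcK, hx' q hq, hx' q' hq', map_sub, map_sub,
          hx q (by simp [hq]) q' (by simp [hq']), hcc])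
      (fun q hq => by
        apply Subtype.ext
        rw [hpow, hx' q hq, map_sub, ht q (by simp [hq]), ← Module.End.mul_apply, ← pow_succ,
          hp1, hp]
        simp)
    refine ⟨Z (x q₀) + (y : M), fun q hq => ?_⟩
    rcases List.mem_cons.1 hq with rfl | hq
    · have hy0 : c q (y : M) = 0 := y.2
      rw [map_add, hy1, hy0, add_zero]
    · have h1 : ((cK q y : K) : M) = ((x' q : K) : M) :=
        congrArg (fun z : K => (z : M)) (hy q hq)
      rw [hcK, hx' q hq] at h1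
      rw [map_add, h1]
      abel

section

variable {M : Type} [AddCommGroup M] [Module (ZMod p) M]

theorem adm_pow (c E lam K : Module.End (ZMod p) M) (h : c * E - E * c = lam)
    (hE : Commute lam E) (hK : Commute c K) (m : ℕ) :
    adm c c (E ^ (m + 1) * K) = ((m + 1 : ℕ) : ZMod p) • (E ^ m * (lam * K)) := by
  have h0 : c * E = E * c + lam := by rw [← h]; abel
  have h1 : ∀ m : ℕ, c * E ^ m = E ^ m * c + (m : ZMod p) • (E ^ (m - 1) * lam) := by
    intro m
    induction m with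
    | zero => simp
    | succ m ih =>
      have h2 : lam * E ^ m = E ^ m * lam := (hE.pow_right m).eq
      have h3 : (m : ZMod p) • (E ^ (m - 1) * lam * E) = (m : ZMod p) • (E ^ m * lam) := by
        rcases m with _ | m
        · simp
        · rw [mul_assoc, hE.eq, ← mul_assoc, Nat.add_sub_cancel, pow_succ]
      calc c * E ^ (m + 1) = (c * E ^ m) * E := by rw [pow_succ, mul_assoc]
        _ = E ^ m * (c * E) + (m : ZMod p) • (E ^ (m - 1) * lam * E) := by
            rw [ih, add_mul, mul_assoc, smul_mul_assoc]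
        _ = E ^ m * (E * c + lam) + (m : ZMod p) • (E ^ m * lam) := by rw [h0, h3]
        _ = E ^ (m + 1) * c + ((m + 1 : ℕ) : ZMod p) • (E ^ (m + 1 - 1) * lam) := by
            rw [mul_add, ← mul_assoc, ← pow_succ, Nat.add_sub_cancel, Nat.cast_succ, add_smul,
              one_smul]
            abel
  show c * (E ^ (m + 1) * K) - (E ^ (m + 1) * K) * c = _
  rw [← mul_assoc, h1 (m + 1), add_mul, mul_assoc, hK.eq, mul_assoc, Nat.add_sub_cancel,
    smul_mul_assoc, mul_assoc]
  abel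

theorem adm_iterate_pow (c E lam : Module.End (ZMod p) M) (h : c * E - E * c = lam)
    (hE : Commute lam E) (hc : Commute c lam) (m : ℕ) : ∀ K : Module.End (ZMod p) M,
    Commute c K → (adm c c)^[m] (E ^ m * K) = (m.factorial : ZMod p) • (lam ^ m * K) := by
  induction m with
  | zero => intro K _; simp
  | succ m ih =>
    intro K hK
    have hlin : ∀ (a : ZMod p) (ψ : Module.End (ZMod p) M), (adm c c)^[m] (a • ψ) =
        a • (adm c c)^[m] ψ := by
      intro a
      clear ih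
      induction m with
      | zero => intro ψ; rfl
      | succ m ihm =>
        intro ψ
        rw [Function.iterate_succ_apply, Function.iterate_succ_apply]
        have : adm c c (a • ψ) = a • adm c c ψ := by
          unfold adm
          rw [LinearMap.comp_smul, LinearMap.smul_comp, smul_sub]
        rw [this, ihm]
    rw [Function.iterate_succ_apply, adm_pow c E lam K h hE hK m, hlin,
      ih (lam * K) (hc.mul_right hK), smul_smul, Nat.factorial_succ, ← mul_assoc, ← pow_succ]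
    push_cast
    rfl

theorem AV_ring (c E lam : Q → Module.End (ZMod p) M) (L : List Q)
    (h : ∀ q ∈ L, c q * E q - E q * c q = lam q)
    (hE : ∀ q ∈ L, Commute (lam q) (E q)) (hc : ∀ q ∈ L, ∀ q' ∈ L, Commute (c q) (lam q'))
    (hL : L.Pairwise fun q q' => Commute (E q) (c q')) :
    AV c c L (L.map fun q => E q ^ (p - 1)).prod =
      ((p - 1).factorial : ZMod p) ^ L.length • (L.map fun q => lam q ^ (p - 1)).prod := by
  induction L with
  | nil =>
    simp only [List.map_nil, List.prod_nil, List.length_nil, pow_zero, one_smul]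
    rfl
  | cons q₀ L ih =>
    rw [List.pairwise_cons] at hL
    have ih' := ih (fun q hq => h q (by simp [hq])) (fun q hq => hE q (by simp [hq]))
      (fun q hq q' hq' => hc q (by simp [hq]) q' (by simp [hq'])) hL.2
    rw [List.map_cons, List.prod_cons, List.map_cons, List.prod_cons, List.length_cons]
    unfold AV
    have e1 : AV c c L (E q₀ ^ (p - 1) * (L.map fun q => E q ^ (p - 1)).prod) =
        E q₀ ^ (p - 1) * AV c c L (L.map fun q => E q ^ (p - 1)).prod := by
      refine (AV_left L (E q₀ ^ (p - 1)) (fun q hq => ?_) _).symm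
      exact ((hL.1 q hq).pow_left (p - 1)).eq
    rw [e1, ih']
    unfold av
    have hK : Commute (c q₀) (((p - 1).factorial : ZMod p) ^ L.length •
        (L.map fun q => lam q ^ (p - 1)).prod) := by
      refine Commute.smul_right ?_ _
      refine Commute.list_prod_right _ _ fun z hz => ?_
      obtain ⟨q, hq, rfl⟩ := List.mem_map.1 hz
      exact (hc q₀ (by simp) q (by simp [hq])).pow_right _
    rw [adm_iterate_pow (c q₀) (E q₀) (lam q₀) (h q₀ (by simp)) (hE q₀ (by simp))
      (hc q₀ (by simp) q₀ (by simp)) (p - 1) _ hK, pow_succ, mul_smul_comm, smul_smul]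
    congr 1
    ring

end

end BPN.D
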