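import Mathlib

/-!
# BPN, part D (vanishing and prescribed values): definitions

`V X n p` : functions of an exponent vector `a : X →₀ ℕ` and a monomial `v^J` (`J : Fin (n+1) →₀ ℕ`) with values in
`F_p`.  `X = ℕ`: `a = R`, exponents of `ξ_{j+1}` (`j : ℕ`), the function is the coefficient of `v^J` of `x(ξ^R)`.
`X = ℕ × ℕ`: `a (j, m)` = `m`-th base `p` digit of `R j`.
`Dop b f a = f (a + b)` (contraction), `Mop t e` = multiplication by `v_t^e`, `Eop x` = multiplication by the variable.
`op i e b = ∑_{t ≥ i} v_t^e D_{b t}`.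
`rr k j = op 0 (p^j) ..` is `r_k^{p^j}`, `r_k = ∑_{t ≤ n} v_t ξ_{k-t}^{p^t}` (contraction), `k > n`.
-/

set_option autoImplicit false

namespace BPN.D

open Finset

/-- Functions of `(a, J)`. -/
abbrev V (X : Type) (n p : ℕ) : Type := (X →₀ ℕ) → (Fin (n + 1) →₀ ℕ) → ZMod p

section ops

variable {X : Type} {n p : ℕ}

/-- Contraction. -/
noncomputable def Dop (b : X →₀ ℕ) : Module.End (ZMod p) (V X n p) where
  toFun f := fun a J => f (a + b) J
  map_add' _ _ := rfl
  map_smul' _ _ := rfl

/-- Multiplication by `v_t^e`. -/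
noncomputable def Mop (t : Fin (n + 1)) (e : ℕ) : Module.End (ZMod p) (V X n p) where
  toFun f := fun a J => if e ≤ J t then f a (J - Finsupp.single t e) else 0
  map_add' f g := by
    funext a J
    by_cases h : e ≤ J t <;> simp [h]
  map_smul' c f := by
    funext a J
    by_cases h : e ≤ J t <;> simp [h]

/-- Multiplication by the variable `x` (adjoint of the contraction up to coefficients). -/
noncomputable def Eop (x : X) : Module.End (ZMod p) (V X n p) where
  toFun f := fun a J => (a x : ZMod p) * f (a - Finsupp.single x 1) J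
  map_add' f g := by
    funext a J
    simp [mul_add]
  map_smul' c f := by
    funext a J
    simp [mul_left_comm]

/-- `∑_{t ≥ i} v_t^e D_{b t}` -/
noncomputable def op (i e : ℕ) (b : Fin (n + 1) → X →₀ ℕ) : Module.End (ZMod p) (V X n p) :=
  ∑ t ∈ univ.filter (fun t : Fin (n + 1) => i ≤ t.val), Mop t e * Dop (b t)

/-- Linear weights on exponent vectors. -/
def wa (wt : X → ℕ) (a : X →₀ ℕ) : ℕ := a.sum fun x r => r * wt x

/-- `∑ J_t p^t` -/
def dJ (p : ℕ) (J : Fin (n + 1) →₀ ℕ) : ℕ := J.sum fun t r => r * p ^ (t : ℕ)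

/-- The functions of weight `h` on vectors of digits `< p` supported in `A`, with values in polynomials in
`v_i, .., v_n`. -/
def N (n p : ℕ) (A : Finset X) (wt : X → ℕ) (i h : ℕ) : Submodule (ZMod p) (V X n p) where
  carrier := {f | ∀ a J, f a J ≠ 0 → (∀ x, a x < p) ∧ a.support ⊆ A ∧
    (∀ t : Fin (n + 1), t.val < i → J t = 0) ∧ wa wt a + dJ p J = h}
  add_mem' := by
    intro f g hf hg a J h
    by_cases h1 : f a J = 0
    · refine hg a J ?_
      intro h2
      apply h
      show f a J + g a J = 0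
      rw [h1, h2, add_zero]
    · exact hf a J h1
  zero_mem' := by
    intro a J h
    exact absurd rfl h
  smul_mem' := by
    intro c f hf a J h
    refine hf a J ?_
    intro h1
    apply h
    show c * f a J = 0
    rw [h1, mul_zero]

end ops

section digits

variable {n : ℕ} (p : ℕ)

/-- The digits of the entries of `R`. -/
noncomputable def dig (R : ℕ →₀ ℕ) : ℕ × ℕ →₀ ℕ :=
  Finsupp.onFinset (R.support.biUnion fun j => (range (R j)).image fun m => (j, m))
    (fun x => if x.2 < R x.1 then (R x.1 / p ^ x.2) % p else 0) (by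
      intro x hx
      simp only [ne_eq, ite_eq_right_iff, Classical.not_imp] at hx
      simp only [mem_biUnion, Finsupp.mem_support_iff, mem_image, mem_range]
      refine ⟨x.1, by omega, x.2, hx.1, rfl⟩)

/-- The vector with given digits. -/
noncomputable def toR (a : ℕ × ℕ →₀ ℕ) : ℕ →₀ ℕ := a.sum fun x r => Finsupp.single x.1 (r * p ^ x.2)

/-- The code of a digit vector. -/
def code (a : ℕ × ℕ →₀ ℕ) : ℕ := wa (fun x => p ^ (2 * (x.1 + x.2 + 1))) a

/-- The levels of a digit vector (`level + 1` is the level in the notes). -/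
def levels (a : ℕ × ℕ →₀ ℕ) : Finset ℕ := a.support.image fun x => x.1 + x.2

/-- All digits with level in `S`. -/
def AS (S : Finset ℕ) : Finset (ℕ × ℕ) := S.biUnion fun l => antidiagonal l

/-- `∑ R_j p^{j+1}` -/
def wtR (R : ℕ →₀ ℕ) : ℕ := wa (fun j => p ^ (j + 1)) R

/-- `∑ R_j` -/
def sz (R : ℕ →₀ ℕ) : ℕ := wa (fun _ => 1) R

/-- `r_k^{p^j}`, `k > n` -/
noncomputable def rr (k j : ℕ) : Module.End (ZMod p) (V ℕ n p) :=
  op 0 (p ^ j) fun t => Finsupp.single (k - 1 - t) (p ^ ((t : ℕ) + j))

/-- Functions of weight `w - e` and total degree `h`. -/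
def TW (w e h : ℕ) (z : V ℕ n p) : Prop :=
  ∀ R J, z R J ≠ 0 → wtR p R + e = w ∧ sz R + dJ p J = h

/-- The part of code `c - e` of `z`, on digit vectors. -/
noncomputable def tr (A : Finset (ℕ × ℕ)) (e c : ℕ) (z : V ℕ n p) : V (ℕ × ℕ) n p := by
  classical
  exact fun a J => if (∀ x, a x < p) ∧ a.support ⊆ A ∧ code p a + e = c then z (toR p a) J else 0

end digits

end BPN.D
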