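import Pool.Agent.BPN.D.Ops
import Pool.Agent.BPN.D.Av

/-!
# BPN, part D, module Fp: the digit modules are projective in high degrees

`cc i q = ∑_{t ≥ i} v_t^{e q} D_{dg q t}`.  THEOREM (`proj`): for `∑_{x ∈ A} (p-1) wt x < h + ∑_{t ≥ i} p^t` there is a linear
`u : N i h → N i h` with `AV cN cN L u = 1`.  Induction on `n + 1 - i`.
`i = n + 1`: `N = 0`.
STEP `i + 1 → i` (`t = i`): for such `h` there is `ρ : N i (h + p^i) → N i h` linear with `ρ c = c ρ`, `ρ v_i = 1`:
let `π` = restriction to `J_i = 0`, `N i h' → N (i+1) h'`, `π c^{(i)} = c^{(i+1)} π`, `s` = inclusion `N (i+1) h' → N i h'`,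
`u''` from `i + 1` (`h' = h + p^i`), `S = AV c^{(i)} c^{(i+1)} L (s u'')`.  `S c = c S` (`AV_comm`), `π S = AV c'' c'' L (π s u'') = 1` (`AV_left`).
`E = 1 - S π` satisfies `E c = c E`, `π E = 0`, `E v_i = v_i`.  `ρ = (shift J ↦ J + single i 1) ∘ E`, `v_i ρ = E`.
Iterating: `ρ_m : N i (h + m p^i) → N i h` with `ρ_m c = c ρ_m`, `ρ_m v_i^m = 1`.
By `AV_ring` with `E q = Eop (dg q i)`, `lam q = Mop i (e q)`: `AV c c L (∏ E_q^{p-1}) = unit • v_i^M`, `M = (p-1) ∑_{q ∈ L} e q`.
So `u = unit⁻¹ • ρ_M ∘ ∏ E_q^{p-1}` works (`AV_left`, `AV_right` with the inclusions `N → V`).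
`solveDig`: `solveAV` for `N 0 h` and `cN q` (`q ∈ L`, `0` otherwise), `cN^p = 0` by `op_pow_p` (entries of `a` are `< p`).
-/

set_option autoImplicit false

namespace BPN.D

open Finset

variable {X Q : Type} {n p : ℕ}

/-- `∑_{t ≥ i} v_t^{e q} D_{dg q t}` -/
noncomputable def cc (e : Q → ℕ) (dg : Q → Fin (n + 1) → X) (i : ℕ) (q : Q) :
    Module.End (ZMod p) (V X n p) := op i (e q) fun t => Finsupp.single (dg q t) 1

section proof

variable (A : Finset X) (wt : X → ℕ) (e : Q → ℕ) (dg : Q → Fin (n + 1) → X) (L : List Q)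

/-- restriction of `cc` to `N` -/
noncomputable def cN (hwt : ∀ q ∈ L, ∀ t, wt (dg q t) = p ^ (t : ℕ) * e q) (i h : ℕ) (q : Q) :
    Module.End (ZMod p) (N n p A wt i h) := by
  classical
  exact if hq : q ∈ L then (cc e dg i q).restrict (fun f hf => op_N A wt i h (e q) _
    (fun t => by rw [wa_single, one_mul, hwt q hq t]) f hf) else 0

variable {A wt e dg L}

theorem cN_apply (hwt : ∀ q ∈ L, ∀ t, wt (dg q t) = p ^ (t : ℕ) * e q) {i h : ℕ} {q : Q}
    (hq : q ∈ L) (f : N n p A wt i h) :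
    ((cN A wt e dg L hwt i h q f : N n p A wt i h) : V X n p) = cc e dg i q f := by
  unfold cN
  rw [dif_pos hq]
  rfl

theorem cN_pow_apply (hwt : ∀ q ∈ L, ∀ t, wt (dg q t) = p ^ (t : ℕ) * e q) {i h : ℕ} {q : Q}
    (hq : q ∈ L) (m : ℕ) (f : N n p A wt i h) :
    (((cN A wt e dg L hwt i h q ^ m) f : N n p A wt i h) : V X n p) = (cc e dg i q ^ m) f := by
  induction m generalizing f with
  | zero => rfl
  | succ m ih =>
    rw [pow_succ', pow_succ', Module.End.mul_apply, Module.End.mul_apply, cN_apply hwt hq, ih]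

theorem cN_comm (hwt : ∀ q ∈ L, ∀ t, wt (dg q t) = p ^ (t : ℕ) * e q) (i h : ℕ) (q q' : Q) :
    cN A wt e dg L hwt i h q ∘ₗ cN A wt e dg L hwt i h q' =
      cN A wt e dg L hwt i h q' ∘ₗ cN A wt e dg L hwt i h q := by
  by_cases hq : q ∈ L
  · by_cases hq' : q' ∈ L
    · ext f : 2
      rw [LinearMap.comp_apply, LinearMap.comp_apply, cN_apply hwt hq, cN_apply hwt hq',
        cN_apply hwt hq', cN_apply hwt hq]
      exact LinearMap.congr_fun (op_comm i (e q) i (e q') _ _).eq (f : V X n p)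
    · have : cN A wt e dg L hwt i h q' = 0 := by unfold cN; rw [dif_neg hq']
      rw [this, LinearMap.comp_zero, LinearMap.zero_comp]
  · have : cN A wt e dg L hwt i h q = 0 := by unfold cN; rw [dif_neg hq]
    rw [this, LinearMap.comp_zero, LinearMap.zero_comp]

theorem cN_pow [Fact p.Prime] (hwt : ∀ q ∈ L, ∀ t, wt (dg q t) = p ^ (t : ℕ) * e q) (i h : ℕ)
    (q : Q) : cN A wt e dg L hwt i h q ^ p = 0 := by
  by_cases hq : q ∈ L
  · ext f : 2
    rw [cN_pow_apply hwt hq]
    unfold cc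
    rw [op_pow_p]
    funext a J
    by_contra hne
    obtain ⟨t, _, _, h2⟩ := op_ne_zero hne
    have h3 := (f.2 _ _ h2).1 (dg q t)
    simp only [Finsupp.smul_single, smul_eq_mul, mul_one, Finsupp.coe_add, Pi.add_apply,
      Finsupp.single_eq_same] at h3
    omega
  · have : cN A wt e dg L hwt i h q = 0 := by unfold cN; rw [dif_neg hq]
    rw [this, zero_pow (Fact.out : p.Prime).ne_zero]

theorem wa_le (hp : 1 ≤ p) {a : X →₀ ℕ} (h1 : ∀ x, a x < p) (h2 : a.support ⊆ A) :
    wa wt a ≤ ∑ x ∈ A, (p - 1) * wt x := by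
  unfold wa
  rw [Finsupp.sum]
  refine (Finset.sum_le_sum fun x _ => ?_).trans (Finset.sum_le_sum_of_subset h2)
  exact Nat.mul_le_mul_right _ (by have := h1 x; omega)

/-- `∑_{t ≥ i} p^t` -/
def kap (n p i : ℕ) : ℕ := ∑ t ∈ univ.filter (fun t : Fin (n + 1) => i ≤ t.val), p ^ (t : ℕ)

theorem kap_succ {i : ℕ} (hi : i ≤ n) : kap n p i = p ^ i + kap n p (i + 1) := by
  unfold kap
  have h1 : univ.filter (fun t : Fin (n + 1) => i ≤ t.val) =
      insert (⟨i, by omega⟩ : Fin (n + 1)) (univ.filter (fun t : Fin (n + 1) => i + 1 ≤ t.val)) := by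
    ext t
    simp only [mem_filter, mem_univ, true_and, mem_insert, Fin.ext_iff]
    omega
  rw [h1, sum_insert]
  simp

theorem Mop_mem {i m h h' : ℕ} (hi : i < n + 1) (hh : h' = h + m * p ^ i) {f : V X n p}
    (hf : f ∈ N n p A wt i h) : Mop (⟨i, hi⟩ : Fin (n + 1)) m f ∈ N n p A wt i h' := by
  intro a J hne
  have h1 : (if m ≤ J ⟨i, hi⟩ then f a (J - Finsupp.single ⟨i, hi⟩ m) else 0) ≠ 0 := hne
  by_cases hm : m ≤ J ⟨i, hi⟩
  · rw [if_pos hm] at h1
    obtain ⟨h2, h3, h4, h5⟩ := hf _ _ h1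
    refine ⟨h2, h3, fun t ht => ?_, ?_⟩
    · have := h4 t ht
      rw [Finsupp.coe_tsub, Pi.sub_apply, Finsupp.single_eq_of_ne (by
        intro hc
        rw [hc] at ht
        exact lt_irrefl _ ht), Nat.sub_zero] at this
      exact this
    · rw [hh, ← h5, add_assoc, dJ_sub J _ m hm]
  · rw [if_neg hm] at h1
    exact absurd rfl h1

theorem Eop_mem {x : X} (hx : x ∈ A) {i h h' : ℕ} (hh : h' = h + wt x) {f : V X n p}
    (hf : f ∈ N n p A wt i h) : Eop x f ∈ N n p A wt i h' := by
  intro a J hne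
  have h1 : (a x : ZMod p) * f (a - Finsupp.single x 1) J ≠ 0 := hne
  have h2 : (a x : ZMod p) ≠ 0 := left_ne_zero_of_mul h1
  obtain ⟨h3, h4, h5, h6⟩ := hf _ _ (right_ne_zero_of_mul h1)
  have h7 : 1 ≤ a x := by
    rcases Nat.eq_zero_or_pos (a x) with h | h
    · rw [h, Nat.cast_zero] at h2
      exact absurd rfl h2
    · exact h
  have h8 : a - Finsupp.single x 1 + Finsupp.single x 1 = a := by
    ext y
    rw [Finsupp.coe_add, Finsupp.coe_tsub, Pi.add_apply, Pi.sub_apply]
    by_cases hy : y = x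
    · subst hy
      rw [Finsupp.single_eq_same]
      omega
    · rw [Finsupp.single_eq_of_ne hy]
      omega
  refine ⟨fun y => ?_, ?_, h5, ?_⟩
  · by_cases hy : y = x
    · subst hy
      have h9 := h3 y
      rw [Finsupp.coe_tsub, Pi.sub_apply, Finsupp.single_eq_same] at h9
      rcases Nat.lt_or_ge (a y) p with h | h
      · exact h
      · have h10 : a y = p := by omega
        rw [h10, ZMod.natCast_self] at h2
        exact absurd rfl h2
    · have h9 := h3 y
      rw [Finsupp.coe_tsub, Pi.sub_apply, Finsupp.single_eq_of_ne hy, Nat.sub_zero] at h9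
      exact h9
  · intro y hy
    by_cases hyx : y = x
    · rw [hyx]; exact hx
    · apply h4
      rw [Finsupp.mem_support_iff] at hy ⊢
      rw [Finsupp.coe_tsub, Pi.sub_apply, Finsupp.single_eq_of_ne hyx, Nat.sub_zero]
      exact hy
  · have h9 := wa_add wt (a - Finsupp.single x 1) (Finsupp.single x 1)
    rw [h8, wa_single, one_mul] at h9
    omega

theorem Eop_pow_mem {x : X} (hx : x ∈ A) (i : ℕ) (m : ℕ) : ∀ {h h' : ℕ}
    (_ : h' = h + m * wt x) {f : V X n p} (_ : f ∈ N n p A wt i h),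
    (Eop x ^ m) f ∈ N n p A wt i h' := by
  induction m with
  | zero => intro h h' hh f hf; rw [hh, Nat.zero_mul, add_zero]; exact hf
  | succ m ih =>
    intro h h' hh f hf
    rw [pow_succ', Module.End.mul_apply]
    exact Eop_mem hx (h := h + m * wt x) (by rw [hh, Nat.succ_mul, add_assoc]) (ih rfl hf)

theorem prod_mem (hA : ∀ q ∈ L, ∀ t, dg q t ∈ A)
    (hwt : ∀ q ∈ L, ∀ t, wt (dg q t) = p ^ (t : ℕ) * e q) (t : Fin (n + 1)) (i : ℕ) {h h' : ℕ}
    (hh : h' = h + (L.map fun q => (p - 1) * e q).sum * p ^ (t : ℕ)) {f : V X n p}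
    (hf : f ∈ N n p A wt i h) :
    (L.map fun q => (Eop (dg q t) : Module.End (ZMod p) (V X n p)) ^ (p - 1)).prod f ∈
      N n p A wt i h' := by
  induction L generalizing h' with
  | nil => rw [hh]; simpa using hf
  | cons q L ih =>
    rw [List.map_cons, List.prod_cons, Module.End.mul_apply]
    refine Eop_pow_mem (hA q (by simp) t) i (p - 1)
      (h := h + (L.map fun q => (p - 1) * e q).sum * p ^ (t : ℕ)) ?_
      (ih (fun q hq => hA q (by simp [hq])) (fun q hq => hwt q (by simp [hq])) rfl)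
    rw [hh, hwt q (by simp) t, List.map_cons, List.sum_cons]
    ring

/-- One step: `v_i` splits. -/
theorem splitStep [Fact p.Prime] (hwt : ∀ q ∈ L, ∀ t, wt (dg q t) = p ^ (t : ℕ) * e q)
    (he : ∀ q ∈ L, 1 ≤ e q) {i : ℕ} (hi : i < n + 1) {h h' : ℕ} (hh : h' = h + p ^ i)
    (u : N n p A wt (i + 1) h' →ₗ[ZMod p] N n p A wt (i + 1) h')
    (hu : AV (cN A wt e dg L hwt (i + 1) h') (cN A wt e dg L hwt (i + 1) h') L u =
      LinearMap.id) :
    ∃ R : N n p A wt i h' →ₗ[ZMod p] N n p A wt i h,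
      (∀ q ∈ L, R ∘ₗ cN A wt e dg L hwt i h' q = cN A wt e dg L hwt i h q ∘ₗ R) ∧
      ∀ (f : N n p A wt i h) (g : N n p A wt i h'),
        (g : V X n p) = Mop (⟨i, hi⟩ : Fin (n + 1)) 1 f → R g = f := by
  set t0 : Fin (n + 1) := ⟨i, hi⟩ with ht0
  have hwt0 : h' = h + 1 * p ^ i := by rw [hh, one_mul]
  -- restriction to `J t0 = 0`
  let π : N n p A wt i h' →ₗ[ZMod p] N n p A wt (i + 1) h' :=
    { toFun := fun f => ⟨fun a J => if J t0 = 0 then (f : V X n p) a J else 0, by
        intro a J hne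
        have h1 : (if J t0 = 0 then (f : V X n p) a J else 0) ≠ 0 := hne
        by_cases h0 : J t0 = 0
        · rw [if_pos h0] at h1
          obtain ⟨h2, h3, h4, h5⟩ := f.2 _ _ h1
          refine ⟨h2, h3, fun t ht => ?_, h5⟩
          rcases Nat.lt_succ_iff_lt_or_eq.1 ht with h | h
          · exact h4 t h
          · have : t = t0 := Fin.ext h
            rw [this]; exact h0
        · rw [if_neg h0] at h1
          exact absurd rfl h1⟩
      map_add' := by
        intro f g
        apply Subtype.ext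
        funext a J
        show (if J t0 = 0 then (f : V X n p) a J + (g : V X n p) a J else 0) =
          (if J t0 = 0 then (f : V X n p) a J else 0) +
            (if J t0 = 0 then (g : V X n p) a J else 0)
        by_cases h0 : J t0 = 0 <;> simp [h0]
      map_smul' := by
        intro c f
        apply Subtype.ext
        funext a J
        show (if J t0 = 0 then c * (f : V X n p) a J else 0) =
          c * (if J t0 = 0 then (f : V X n p) a J else 0)
        by_cases h0 : J t0 = 0 <;> simp [h0] }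
  have hπ : ∀ (f : N n p A wt i h') a J, ((π f : N n p A wt (i + 1) h') : V X n p) a J =
      if J t0 = 0 then (f : V X n p) a J else 0 := fun f a J => rfl
  -- inclusion
  let s : N n p A wt (i + 1) h' →ₗ[ZMod p] N n p A wt i h' :=
    Submodule.inclusion (by
      intro f hf a J hne
      obtain ⟨h2, h3, h4, h5⟩ := hf a J hne
      exact ⟨h2, h3, fun t ht => h4 t (by omega), h5⟩)
  have hπs : π ∘ₗ s = LinearMap.id := by
    ext f : 2
    funext a J
    rw [LinearMap.comp_apply, hπ]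
    show (if J t0 = 0 then (f : V X n p) a J else 0) = (f : V X n p) a J
    by_cases h0 : J t0 = 0
    · rw [if_pos h0]
    · rw [if_neg h0]
      by_contra hne
      exact h0 ((f.2 a J (Ne.symm hne)).2.2.1 t0 (by rw [ht0]; exact Nat.lt_succ_self i))
  have hπc : ∀ q ∈ L, π ∘ₗ cN A wt e dg L hwt i h' q =
      cN A wt e dg L hwt (i + 1) h' q ∘ₗ π := by
    intro q hq
    ext f : 2
    funext a J
    rw [LinearMap.comp_apply, LinearMap.comp_apply, hπ, cN_apply hwt hq, cN_apply hwt hq]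
    unfold cc
    rw [op_apply, op_apply]
    have hfil : univ.filter (fun t : Fin (n + 1) => i ≤ t.val) =
        insert t0 (univ.filter (fun t : Fin (n + 1) => i + 1 ≤ t.val)) := by
      ext t
      simp only [mem_filter, mem_univ, true_and, mem_insert, Fin.ext_iff, ht0]
      omega
    have hnot : t0 ∉ univ.filter (fun t : Fin (n + 1) => i + 1 ≤ t.val) := by
      simp [ht0]
    have hJ : ∀ t ∈ univ.filter (fun t : Fin (n + 1) => i + 1 ≤ t.val), ∀ m : ℕ,
        (J - Finsupp.single t m) t0 = J t0 := by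
      intro t ht m
      rw [Finsupp.coe_tsub, Pi.sub_apply, Finsupp.single_eq_of_ne, Nat.sub_zero]
      intro hc
      rw [← hc] at ht
      exact hnot ht
    by_cases h0 : J t0 = 0
    · rw [if_pos h0, hfil, sum_insert hnot, if_neg (by have := he q hq; omega), zero_add]
      refine sum_congr rfl fun t ht => ?_
      rw [hπ, hJ t ht, if_pos h0]
    · rw [if_neg h0]
      symm
      refine sum_eq_zero fun t ht => ?_
      rw [hπ, hJ t ht, if_neg h0]
      split_ifs <;> rfl
  -- the section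
  let S : N n p A wt (i + 1) h' →ₗ[ZMod p] N n p A wt i h' :=
    AV (cN A wt e dg L hwt i h') (cN A wt e dg L hwt (i + 1) h') L (s ∘ₗ u)
  have hS1 : π ∘ₗ S = LinearMap.id := by
    rw [AV_left L π hπc, ← LinearMap.comp_assoc, hπs, LinearMap.id_comp, hu]
  have hS2 : ∀ q ∈ L, cN A wt e dg L hwt i h' q ∘ₗ S =
      S ∘ₗ cN A wt e dg L hwt (i + 1) h' q :=
    AV_comm L (fun q _ q' _ => cN_comm hwt i h' q q') (fun q _ q' _ => cN_comm hwt (i + 1) h' q q')
      (fun q _ => cN_pow hwt i h' q) (fun q _ => cN_pow hwt (i + 1) h' q) _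
  let E : N n p A wt i h' →ₗ[ZMod p] N n p A wt i h' := LinearMap.id - S ∘ₗ π
  have hE0 : ∀ f, π (E f) = 0 := by
    intro f
    show π (f - S (π f)) = 0
    have : π (S (π f)) = π f := LinearMap.congr_fun hS1 (π f)
    rw [map_sub, this, sub_self]
  -- shift down
  let sh : N n p A wt i h' →ₗ[ZMod p] N n p A wt i h :=
    { toFun := fun f => ⟨fun a J => (f : V X n p) a (J + Finsupp.single t0 1), by
        intro a J hne
        obtain ⟨h2, h3, h4, h5⟩ := f.2 _ _ hne
        refine ⟨h2, h3, fun t ht => ?_, ?_⟩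
        · have := h4 t ht
          rw [Finsupp.coe_add, Pi.add_apply] at this
          omega
        · rw [dJ_add, hh, one_mul] at h5
          have : (t0 : ℕ) = i := rfl
          rw [this] at h5
          omega⟩
      map_add' := fun f g => rfl
      map_smul' := fun c f => rfl }
  let Mv : N n p A wt i h →ₗ[ZMod p] N n p A wt i h' :=
    ((Mop t0 1 : Module.End (ZMod p) (V X n p)) ∘ₗ (N n p A wt i h).subtype).codRestrict _
      (fun f => Mop_mem hi hwt0 f.2)
  have hMv : ∀ (f : N n p A wt i h) a J, ((Mv f : N n p A wt i h') : V X n p) a J =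
      if 1 ≤ J t0 then (f : V X n p) a (J - Finsupp.single t0 1) else 0 := fun f a J => rfl
  have hshM : ∀ f, sh (Mv f) = f := by
    intro f
    apply Subtype.ext
    funext a J
    show ((Mv f : N n p A wt i h') : V X n p) a (J + Finsupp.single t0 1) = _
    rw [hMv, if_pos (by rw [Finsupp.coe_add, Pi.add_apply, Finsupp.single_eq_same]; omega),
      add_tsub_cancel_right]
  have hMsh : ∀ g : N n p A wt i h', π g = 0 → Mv (sh g) = g := by
    intro g hg
    apply Subtype.ext
    funext a J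
    rw [hMv]
    by_cases h0 : 1 ≤ J t0
    · rw [if_pos h0]
      show (g : V X n p) a (J - Finsupp.single t0 1 + Finsupp.single t0 1) = _
      rw [tsub_add_cancel_of_le]
      rw [Finsupp.single_le_iff]
      exact h0
    · rw [if_neg h0]
      have h1 := congrArg (fun z : N n p A wt (i + 1) h' => (z : V X n p) a J) hg
      simp only [hπ] at h1
      rw [if_pos (by omega)] at h1
      exact h1.symm
  have hπM : ∀ f, π (Mv f) = 0 := by
    intro f
    apply Subtype.ext
    funext a J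
    rw [hπ]
    by_cases h0 : J t0 = 0
    · rw [if_pos h0, hMv, if_neg (by omega)]
      rfl
    · rw [if_neg h0]
      rfl
  have hMc : ∀ q ∈ L, ∀ f, Mv (cN A wt e dg L hwt i h q f) =
      cN A wt e dg L hwt i h' q (Mv f) := by
    intro q hq f
    apply Subtype.ext
    rw [cN_apply hwt hq]
    show Mop t0 1 ((cN A wt e dg L hwt i h q f : N n p A wt i h) : V X n p) =
      cc e dg i q (Mop t0 1 (f : V X n p))
    rw [cN_apply hwt hq]
    exact (LinearMap.congr_fun (op_Mop i (e q) _ t0 1).eq (f : V X n p)).symm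
  have hEc : ∀ q ∈ L, ∀ f, E (cN A wt e dg L hwt i h' q f) =
      cN A wt e dg L hwt i h' q (E f) := by
    intro q hq f
    show cN A wt e dg L hwt i h' q f - S (π (cN A wt e dg L hwt i h' q f)) =
      cN A wt e dg L hwt i h' q (f - S (π f))
    have e1 : π (cN A wt e dg L hwt i h' q f) = cN A wt e dg L hwt (i + 1) h' q (π f) :=
      LinearMap.congr_fun (hπc q hq) f
    have e2 : cN A wt e dg L hwt i h' q (S (π f)) =
        S (cN A wt e dg L hwt (i + 1) h' q (π f)) := LinearMap.congr_fun (hS2 q hq) (π f)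
    rw [map_sub, e1, e2]
  refine ⟨sh ∘ₗ E, fun q hq => ?_, fun f g hg => ?_⟩
  · ext f : 1
    show sh (E (cN A wt e dg L hwt i h' q f)) = cN A wt e dg L hwt i h q (sh (E f))
    have e1 : Mv (cN A wt e dg L hwt i h q (sh (E f))) = cN A wt e dg L hwt i h' q (E f) := by
      rw [hMc q hq, hMsh _ (hE0 f)]
    rw [hEc q hq, ← e1, hshM]
  · have e1 : g = Mv f := Subtype.ext hg
    show sh (E g) = f
    have e2 : E g = g := by
      show g - S (π g) = g
      rw [e1, hπM, map_zero, sub_zero]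
    rw [e2, e1, hshM]

theorem splitIter [Fact p.Prime] (hwt : ∀ q ∈ L, ∀ t, wt (dg q t) = p ^ (t : ℕ) * e q)
    (he : ∀ q ∈ L, 1 ≤ e q) {i : ℕ} (hi : i < n + 1)
    (ih : ∀ h, ∑ x ∈ A, (p - 1) * wt x < h + kap n p (i + 1) →
      ∃ u, AV (cN A wt e dg L hwt (i + 1) h) (cN A wt e dg L hwt (i + 1) h) L u =
        LinearMap.id) (m : ℕ) :
    ∀ h h', h' = h + m * p ^ i → ∑ x ∈ A, (p - 1) * wt x < h + kap n p i →
    ∃ R : N n p A wt i h' →ₗ[ZMod p] N n p A wt i h,
      (∀ q ∈ L, R ∘ₗ cN A wt e dg L hwt i h' q = cN A wt e dg L hwt i h q ∘ₗ R) ∧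
      ∀ (f : N n p A wt i h) (g : N n p A wt i h'),
        (g : V X n p) = Mop (⟨i, hi⟩ : Fin (n + 1)) m f → R g = f := by
  induction m with
  | zero =>
    intro h h' hh _
    have h1 : h' = h := by rw [hh, Nat.zero_mul, add_zero]
    subst h1
    refine ⟨LinearMap.id, fun q _ => rfl, fun f g hg => ?_⟩
    apply Subtype.ext
    rw [LinearMap.id_apply, hg]
    funext a J
    show (if 0 ≤ J ⟨i, hi⟩ then (f : V X n p) a (J - Finsupp.single ⟨i, hi⟩ 0) else 0) = _
    rw [if_pos (Nat.zero_le _), Finsupp.single_zero, tsub_zero]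
  | succ m ihm =>
    intro h h' hh hlt
    obtain ⟨u, hu⟩ := ih (h + p ^ i) (by rw [kap_succ (by omega)] at hlt; omega)
    obtain ⟨R₁, hR₁, hR₁'⟩ := splitStep hwt he hi (h := h) rfl u hu
    obtain ⟨R₂, hR₂, hR₂'⟩ := ihm (h + p ^ i) h' (by rw [hh]; ring) (by omega)
    refine ⟨R₁ ∘ₗ R₂, fun q hq => ?_, fun f g hg => ?_⟩
    · rw [LinearMap.comp_assoc, hR₂ q hq, ← LinearMap.comp_assoc, hR₁ q hq,
        LinearMap.comp_assoc]
    · have h1 : Mop (⟨i, hi⟩ : Fin (n + 1)) 1 (f : V X n p) ∈ N n p A wt i (h + p ^ i) :=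
        Mop_mem hi (by rw [one_mul]) f.2
      have h2 : R₂ g = ⟨_, h1⟩ := by
        refine hR₂' ⟨_, h1⟩ g ?_
        rw [hg]
        show _ = Mop (⟨i, hi⟩ : Fin (n + 1)) m (Mop (⟨i, hi⟩ : Fin (n + 1)) 1 (f : V X n p))
        rw [← Module.End.mul_apply, Mop_mul]
      rw [LinearMap.comp_apply, h2]
      exact hR₁' f _ rfl

theorem Mop_list (t0 : Fin (n + 1)) (L : List Q) (e : Q → ℕ) (m : ℕ) :
    (L.map fun q => (Mop t0 (e q) : Module.End (ZMod p) (V X n p)) ^ m).prod =
      Mop t0 ((L.map fun q => m * e q).sum) := by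
  induction L with
  | nil =>
    apply LinearMap.ext
    intro f
    funext a J
    show (f a J : ZMod p) = if 0 ≤ J t0 then f a (J - Finsupp.single t0 0) else 0
    rw [if_pos (Nat.zero_le _), Finsupp.single_zero, tsub_zero]
  | cons q L ih =>
    rw [List.map_cons, List.prod_cons, List.map_cons, List.sum_cons, Mop_pow, ih, Mop_mul,
      mul_comm]

theorem proj [Fact p.Prime] (hA : ∀ q ∈ L, ∀ t, dg q t ∈ A)
    (hwt : ∀ q ∈ L, ∀ t, wt (dg q t) = p ^ (t : ℕ) * e q) (he : ∀ q ∈ L, 1 ≤ e q)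
    (h1 : ∀ q ∈ L, ∀ s t : Fin (n + 1), s < t → dg q s ≠ dg q t)
    (h2 : L.Pairwise fun q q' => ∀ s t : Fin (n + 1), s ≤ t → dg q s ≠ dg q' t) (m : ℕ) :
    ∀ i, i + m = n + 1 → ∀ h, ∑ x ∈ A, (p - 1) * wt x < h + kap n p i →
      ∃ u, AV (cN A wt e dg L hwt i h) (cN A wt e dg L hwt i h) L u = LinearMap.id := by
  have hp1 : 1 ≤ p := (Fact.out : p.Prime).one_lt.le
  induction m with
  | zero =>
    intro i hi h hlt
    have hk : kap n p i = 0 := by
      unfold kap
      apply sum_eq_zero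
      intro t ht
      have := (mem_filter.1 ht).2
      have := t.2
      omega
    have hz : ∀ f : N n p A wt i h, f = 0 := by
      intro f
      apply Subtype.ext
      funext a J
      by_contra hne
      obtain ⟨g1, g2, g3, g4⟩ := f.2 a J hne
      have hJ : J = 0 := by
        ext t
        exact g3 t (by have := t.2; omega)
      have h3 := wa_le (wt := wt) hp1 g1 g2
      rw [hJ] at g4
      have h4 : dJ p (0 : Fin (n + 1) →₀ ℕ) = 0 := by
        unfold dJ
        rw [Finsupp.sum_zero_index]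
      omega
    exact ⟨0, by ext f; rw [hz f, map_zero, map_zero]⟩
  | succ m ihm =>
    intro i hi h hlt
    have hin : i < n + 1 := by omega
    set t0 : Fin (n + 1) := ⟨i, hin⟩ with ht0
    have ih := ihm (i + 1) (by omega)
    set M := (L.map fun q => (p - 1) * e q).sum with hM
    obtain ⟨R, hR, hR'⟩ := splitIter hwt he hin ih M h (h + M * p ^ i) rfl hlt
    -- the ring identity
    have hring := AV_ring (p := p) (M := V X n p) (fun q => cc e dg i q) (fun q => Eop (dg q t0))
      (fun q => Mop t0 (e q)) L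
      (by
        intro q hq
        show cc e dg i q * Eop (dg q t0) - Eop (dg q t0) * cc e dg i q = Mop t0 (e q)
        unfold cc op
        rw [sum_mul, mul_sum, ← sum_sub_distrib, sum_eq_single t0]
        · rw [mul_assoc, ← mul_assoc (Eop (dg q t0)), ← (Mop_Eop t0 (e q) (dg q t0)).eq,
            mul_assoc, ← mul_sub, Eop_self, mul_one]
        · intro t ht hne
          have h3 : t0 < t := by
            have h4 : i ≤ t.val := (mem_filter.1 ht).2
            refine lt_of_le_of_ne h4 (Ne.symm hne)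
          have h4 : dg q t ≠ dg q t0 := (h1 q hq t0 t h3).symm
          rw [mul_assoc, ← mul_assoc (Eop (dg q t0)), ← (Mop_Eop t (e q) (dg q t0)).eq,
            mul_assoc, (Eop_other (dg q t0) (dg q t) h4 1).eq, sub_self]
        · intro hn
          exact absurd (by simp [ht0]) hn)
      (fun q _ => Mop_Eop t0 (e q) (dg q t0))
      (fun q _ q' _ => op_Mop i (e q) _ t0 (e q'))
      (by
        refine List.Pairwise.imp_of_mem ?_ h2
        intro q q' _ _ h3
        show Commute (Eop (dg q t0)) (cc e dg i q')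
        unfold cc op
        refine Commute.sum_right _ _ _ fun t ht => ?_
        have h4 : i ≤ t.val := (mem_filter.1 ht).2
        exact (Mop_Eop t (e q') (dg q t0)).symm.mul_right
          (Eop_other (dg q t0) (dg q' t) (h3 t0 t h4).symm 1))
    have hlam : (L.map fun q => (Mop t0 (e q) : Module.End (ZMod p) (V X n p)) ^ (p - 1)).prod =
        Mop t0 M := by
      rw [hM, Mop_list]
    set κ : ZMod p := ((p - 1).factorial : ZMod p) ^ L.length with hκ
    have hκ0 : κ ≠ 0 := by
      rw [hκ]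
      apply pow_ne_zero
      rw [ZMod.wilsons_lemma]
      exact neg_ne_zero.2 one_ne_zero
    let Λ : Module.End (ZMod p) (V X n p) :=
      (L.map fun q => (Eop (dg q t0) : Module.End (ZMod p) (V X n p)) ^ (p - 1)).prod
    let U : N n p A wt i h →ₗ[ZMod p] N n p A wt i (h + M * p ^ i) :=
      (Λ ∘ₗ (N n p A wt i h).subtype).codRestrict _
        (fun f => prod_mem hA hwt t0 i (by rw [hM]) f.2)
    have hAV : ∀ f : N n p A wt i h,
        ((AV (cN A wt e dg L hwt i (h + M * p ^ i)) (cN A wt e dg L hwt i h) L U f :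
          N n p A wt i (h + M * p ^ i)) : V X n p) = Mop t0 M ((κ • f : N n p A wt i h) :
            V X n p) := by
      intro f
      have e1 : (N n p A wt i (h + M * p ^ i)).subtype ∘ₗ
          AV (cN A wt e dg L hwt i (h + M * p ^ i)) (cN A wt e dg L hwt i h) L U =
          AV (fun q => cc e dg i q) (cN A wt e dg L hwt i h) L
            ((N n p A wt i (h + M * p ^ i)).subtype ∘ₗ U) :=
        AV_left L _ (fun q hq => by ext f : 1; exact cN_apply hwt hq f) U
      have e2 : AV (fun q => cc e dg i q) (fun q => cc e dg i q) L Λ ∘ₗ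
          (N n p A wt i h).subtype =
          AV (fun q => cc e dg i q) (cN A wt e dg L hwt i h) L
            (Λ ∘ₗ (N n p A wt i h).subtype) :=
        AV_right L _ (fun q hq => by ext f : 1; exact (cN_apply hwt hq f).symm) Λ
      have e3 : (N n p A wt i (h + M * p ^ i)).subtype ∘ₗ U =
          Λ ∘ₗ (N n p A wt i h).subtype := rfl
      rw [e3, ← e2, hring, hlam] at e1
      have e4 := LinearMap.congr_fun e1 f
      refine e4.trans ?_
      show κ • (Mop t0 M (f : V X n p)) = Mop t0 M (κ • (f : V X n p))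
      rw [map_smul]
    refine ⟨(κ⁻¹ • R) ∘ₗ U, ?_⟩
    rw [← AV_left L (κ⁻¹ • R) (c := cN A wt e dg L hwt i (h + M * p ^ i)) (fun q hq => by
      rw [LinearMap.smul_comp, hR q hq, LinearMap.comp_smul]) U]
    ext f : 1
    show κ⁻¹ • R (AV (cN A wt e dg L hwt i (h + M * p ^ i)) (cN A wt e dg L hwt i h) L U f) = f
    rw [hR' (κ • f) _ (hAV f), smul_smul, inv_mul_cancel₀ hκ0, one_smul]

end proof

/-- Compatible families of digit functions in high degrees come from an element. -/
theorem solveDig [Fact p.Prime] (A : Finset X) (wt : X → ℕ) (e : Q → ℕ)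
    (dg : Q → Fin (n + 1) → X) (L : List Q) (hA : ∀ q ∈ L, ∀ t, dg q t ∈ A)
    (hwt : ∀ q ∈ L, ∀ t, wt (dg q t) = p ^ (t : ℕ) * e q) (he : ∀ q ∈ L, 1 ≤ e q)
    (h1 : ∀ q ∈ L, ∀ s t : Fin (n + 1), s < t → dg q s ≠ dg q t)
    (h2 : L.Pairwise fun q q' => ∀ s t : Fin (n + 1), s ≤ t → dg q s ≠ dg q' t)
    (h : ℕ) (hh : ∑ x ∈ A, (p - 1) * wt x < h + ∑ t : Fin (n + 1), p ^ (t : ℕ))
    (x : Q → V X n p) (hx : ∀ q ∈ L, x q ∈ N n p A wt 0 h)
    (hc : ∀ q ∈ L, ∀ q' ∈ L, cc e dg 0 q (x q') = cc e dg 0 q' (x q))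
    (ht : ∀ q ∈ L, (cc e dg 0 q ^ (p - 1)) (x q) = 0) :
    ∃ y ∈ N n p A wt 0 h, ∀ q ∈ L, cc e dg 0 q y = x q := by
  classical
  obtain ⟨u, hu⟩ := proj hA hwt he h1 h2 (n + 1) 0 (by omega) h (by
    have : kap n p 0 = ∑ t : Fin (n + 1), p ^ (t : ℕ) := by
      unfold kap
      simp
    rw [this]
    exact hh)
  let x' : Q → N n p A wt 0 h := fun q => if hq : q ∈ L then ⟨x q, hx q hq⟩ else 0
  have hx' : ∀ q ∈ L, ((x' q : N n p A wt 0 h) : V X n p) = x q := by
    intro q hq
    show ((if hq : q ∈ L then (⟨x q, hx q hq⟩ : N n p A wt 0 h) else 0 : N n p A wt 0 h) :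
      V X n p) = x q
    rw [dif_pos hq]
  obtain ⟨y, hy⟩ := solveAV L (N n p A wt 0 h) (cN A wt e dg L hwt 0 h)
    (cN_comm hwt 0 h) (cN_pow hwt 0 h) u hu x'
    (fun q hq q' hq' => by
      apply Subtype.ext
      rw [cN_apply hwt hq, cN_apply hwt hq', hx' q hq, hx' q' hq', hc q hq q' hq'])
    (fun q hq => by
      apply Subtype.ext
      rw [cN_pow_apply hwt hq, hx' q hq, ht q hq]
      rfl)
  refine ⟨y, y.2, fun q hq => ?_⟩
  rw [← cN_apply hwt hq, hy q hq, hx' q hq]

end BPN.D
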