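import Mathlib

/-!
# BPN, part D, module Kos: Koszul induction (abstract)

`r k` commuting additive endomorphisms of `W`, `G σ c` subgroups with `r k : G σ c → G (σ+1) (c + δ k - 1)`, and the hypothesis `hS`:
`r K` is onto, on the elements killed by `r k`, `n < k < K`.
THEOREM: cocycles `x` of the Koszul complex with `x ∅ = 0` are coboundaries.
PROOF by induction on `K` (for all `c`, `x`).  `K ≤ n`: `Ioc n K = ∅`, `x = 0`.  `K → m = K + 1 > n`.  For `E ⊆ Ioc n K` (so `m ∉ E`, all elements `< m`):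
`kd x (insert m E) = kd x'' E - (-1)^{#E} r_m (x E)`, `x'' E = x (insert m E)` (the filter `· < m` on `insert m E` is `E`; for `k ∈ E` the sign
`#{e < k}` is the same for `E` and `insert m E`, `(insert m E).erase k = insert m (E.erase k)`, `(insert m E).erase m = E`).
(1) `x' E = if m ∈ E then 0 else x E` is a cocycle for `K`; IH: `x' = kd y'` on `E ⊆ Ioc n K`, `y' E = 0` unless `E ⊆ Ioc n K`.
(2) `z E = x (insert m E) + (-1)^{#E} r_m (y' E)` for `E ⊆ Ioc n K`, `0` otherwise.  `kd z E = kd x'' E + (-1)^{#E - 1} r_m (kd y' E)`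
(`r` commute, `#(E.erase k) = #E - 1`) `= (-1)^{#E} r_m (x E) - (-1)^{#E} r_m (x E) = 0`.
(3) `E = {k}`: `r_k (z ∅) = 0` for `n < k ≤ K`.  `z ∅ ∈ G (σ+1) (c + δ m) = G (σ+1) ((c+1) + δ m - 1)`.  `hS` (for `c + 1`): `z ∅ = r_m u`, `u ∈ G σ (c+1)`, `r_k u = 0`
for `n < k < m`.
(4) `z₊ E = if E = ∅ then 0 else z E` is a cocycle for `K` of type `c + δ m` (as `r_k (z ∅) = 0`), `≥` because `0 ≤ δ m`; IH: `z₊ = kd y''`.
(5) `y E = if m ∈ E then y'' (E.erase m) else y' E - (if E = ∅ then u else 0)`.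
Check: `m ∉ E`: `kd y E = kd y' E + [E = {k}] (± r_k u) = x E`.  `insert m E`: `kd y = kd y'' E - (-1)^{#E} r_m (y' E - [E = ∅] u)
= z₊ E - (-1)^{#E} r_m (y' E) + [E = ∅] (z ∅) = z E - (-1)^{#E} r_m (y' E) = x (insert m E)`.
Type: `y'' E ∈ G σ (c + δ m + 1 + ∑_E δ) = G σ (c + 1 + ∑_{insert m E} δ)`.
-/

set_option autoImplicit false

namespace BPN.D

open Finset

/-- The Koszul differential. -/
def kd {W : Type} [AddCommGroup W] (r : ℕ → W →+ W) (x : Finset ℕ → W) (E : Finset ℕ) : W :=
  -∑ k ∈ E, ((-1 : ℤ) ^ (E.filter (· < k)).card) • r k (x (E.erase k))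

theorem kd_congr {W : Type} [AddCommGroup W] (r : ℕ → W →+ W) (x y : Finset ℕ → W) (E : Finset ℕ)
    (h : ∀ k ∈ E, r k (x (E.erase k)) = r k (y (E.erase k))) : kd r x E = kd r y E := by
  unfold kd
  congr 1
  exact Finset.sum_congr rfl fun k hk => by rw [h k hk]

theorem kd_insert {W : Type} [AddCommGroup W] (r : ℕ → W →+ W) (x : Finset ℕ → W) (E : Finset ℕ)
    (m : ℕ) (hE : ∀ k ∈ E, k < m) :
    kd r x (insert m E) = kd r (fun F => x (insert m F)) E - ((-1 : ℤ) ^ E.card) • r m (x E) := by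
  have hm : m ∉ E := fun h => lt_irrefl m (hE m h)
  unfold kd
  rw [Finset.sum_insert hm]
  have h1 : ((insert m E).filter (· < m)) = E := by
    ext k
    simp only [Finset.mem_filter, Finset.mem_insert]
    constructor
    · rintro ⟨h | h, h2⟩
      · exact absurd h2 (by rw [h]; exact lt_irrefl m)
      · exact h
    · intro h
      exact ⟨Or.inr h, hE k h⟩
  rw [h1, Finset.erase_insert hm]
  have h2 : ∑ k ∈ E, ((-1 : ℤ) ^ ((insert m E).filter (· < k)).card) • r k (x ((insert m E).erase k))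
      = ∑ k ∈ E, ((-1 : ℤ) ^ (E.filter (· < k)).card) • r k (x (insert m (E.erase k))) := by
    refine Finset.sum_congr rfl fun k hk => ?_
    have hk' := hE k hk
    have h3 : ((insert m E).filter (· < k)) = E.filter (· < k) := by
      rw [Finset.filter_insert, if_neg (not_lt.mpr hk'.le)]
    have h4 : (insert m E).erase k = insert m (E.erase k) := by
      rw [Finset.erase_insert_of_ne (ne_of_gt hk')]
    rw [h3, h4]
  rw [h2]
  abel

theorem koszul {W : Type} [AddCommGroup W] (r : ℕ → W →+ W)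
    (hr : ∀ k l z, r k (r l z) = r l (r k z)) (n : ℕ) (δ : ℕ → ℤ) (hδ : ∀ k, n < k → 0 ≤ δ k)
    (G : ℕ → ℤ → AddSubgroup W)
    (hG : ∀ k, n < k → ∀ σ c, ∀ z ∈ G σ c, r k z ∈ G (σ + 1) (c + δ k - 1))
    (hS : ∀ K, n < K → ∀ (σ : ℕ) (c : ℤ), 0 ≤ c + 2 * σ → ∀ z ∈ G (σ + 1) (c + δ K - 1),
      (∀ k, n < k → k < K → r k z = 0) →
      ∃ y ∈ G σ c, (∀ k, n < k → k < K → r k y = 0) ∧ r K y = z)
    (σ : ℕ) (K : ℕ) : ∀ (c : ℤ) (x : Finset ℕ → W), 0 ≤ c + 1 + 2 * σ →
      (∀ E, ¬ E ⊆ Ioc n K → x E = 0) → x ∅ = 0 →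
      (∀ E, E ⊆ Ioc n K → x E ∈ G (σ + 1) (c + ∑ k ∈ E, δ k)) →
      (∀ E, E ⊆ Ioc n K → kd r x E = 0) →
      ∃ y : Finset ℕ → W, (∀ E, ¬ E ⊆ Ioc n K → y E = 0) ∧
        (∀ E, E ⊆ Ioc n K → y E ∈ G σ (c + 1 + ∑ k ∈ E, δ k)) ∧
        ∀ E, E ⊆ Ioc n K → kd r y E = x E := by
  have hempty : ∀ K, K ≤ n → ∀ (x : Finset ℕ → W), (∀ E, ¬ E ⊆ Ioc n K → x E = 0) → x ∅ = 0 →
      ∀ E, x E = 0 := by
    intro K hK x h1 h2 E
    by_cases hE : E ⊆ Ioc n K
    · rw [Finset.Ioc_eq_empty (by omega), Finset.subset_empty] at hE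
      rw [hE, h2]
    · exact h1 E hE
  have hbase : ∀ K, K ≤ n → ∀ (c : ℤ) (x : Finset ℕ → W),
      (∀ E, ¬ E ⊆ Ioc n K → x E = 0) → x ∅ = 0 →
      ∃ y : Finset ℕ → W, (∀ E, ¬ E ⊆ Ioc n K → y E = 0) ∧
        (∀ E, E ⊆ Ioc n K → y E ∈ G σ (c + 1 + ∑ k ∈ E, δ k)) ∧
        ∀ E, E ⊆ Ioc n K → kd r y E = x E := by
    intro K hK c x h1 h2
    refine ⟨fun _ => 0, fun _ _ => rfl, fun _ _ => AddSubgroup.zero_mem _, fun E _ => ?_⟩
    rw [hempty K hK x h1 h2 E]
    unfold kd
    simp
  induction K with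
  | zero =>
    intro c x _ h1 h2 _ _
    exact hbase 0 (Nat.zero_le _) c x h1 h2
  | succ K IH =>
    intro c x hc h1 h2 h3 h4
    by_cases hKn : K + 1 ≤ n
    · exact hbase (K + 1) hKn c x h1 h2
    have hnm : n < K + 1 := by omega
    obtain ⟨m, hm⟩ : ∃ m, m = K + 1 := ⟨_, rfl⟩
    rw [← hm] at hnm
    have hIoc : ∀ E : Finset ℕ, m ∉ E → (E ⊆ Ioc n (K + 1) ↔ E ⊆ Ioc n K) := by
      intro E hE
      constructor
      · intro h k hk
        have := Finset.mem_Ioc.mp (h hk)
        have hkm : k ≠ m := fun h => hE (h ▸ hk)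
        exact Finset.mem_Ioc.mpr ⟨this.1, by omega⟩
      · intro h k hk
        have := Finset.mem_Ioc.mp (h hk)
        exact Finset.mem_Ioc.mpr ⟨this.1, by omega⟩
    have hlt : ∀ E : Finset ℕ, E ⊆ Ioc n K → ∀ k ∈ E, k < m := by
      intro E hE k hk
      have := Finset.mem_Ioc.mp (hE hk)
      omega
    have hnot : ∀ E : Finset ℕ, E ⊆ Ioc n K → m ∉ E := fun E hE h => lt_irrefl m (hlt E hE m h)
    have hsub : ∀ E : Finset ℕ, E ⊆ Ioc n K → E ⊆ Ioc n (K + 1) := fun E hE =>
      (hIoc E (hnot E hE)).mpr hE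
    have hins : ∀ E : Finset ℕ, E ⊆ Ioc n K → insert m E ⊆ Ioc n (K + 1) := by
      intro E hE
      rw [Finset.insert_subset_iff]
      exact ⟨Finset.mem_Ioc.mpr ⟨hnm, by omega⟩, hsub E hE⟩
    have her : ∀ (E : Finset ℕ) (k : ℕ), E ⊆ Ioc n K → E.erase k ⊆ Ioc n K := fun E k hE =>
      (Finset.erase_subset k E).trans hE
    -- step 1
    obtain ⟨y', hy1, hy2, hy3⟩ := IH c (fun E => if m ∈ E then 0 else x E) hc
      (by
        intro E hE
        by_cases hmE : m ∈ E
        · simp only [hmE, if_true]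
        · simp only [hmE, if_false]
          exact h1 E (fun h => hE ((hIoc E hmE).mp h)))
      (by simp [h2])
      (by
        intro E hE
        simp only [hnot E hE, if_false]
        exact h3 E (hsub E hE))
      (by
        intro E hE
        rw [kd_congr r _ x E (fun k _ => by rw [if_neg (hnot _ (her E k hE))])]
        exact h4 E (hsub E hE))
    have hy3' : ∀ E, E ⊆ Ioc n K → kd r y' E = x E := by
      intro E hE
      rw [hy3 E hE, if_neg (hnot E hE)]
    -- step 2
    obtain ⟨z, hz⟩ : ∃ z : Finset ℕ → W, ∀ E, z E = if E ⊆ Ioc n K then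
      x (insert m E) + ((-1 : ℤ) ^ E.card) • r m (y' E) else 0 := ⟨_, fun _ => rfl⟩
    have hz1 : ∀ E, E ⊆ Ioc n K → z E = x (insert m E) + ((-1 : ℤ) ^ E.card) • r m (y' E) :=
      fun E hE => by rw [hz, if_pos hE]
    have hz2 : ∀ E, ¬ E ⊆ Ioc n K → z E = 0 := fun E hE => by rw [hz, if_neg hE]
    have hxi : ∀ E, E ⊆ Ioc n K → kd r (fun F => x (insert m F)) E = ((-1 : ℤ) ^ E.card) • r m (x E) := by
      intro E hE
      have h := h4 (insert m E) (hins E hE)
      rw [kd_insert r x E m (hlt E hE), sub_eq_zero] at h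
      exact h
    have hzk : ∀ E, E ⊆ Ioc n K → kd r z E = 0 := by
      intro E hE
      have e1 : kd r z E = kd r (fun F => x (insert m F)) E
          - ((-1 : ℤ) ^ E.card) • r m (kd r y' E) := by
        unfold kd
        rw [map_neg, map_sum, smul_neg, sub_neg_eq_add, Finset.smul_sum, ← sub_eq_zero]
        rw [show (-∑ k ∈ E, ((-1 : ℤ) ^ (E.filter (· < k)).card) • r k (z (E.erase k))
          - (-∑ k ∈ E, ((-1 : ℤ) ^ (E.filter (· < k)).card) • r k (x (insert m (E.erase k)))
            + ∑ k ∈ E, ((-1 : ℤ) ^ E.card) •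
              r m (((-1 : ℤ) ^ (E.filter (· < k)).card) • r k (y' (E.erase k)))))
          = ∑ k ∈ E, (- ((-1 : ℤ) ^ (E.filter (· < k)).card • r k (z (E.erase k)))
            + ((-1 : ℤ) ^ (E.filter (· < k)).card • r k (x (insert m (E.erase k))))
            - ((-1 : ℤ) ^ E.card) •
              r m (((-1 : ℤ) ^ (E.filter (· < k)).card) • r k (y' (E.erase k)))) from by
            rw [Finset.sum_sub_distrib, Finset.sum_add_distrib, Finset.sum_neg_distrib]
            abel]
        refine Finset.sum_eq_zero fun k hk => ?_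
        rw [hz1 _ (her E k hE), map_add, map_zsmul, map_zsmul, smul_add, hr m k]
        have hcard : E.card = (E.erase k).card + 1 := (Finset.card_erase_add_one hk).symm
        rw [hcard, pow_succ]
        generalize r k (x (insert m (E.erase k))) = A
        generalize r k (r m (y' (E.erase k))) = B
        generalize ((-1 : ℤ) ^ (E.filter (· < k)).card) = a
        generalize ((-1 : ℤ) ^ (E.erase k).card) = b
        module
      rw [e1, hy3' E hE, hxi E hE, sub_self]
    -- step 3
    have hzmem : ∀ E, E ⊆ Ioc n K → z E ∈ G (σ + 1) (c + δ m + ∑ k ∈ E, δ k) := by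
      intro E hE
      rw [hz1 E hE]
      refine AddSubgroup.add_mem _ ?_ (AddSubgroup.zsmul_mem _ ?_ _)
      · have h := h3 (insert m E) (hins E hE)
        rw [Finset.sum_insert (hnot E hE), ← add_assoc] at h
        exact h
      · have h := hG m hnm σ _ _ (hy2 E hE)
        rw [show c + 1 + ∑ k ∈ E, δ k + δ m - 1 = c + δ m + ∑ k ∈ E, δ k from by ring] at h
        exact h
    have hrz : ∀ k, n < k → k < m → r k (z ∅) = 0 := by
      intro k hk1 hk2
      have h := hzk {k} (by
        rw [Finset.singleton_subset_iff]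
        exact Finset.mem_Ioc.mpr ⟨hk1, by omega⟩)
      unfold kd at h
      rw [Finset.sum_singleton] at h
      have e : ({k} : Finset ℕ).erase k = ∅ := by simp
      have e2 : (({k} : Finset ℕ).filter (· < k)) = ∅ := by
        rw [Finset.filter_singleton, if_neg (lt_irrefl k)]
      rw [e, e2, Finset.card_empty, pow_zero, one_smul, neg_eq_zero] at h
      exact h
    obtain ⟨u, hu1, hu2, hu3⟩ := hS m hnm σ (c + 1) (by linarith) (z ∅)
      (by
        have h := hzmem ∅ (Finset.empty_subset _)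
        rw [Finset.sum_empty, add_zero] at h
        rw [show c + 1 + δ m - 1 = c + δ m from by ring]
        exact h) hrz
    -- step 4
    obtain ⟨zp, hzp⟩ : ∃ zp : Finset ℕ → W, ∀ E, zp E = if E = ∅ then 0 else z E :=
      ⟨_, fun _ => rfl⟩
    obtain ⟨y2, hy21, hy22, hy23⟩ := IH (c + δ m) zp (by have := hδ m hnm; linarith)
      (by
        intro E hE
        rw [hzp, if_neg (fun h => hE (by rw [h]; exact Finset.empty_subset _))]
        exact hz2 E hE)
      (by rw [hzp, if_pos rfl])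
      (by
        intro E hE
        rw [hzp]
        by_cases h : E = ∅
        · rw [if_pos h]; exact AddSubgroup.zero_mem _
        · rw [if_neg h]; exact hzmem E hE)
      (by
        intro E hE
        rw [kd_congr r zp z E (fun k hk => ?_)]
        · exact hzk E hE
        · rw [hzp]
          by_cases h : E.erase k = ∅
          · rw [if_pos h, h, map_zero]
            have hk' := Finset.mem_Ioc.mp (hE hk)
            exact (hrz k hk'.1 (by omega)).symm
          · rw [if_neg h])
    -- step 5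
    obtain ⟨y, hy⟩ : ∃ y : Finset ℕ → W, ∀ E, y E = if m ∈ E then y2 (E.erase m) else
      y' E - (if E = ∅ then u else 0) := ⟨_, fun _ => rfl⟩
    have hEcase : ∀ E : Finset ℕ, m ∈ E → E ⊆ Ioc n (K + 1) → E.erase m ⊆ Ioc n K := by
      intro E _ hE
      rw [← hIoc _ (Finset.notMem_erase m E)]
      exact (Finset.erase_subset m E).trans hE
    refine ⟨y, ?_, ?_, ?_⟩
    · intro E hE
      rw [hy]
      by_cases hmE : m ∈ E
      · rw [if_pos hmE]
        refine hy21 _ (fun h => hE ?_)
        have h5 := hins _ h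
        rwa [Finset.insert_erase hmE] at h5
      · rw [if_neg hmE]
        have hE' : ¬ E ⊆ Ioc n K := fun h => hE ((hIoc E hmE).mpr h)
        rw [hy1 E hE', if_neg (fun h => hE' (by rw [h]; exact Finset.empty_subset _)), sub_zero]
    · intro E hE
      rw [hy]
      by_cases hmE : m ∈ E
      · rw [if_pos hmE]
        have h := hy22 _ (hEcase E hmE hE)
        rw [show c + δ m + 1 + ∑ k ∈ E.erase m, δ k = c + 1 + ∑ k ∈ E, δ k from by
          rw [← Finset.add_sum_erase E δ hmE]; ring] at h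
        exact h
      · rw [if_neg hmE]
        have hE' := (hIoc E hmE).mp hE
        refine AddSubgroup.sub_mem _ (hy2 E hE') ?_
        by_cases h : E = ∅
        · rw [if_pos h, h, Finset.sum_empty, add_zero]
          exact hu1
        · rw [if_neg h]; exact AddSubgroup.zero_mem _
    · intro E hE
      by_cases hmE : m ∈ E
      · have hF := hEcase E hmE hE
        generalize hFd : E.erase m = F at hF
        have hEF : E = insert m F := by rw [← hFd, Finset.insert_erase hmE]
        have hmF := hnot F hF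
        rw [hEF, kd_insert r y F m (hlt F hF)]
        rw [kd_congr r (fun F' => y (insert m F')) y2 F (fun k _ => by
          rw [hy, if_pos (Finset.mem_insert_self _ _), Finset.erase_insert (hnot _ (her F k hF))])]
        rw [hy23 F hF, hy F, if_neg hmF, map_sub, hzp]
        by_cases h : F = ∅
        · rw [if_pos h, if_pos h, hu3, h, hz1 ∅ (Finset.empty_subset _)]
          rw [Finset.card_empty, pow_zero, one_smul, one_smul]
          abel
        · rw [if_neg h, if_neg h, map_zero, sub_zero, hz1 F hF]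
          abel
      · have hE' := (hIoc E hmE).mp hE
        rw [← hy3' E hE']
        refine kd_congr r y y' E (fun k hk => ?_)
        have hk' := Finset.mem_Ioc.mp (hE' hk)
        rw [hy, if_neg (hnot _ (her E k hE')), map_sub]
        by_cases h : E.erase k = ∅
        · rw [if_pos h, hu2 k hk'.1 (by omega), sub_zero]
        · rw [if_neg h, map_zero, sub_zero]

end BPN.D
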