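import Pool.Agent.BPN.D.Defs

/-!
# BPN, part D, module Ops: commutation rules

Everything is `LinearMap.ext`, `funext a J` and arithmetic of `Finsupp` (pointwise truncated subtraction).
* `Mop_comm`: for `t = t'` both sides are `if e + e' ≤ J t then f a (J - single t (e + e')) else 0`; for `t ≠ t'` the
  conditions do not interfere and `J - single t e - single t' e'` is symmetric (`tsub_tsub`, `add_comm`).
* `Eop_self`: `(D E f) a = (a x + 1) f a`, `(E D f) a = a x f (a - single x 1 + single x 1) = a x f a` (`= 0` if `a x = 0`).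
* `Eop_other` (`y ≠ x`): `a + single y m - single x 1 = a - single x 1 + single y m`, `(a + single y m) x = a x`.
* `op_comm`: `Commute.sum_left/right` and the rules above.
* `op_pow_p`: the summands `Mop t e * Dop (b t)` commute pairwise; in an algebra over `ZMod p` (`p` prime) and for pairwise commuting
  `x_t`: `(∑ x_t)^p = ∑ x_t^p` (`sum_pow_p`, induction with `Commute.exists_add_pow_prime_eq`: `(x + y)^p = x^p + y^p + p x y r` and
  `(p : A) = 0`), and `(Mop t e * Dop b)^p = Mop t (e p) * Dop (p • b)`.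
* `op_N`: if `(op i e b f) a J ≠ 0` then some `t ≥ i` has `e ≤ J t`, `f (a + b t) (J - single t e) ≠ 0`.
-/

set_option autoImplicit false

namespace BPN.D

open Finset

variable {X : Type} {n p : ℕ}

private theorem V_ext {S T : Module.End (ZMod p) (V X n p)}
    (h : ∀ f a J, S f a J = T f a J) : S = T :=
  LinearMap.ext fun f => funext fun a => funext fun J => h f a J

theorem Dop_mul (b b' : X →₀ ℕ) :
    (Dop b * Dop b' : Module.End (ZMod p) (V X n p)) = Dop (b + b') := by
  refine V_ext fun f a J => ?_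
  change f (a + b + b') J = f (a + (b + b')) J
  rw [add_assoc]

theorem Dop_comm (b b' : X →₀ ℕ) : Commute (Dop b : Module.End (ZMod p) (V X n p)) (Dop b') := by
  change (Dop b * Dop b' : Module.End (ZMod p) (V X n p)) = Dop b' * Dop b
  rw [Dop_mul, Dop_mul, add_comm b b']

private theorem Dop_zero : (Dop 0 : Module.End (ZMod p) (V X n p)) = 1 := by
  refine V_ext fun f a J => ?_
  change f (a + 0) J = f a J
  rw [add_zero]

theorem Dop_pow (b : X →₀ ℕ) (m : ℕ) :
    (Dop b : Module.End (ZMod p) (V X n p)) ^ m = Dop (m • b) := by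
  induction m with
  | zero => rw [pow_zero, zero_smul, Dop_zero]
  | succ m ih => rw [pow_succ, ih, Dop_mul, succ_nsmul]

theorem Mop_mul (t : Fin (n + 1)) (e e' : ℕ) :
    (Mop t e * Mop t e' : Module.End (ZMod p) (V X n p)) = Mop t (e + e') := by
  refine V_ext fun f a J => ?_
  change (if e ≤ J t then (if e' ≤ (J - Finsupp.single t e) t then
    f a (J - Finsupp.single t e - Finsupp.single t e') else 0) else 0) =
    if e + e' ≤ J t then f a (J - Finsupp.single t (e + e')) else 0
  have h1 : (J - Finsupp.single t e) t = J t - e := by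
    rw [Finsupp.tsub_apply, Finsupp.single_eq_same]
  rw [h1]
  by_cases h2 : e + e' ≤ J t
  · rw [if_pos h2, if_pos (by omega), if_pos (by omega), tsub_tsub, ← Finsupp.single_add]
  · rw [if_neg h2]
    by_cases h3 : e ≤ J t
    · rw [if_pos h3, if_neg (by omega)]
    · rw [if_neg h3]

private theorem Mop_zero (t : Fin (n + 1)) : (Mop t 0 : Module.End (ZMod p) (V X n p)) = 1 := by
  refine V_ext fun f a J => ?_
  change (if 0 ≤ J t then f a (J - Finsupp.single t 0) else 0) = f a J
  rw [if_pos (Nat.zero_le _), Finsupp.single_zero, tsub_zero]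

theorem Mop_pow (t : Fin (n + 1)) (e m : ℕ) :
    (Mop t e : Module.End (ZMod p) (V X n p)) ^ m = Mop t (e * m) := by
  induction m with
  | zero => rw [pow_zero, mul_zero, Mop_zero]
  | succ m ih => rw [pow_succ, ih, Mop_mul, Nat.mul_succ]

theorem Mop_comm (t t' : Fin (n + 1)) (e e' : ℕ) :
    Commute (Mop t e : Module.End (ZMod p) (V X n p)) (Mop t' e') := by
  by_cases h : t = t'
  · subst h
    change (Mop t e * Mop t e' : Module.End (ZMod p) (V X n p)) = Mop t e' * Mop t e
    rw [Mop_mul, Mop_mul, add_comm e e']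
  · refine V_ext fun f a J => ?_
    change (if e ≤ J t then (if e' ≤ (J - Finsupp.single t e) t' then
      f a (J - Finsupp.single t e - Finsupp.single t' e') else 0) else 0) =
      (if e' ≤ J t' then (if e ≤ (J - Finsupp.single t' e') t then
      f a (J - Finsupp.single t' e' - Finsupp.single t e) else 0) else 0)
    have h1 : (J - Finsupp.single t e) t' = J t' := by
      rw [Finsupp.tsub_apply, Finsupp.single_eq_of_ne (Ne.symm h), tsub_zero]
    have h2 : (J - Finsupp.single t' e') t = J t := by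
      rw [Finsupp.tsub_apply, Finsupp.single_eq_of_ne h, tsub_zero]
    rw [h1, h2, tsub_right_comm]
    by_cases h3 : e ≤ J t
    · by_cases h4 : e' ≤ J t'
      · rw [if_pos h3, if_pos h4, if_pos h4, if_pos h3]
      · rw [if_pos h3, if_neg h4, if_neg h4]
    · by_cases h4 : e' ≤ J t'
      · rw [if_neg h3, if_pos h4, if_neg h3]
      · rw [if_neg h3, if_neg h4]

theorem Mop_Dop (t : Fin (n + 1)) (e : ℕ) (b : X →₀ ℕ) :
    Commute (Mop t e : Module.End (ZMod p) (V X n p)) (Dop b) := by
  refine V_ext fun f a J => ?_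
  rfl

theorem Mop_Eop (t : Fin (n + 1)) (e : ℕ) (x : X) :
    Commute (Mop t e : Module.End (ZMod p) (V X n p)) (Eop x) := by
  refine V_ext fun f a J => ?_
  change (if e ≤ J t then (a x : ZMod p) * f (a - Finsupp.single x 1) (J - Finsupp.single t e)
    else 0) = (a x : ZMod p) * (if e ≤ J t then f (a - Finsupp.single x 1)
      (J - Finsupp.single t e) else 0)
  by_cases h : e ≤ J t
  · rw [if_pos h, if_pos h]
  · rw [if_neg h, if_neg h, mul_zero]

theorem Eop_self (x : X) : (Dop (Finsupp.single x 1) * Eop x - Eop x * Dop (Finsupp.single x 1) :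
    Module.End (ZMod p) (V X n p)) = 1 := by
  refine V_ext fun f a J => ?_
  change ((a + Finsupp.single x 1 : X →₀ ℕ) x : ZMod p) *
      f (a + Finsupp.single x 1 - Finsupp.single x 1) J -
      (a x : ZMod p) * f (a - Finsupp.single x 1 + Finsupp.single x 1) J = f a J
  rw [Finsupp.add_apply, Finsupp.single_eq_same, add_tsub_cancel_right]
  by_cases h : a x = 0
  · rw [h]
    simp
  · have h1 : Finsupp.single x 1 ≤ a := by
      rw [Finsupp.single_le_iff]
      exact Nat.one_le_iff_ne_zero.2 h
    rw [tsub_add_cancel_of_le h1]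
    push_cast
    ring

theorem Eop_other (x y : X) (h : y ≠ x) (m : ℕ) :
    Commute (Eop x : Module.End (ZMod p) (V X n p)) (Dop (Finsupp.single y m)) := by
  classical
  refine V_ext fun f a J => ?_
  change (a x : ZMod p) * f (a - Finsupp.single x 1 + Finsupp.single y m) J =
    ((a + Finsupp.single y m : X →₀ ℕ) x : ZMod p) *
      f (a + Finsupp.single y m - Finsupp.single x 1) J
  have h1 : (a + Finsupp.single y m : X →₀ ℕ) x = a x := by
    rw [Finsupp.add_apply, Finsupp.single_eq_of_ne (Ne.symm h), add_zero]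
  have h2 : a - Finsupp.single x 1 + Finsupp.single y m =
      a + Finsupp.single y m - Finsupp.single x 1 := by
    ext z
    simp only [Finsupp.add_apply, Finsupp.tsub_apply]
    by_cases hz : z = x
    · subst hz
      rw [Finsupp.single_eq_of_ne (Ne.symm h), add_zero, add_zero]
    · rw [Finsupp.single_eq_of_ne hz, tsub_zero, tsub_zero]
  rw [h1, h2]

theorem sum_pow_p [Fact p.Prime] {A ι : Type} [Ring A] [Algebra (ZMod p) A] (s : Finset ι)
    (x : ι → A) (hx : ∀ i j, Commute (x i) (x j)) :
    (∑ i ∈ s, x i) ^ p = ∑ i ∈ s, x i ^ p := by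
  classical
  rcases subsingleton_or_nontrivial A with hA | hA
  · exact Subsingleton.elim _ _
  · have hc : CharP A p := charP_of_injective_algebraMap (algebraMap (ZMod p) A).injective p
    induction s using Finset.induction_on with
    | empty =>
      rw [Finset.sum_empty, Finset.sum_empty, zero_pow (Fact.out : p.Prime).ne_zero]
    | insert i s hi ih =>
      rw [Finset.sum_insert hi, Finset.sum_insert hi, ← ih]
      exact add_pow_char_of_commute p (Commute.sum_right _ _ _ fun j _ => hx i j)

private theorem term_comm (t t' : Fin (n + 1)) (e e' : ℕ) (c c' : X →₀ ℕ) :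
    Commute (Mop t e * Dop c : Module.End (ZMod p) (V X n p)) (Mop t' e' * Dop c') :=
  ((Mop_comm t t' e e').mul_right (Mop_Dop t e c')).mul_left
    ((Mop_Dop t' e' c).symm.mul_right (Dop_comm c c'))

theorem op_comm (i e i' e' : ℕ) (b b' : Fin (n + 1) → X →₀ ℕ) :
    Commute (op i e b : Module.End (ZMod p) (V X n p)) (op i' e' b') := by
  unfold op
  exact Commute.sum_left _ _ _ fun t _ => Commute.sum_right _ _ _ fun t' _ =>
    term_comm t t' e e' (b t) (b' t')

theorem op_Mop (i e : ℕ) (b : Fin (n + 1) → X →₀ ℕ) (t : Fin (n + 1)) (e' : ℕ) :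
    Commute (op i e b : Module.End (ZMod p) (V X n p)) (Mop t e') := by
  unfold op
  exact Commute.sum_left _ _ _ fun t' _ =>
    (Mop_comm t' t e e').mul_left (Mop_Dop t e' (b t')).symm

theorem op_pow_p [Fact p.Prime] (i e : ℕ) (b : Fin (n + 1) → X →₀ ℕ) :
    (op i e b : Module.End (ZMod p) (V X n p)) ^ p = op i (e * p) fun t => p • b t := by
  unfold op
  rw [sum_pow_p _ _ fun t t' => term_comm t t' e e (b t) (b t')]
  refine Finset.sum_congr rfl fun t _ => ?_
  rw [(Mop_Dop t e (b t)).mul_pow, Mop_pow, Dop_pow]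

theorem op_pow_pj [Fact p.Prime] (i e : ℕ) (b : Fin (n + 1) → X →₀ ℕ) (j : ℕ) :
    (op i e b : Module.End (ZMod p) (V X n p)) ^ (p ^ j) =
      op i (e * p ^ j) fun t => (p ^ j) • b t := by
  induction j with
  | zero =>
    rw [pow_zero, pow_one, mul_one]
    congr 1
    funext t
    rw [one_smul]
  | succ j ih =>
    rw [pow_succ, pow_mul, ih, op_pow_p, mul_assoc]
    congr 1
    funext t
    rw [smul_smul, mul_comm]

theorem rr_pow [Fact p.Prime] (k j : ℕ) :
    (rr p k 0 : Module.End (ZMod p) (V ℕ n p)) ^ (p ^ j) = rr p k j := by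
  unfold rr
  rw [op_pow_pj, pow_zero, one_mul]
  congr 1
  funext t
  rw [Finsupp.smul_single, smul_eq_mul, ← pow_add]
  congr 2
  omega

theorem wa_add (wt : X → ℕ) (a b : X →₀ ℕ) : wa wt (a + b) = wa wt a + wa wt b := by
  classical
  unfold wa
  exact Finsupp.sum_add_index' (fun x => zero_mul _) fun x r s => add_mul r s (wt x)

theorem wa_single (wt : X → ℕ) (x : X) (m : ℕ) : wa wt (Finsupp.single x m) = m * wt x := by
  unfold wa
  exact Finsupp.sum_single_index (zero_mul _)

theorem dJ_add (J : Fin (n + 1) →₀ ℕ) (t : Fin (n + 1)) (e : ℕ) :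
    dJ p (J + Finsupp.single t e) = dJ p J + e * p ^ (t : ℕ) := by
  classical
  unfold dJ
  rw [Finsupp.sum_add_index' (fun x => zero_mul _) fun x r s => add_mul r s _,
    Finsupp.sum_single_index (zero_mul _)]

theorem dJ_sub (J : Fin (n + 1) →₀ ℕ) (t : Fin (n + 1)) (e : ℕ) (h : e ≤ J t) :
    dJ p (J - Finsupp.single t e) + e * p ^ (t : ℕ) = dJ p J := by
  rw [← dJ_add, tsub_add_cancel_of_le (Finsupp.single_le_iff.2 h)]

theorem op_apply (i e : ℕ) (b : Fin (n + 1) → X →₀ ℕ) (f : V X n p) (a : X →₀ ℕ)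
    (J : Fin (n + 1) →₀ ℕ) : op i e b f a J =
      ∑ t ∈ univ.filter (fun t : Fin (n + 1) => i ≤ t.val),
        if e ≤ J t then f (a + b t) (J - Finsupp.single t e) else 0 := by
  unfold op
  rw [LinearMap.sum_apply, Finset.sum_apply, Finset.sum_apply]
  rfl

theorem op_ne_zero {i e : ℕ} {b : Fin (n + 1) → X →₀ ℕ} {f : V X n p} {a : X →₀ ℕ}
    {J : Fin (n + 1) →₀ ℕ} (h : op i e b f a J ≠ 0) :
    ∃ t : Fin (n + 1), i ≤ t.val ∧ e ≤ J t ∧ f (a + b t) (J - Finsupp.single t e) ≠ 0 := by
  rw [op_apply] at h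
  obtain ⟨t, ht, h1⟩ := Finset.exists_ne_zero_of_sum_ne_zero h
  rw [Finset.mem_filter] at ht
  by_cases h2 : e ≤ J t
  · rw [if_pos h2] at h1
    exact ⟨t, ht.2, h2, h1⟩
  · rw [if_neg h2] at h1
    exact absurd rfl h1

theorem op_N (A : Finset X) (wt : X → ℕ) (i h e : ℕ) (b : Fin (n + 1) → X →₀ ℕ)
    (hb : ∀ t, wa wt (b t) = p ^ (t : ℕ) * e) (f : V X n p) (hf : f ∈ N n p A wt i h) :
    op i e b f ∈ N n p A wt i h := by
  intro a J hne
  obtain ⟨t, hit, het, h1⟩ := op_ne_zero hne
  obtain ⟨h2, h3, h4, h5⟩ := hf _ _ h1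
  refine ⟨fun x => ?_, ?_, ?_, ?_⟩
  · have := h2 x
    rw [Finsupp.add_apply] at this
    omega
  · refine Finset.Subset.trans ?_ h3
    intro x hx
    rw [Finsupp.mem_support_iff] at hx ⊢
    rw [Finsupp.add_apply]
    omega
  · intro t' ht'
    have h6 := h4 t' ht'
    have h7 : t' ≠ t := by
      rintro rfl
      omega
    rwa [Finsupp.tsub_apply, Finsupp.single_eq_of_ne h7, tsub_zero] at h6
  · rw [wa_add, hb t] at h5
    have h6 := dJ_sub (p := p) J t e het
    rw [← h6]
    have h7 : p ^ (t : ℕ) * e = e * p ^ (t : ℕ) := mul_comm _ _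
    omega

end BPN.D
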