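import Pool.Agent.BPN.D.Defs

/-!
# BPN, part D, module Pres: prescribed values

`P = F_p[v_0, .., v_n]`.  `x : (ℕ →₀ ℕ) → P` gives the `P`-linear `lin x : P[ξ_1, ξ_2, ..] → P` (variable `j` is `ξ_{j+1}`).
`rj j = ∑_{i ≤ j, i ≤ n} v_i ξ_{j-i}^{p^i}` (`ξ_0 = 1`), `rI I = ∏_j rj (j+1) ^ I j` (`j < n`).
THEOREM `PRES`: for `s ≥ 3 k` and given `c I` (`s`-degree `s + |I|`, degree `|v^I|`) there is `x` of type `s`, killing all `rj m`, `m > n`, with
`lin x (rI I) = c I` whenever `|v^I| ≤ 2 k`.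
PROOF.  Let `W = 2 k`, `d R = ∑ R_j (p^{j+1} - 1) ≤ wtR R`.  Let `B = F_p[v_0, .., v_n, ρ_1, .., ρ_n]` (e.g. `MvPolynomial (Fin (n+1) ⊕ Fin n) (ZMod p)`).
(1) Define `g_j ∈ B`: `g_0 = 1`, for `j ≥ 1`: `g_j = [j ≤ n] v_0^{p^j - 2} (ρ_j - v_j) - ∑_{1 ≤ i ≤ n, i < j} v_i v_0^{p^i - 2} g_{j-i}^{p^i}`
(strong recursion, `p^i ≥ 2`).  Multiply by `v_0^2`:
(*) `∑_{i ≤ n, i ≤ j} v_i v_0^{p^i} g_{j-i}^{p^i} = v_0^{p^j} ρ_j` for `1 ≤ j ≤ n`, and `= 0` for `j > n`.
`g_j` is homogeneous: `s`-degree `p^j - 1` (`v_t`, `ρ_t` have `s`-degree `1`) and degree `2 (p^j - 1)` (`|v_t| = |ρ_t| = 2 (p^t - 1)`).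
(`ξ_j = v_0^{-(p^j - 1)} g_j` is the solution of `r_j = ρ_j` (`j ≤ n`), `r_j = 0` (`j > n`) over `P[1/v_0]`.)
(2) If `|v^I| ≤ 2 k` and `v^J` occurs in `c I` then `∑_{t ≥ 1} J_t ≤ k` (`|v_t| ≥ 2`), so `J_0 ≥ s + |I| - k ≥ W`: `c I = v_0^W c' I`.
(3) Let `l : B → P` be `F_p[v]`-linear with `l (ρ^I) = c' I` if `|v^I| ≤ 2 k`, `0` otherwise, `G R = ∏_j g_{j+1}^{R_j}`,
`x R = if wtR R ≤ W then v_0^{W - d R} l (G R) else 0`.
Type: `G R` has `s`-degree `d R`, degree `2 d R`; a term `v^J ρ^I` goes to `v^J c' I` of `s`-degree `|J| + s + |I| - W`.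
(4) Kernel, `m > n`: `d (R + single (m-i-1) (p^i)) = d R + p^m - p^i`, weight `wtR R + p^m`.  If `wtR R + p^m > W` all terms are `0`; otherwise the sum is
`v_0^{W - d R - p^m} l (G R ∑_i v_i v_0^{p^i} g_{m-i}^{p^i}) = 0`.
(5) Values: for a polynomial `f = ∑ f_R ξ^R` of weight `≤ M` (all `wtR R ≤ M`) put `Φ_M f = ∑ f_R v_0^{M - d R} G R ∈ B`.  `Φ_{M+M'} (f f') = Φ_M f Φ_{M'} f'`,
`Φ_{p^j} (rj j) = v_0^{p^j} ρ_j` by (*) (`1 ≤ j ≤ n`, `rj j` has weight `≤ p^j`), so `Φ_{W_I} (rI I) = v_0^{W_I} ρ^I` with `W_I = ∑ I_j p^{j+1} ≤ |v^I| ≤ W`, and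
`lin x (rI I) = l (Φ_W (rI I)) = l (v_0^W ρ^I) = c I`.  (Instead of `Φ_M` one may use the algebra map `ξ_{j+1} ↦ v_0^{-(p^{j+1} - 1)} g_{j+1}` to the fraction field
of `B`, `Φ_M f = v_0^M φ f`.)
-/

set_option autoImplicit false

namespace BPN.D

open Finset

/-- `ξ_j`, `ξ_0 = 1` -/
noncomputable def xiP (n p j : ℕ) : MvPolynomial ℕ (MvPolynomial (Fin (n + 1)) (ZMod p)) :=
  if j = 0 then 1 else MvPolynomial.X (j - 1)

/-- `r_j = ∑_{i ≤ j} v_i ξ_{j-i}^{p^i}` -/
noncomputable def rj (n p j : ℕ) : MvPolynomial ℕ (MvPolynomial (Fin (n + 1)) (ZMod p)) :=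
  ∑ i ∈ univ.filter (fun i : Fin (n + 1) => (i : ℕ) ≤ j),
    MvPolynomial.C (MvPolynomial.X i) * xiP n p (j - i) ^ p ^ (i : ℕ)

/-- `r^I`, `I j` is the exponent of `r_{j+1}`. -/
noncomputable def rI (n p : ℕ) (I : Fin n →₀ ℕ) :
    MvPolynomial ℕ (MvPolynomial (Fin (n + 1)) (ZMod p)) :=
  ∏ j : Fin n, rj n p ((j : ℕ) + 1) ^ I j

/-- The `P`-linear extension of `x`. -/
noncomputable def lin {n p : ℕ} (x : (ℕ →₀ ℕ) → MvPolynomial (Fin (n + 1)) (ZMod p))
    (g : MvPolynomial ℕ (MvPolynomial (Fin (n + 1)) (ZMod p))) :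
    MvPolynomial (Fin (n + 1)) (ZMod p) := ∑ R ∈ g.support, g.coeff R * x R

section aux

open MvPolynomial

variable {n p : ℕ}

/-- `F_p[v]` -/
private abbrev PA (n p : ℕ) : Type := MvPolynomial (Fin (n + 1)) (ZMod p)

/-- `F_p[v][ρ]` -/
private abbrev PB (n p : ℕ) : Type := MvPolynomial (Fin n) (PA n p)

/-- the linear map with prescribed values on monomials -/
private noncomputable def ev {σ R : Type} [CommRing R] (c : (σ →₀ ℕ) → R) :
    MvPolynomial σ R →ₗ[R] R := (MvPolynomial.basisMonomials σ R).constr R c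

private lemma ev_monomial {σ R : Type} [CommRing R] (c : (σ →₀ ℕ) → R) (I : σ →₀ ℕ) (r : R) :
    ev c (monomial I r) = r * c I := by
  have h1 : ev c (monomial I 1) = c I := by
    have h := (MvPolynomial.basisMonomials σ R).constr_basis R c I
    rw [MvPolynomial.coe_basisMonomials] at h
    exact h
  have h2 : monomial I r = r • monomial I (1 : R) := by
    rw [smul_monomial, smul_eq_mul, mul_one]
  rw [h2, map_smul, h1, smul_eq_mul]

private lemma ev_eq_sum {σ R : Type} [CommRing R] (c : (σ →₀ ℕ) → R) (g : MvPolynomial σ R) :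
    ev c g = ∑ I ∈ g.support, g.coeff I * c I := by
  conv_lhs => rw [g.as_sum]
  rw [map_sum]
  exact Finset.sum_congr rfl fun I _ => ev_monomial c I _

private lemma lin_eq (x : (ℕ →₀ ℕ) → PA n p) (g : MvPolynomial ℕ (PA n p)) :
    lin x g = ev x g := (ev_eq_sum x g).symm

/-! Weights. -/

private lemma wa_add {X : Type} (w : X → ℕ) (a b : X →₀ ℕ) : wa w (a + b) = wa w a + wa w b := by
  unfold wa
  refine Finsupp.sum_add_index' (fun x => by simp) (fun x r s => by ring)

private lemma wa_zero {X : Type} (w : X → ℕ) : wa w 0 = 0 := Finsupp.sum_zero_index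

private lemma wa_single {X : Type} (w : X → ℕ) (x : X) (r : ℕ) :
    wa w (Finsupp.single x r) = r * w x := Finsupp.sum_single_index (by simp)

private lemma wa_one {X : Type} (a : X →₀ ℕ) : wa (fun _ => 1) a = a.sum fun _ r => r := by
  unfold wa
  simp only [mul_one]

private lemma wa_mono {X : Type} (w w' : X → ℕ) (h : ∀ x, w x ≤ w' x) (a : X →₀ ℕ) :
    wa w a ≤ wa w' a := Finset.sum_le_sum fun x _ => Nat.mul_le_mul_left _ (h x)

/-- homogeneous elements of `F_p[v][ρ]` -/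
private def HB (α : Fin (n + 1) → ℕ) (β : Fin n → ℕ) (m : ℕ) (g : PB n p) : Prop :=
  ∀ I J, (g.coeff I).coeff J ≠ 0 → wa α J + wa β I = m

variable {α : Fin (n + 1) → ℕ} {β : Fin n → ℕ} {m m' : ℕ}

private lemma HB.zero : HB α β m (0 : PB n p) := by
  intro I J h
  rw [coeff_zero, coeff_zero] at h
  exact absurd rfl h

private lemma HB.add {g g' : PB n p} (hg : HB α β m g) (hg' : HB α β m g') :
    HB α β m (g + g') := by
  intro I J h
  rw [coeff_add, coeff_add] at h
  by_cases h1 : (g.coeff I).coeff J = 0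
  · rw [h1, zero_add] at h
    exact hg' I J h
  · exact hg I J h1

private lemma HB.neg {g : PB n p} (hg : HB α β m g) : HB α β m (-g) := by
  intro I J h
  rw [coeff_neg, coeff_neg, neg_ne_zero] at h
  exact hg I J h

private lemma HB.sub {g g' : PB n p} (hg : HB α β m g) (hg' : HB α β m g') :
    HB α β m (g - g') := by
  rw [sub_eq_add_neg]
  exact hg.add hg'.neg

private lemma HB.sum {ι : Type} (S : Finset ι) {g : ι → PB n p} (hg : ∀ i ∈ S, HB α β m (g i)) :
    HB α β m (∑ i ∈ S, g i) := by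
  classical
  induction S using Finset.induction_on with
  | empty =>
    rw [Finset.sum_empty]
    exact HB.zero
  | insert a S ha ih =>
    rw [Finset.sum_insert ha]
    exact (hg a (Finset.mem_insert_self a S)).add
      (ih fun i hi => hg i (Finset.mem_insert_of_mem hi))

private lemma HB.one : HB α β 0 (1 : PB n p) := by
  classical
  intro I J h
  rw [coeff_one] at h
  by_cases hI : 0 = I
  · rw [if_pos hI, coeff_one] at h
    by_cases hJ : 0 = J
    · rw [← hI, ← hJ, wa_zero, wa_zero]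
    · rw [if_neg hJ] at h
      exact absurd rfl h
  · rw [if_neg hI, coeff_zero] at h
    exact absurd rfl h

private lemma HB.mul {g g' : PB n p} (hg : HB α β m g) (hg' : HB α β m' g') :
    HB α β (m + m') (g * g') := by
  classical
  intro I J h
  rw [coeff_mul, coeff_sum] at h
  obtain ⟨x, hx, h1⟩ := Finset.exists_ne_zero_of_sum_ne_zero h
  rw [coeff_mul] at h1
  obtain ⟨y, hy, h2⟩ := Finset.exists_ne_zero_of_sum_ne_zero h1
  have h3 := hg x.1 y.1 (left_ne_zero_of_mul h2)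
  have h4 := hg' x.2 y.2 (right_ne_zero_of_mul h2)
  rw [HasAntidiagonal.mem_antidiagonal] at hx hy
  rw [← hx, ← hy, wa_add, wa_add, ← h3, ← h4]
  ring

private lemma HB.pow {g : PB n p} (hg : HB α β m g) (r : ℕ) : HB α β (r * m) (g ^ r) := by
  induction r with
  | zero =>
    rw [pow_zero, zero_mul]
    exact HB.one
  | succ r ih =>
    rw [pow_succ, Nat.succ_mul]
    exact ih.mul hg

private lemma HB.CX (t : Fin (n + 1)) : HB α β (α t) (C (X t) : PB n p) := by
  classical
  intro I J h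
  rw [coeff_C] at h
  by_cases hI : 0 = I
  · rw [if_pos hI, coeff_X] at h
    by_cases hJ : Finsupp.single t 1 = J
    · rw [← hI, ← hJ, wa_zero, wa_single, one_mul, add_zero]
    · rw [if_neg hJ] at h
      exact absurd rfl h
  · rw [if_neg hI, coeff_zero] at h
    exact absurd rfl h

private lemma HB.X (j : Fin n) : HB α β (β j) (X j : PB n p) := by
  classical
  intro I J h
  rw [coeff_X] at h
  by_cases hI : Finsupp.single j 1 = I
  · rw [if_pos hI, coeff_one] at h
    by_cases hJ : 0 = J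
    · rw [← hI, ← hJ, wa_zero, wa_single, one_mul, zero_add]
    · rw [if_neg hJ] at h
      exact absurd rfl h
  · rw [if_neg hI, coeff_zero] at h
    exact absurd rfl h

/-- `g_j` -/
private noncomputable def gg (n p : ℕ) (j : ℕ) : PB n p :=
  if j = 0 then 1 else
  (if h : j - 1 < n then C (X 0) ^ (p ^ j - 2) * (X ⟨j - 1, h⟩ - C (X (Fin.succ ⟨j - 1, h⟩)))
    else 0) -
  ∑ i : Fin n, if h : (i : ℕ) + 1 < j then
    C (X i.succ) * C (X 0) ^ (p ^ ((i : ℕ) + 1) - 2) *
      gg n p (j - ((i : ℕ) + 1)) ^ p ^ ((i : ℕ) + 1) else 0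
termination_by j

private lemma gg_zero : gg n p 0 = 1 := by
  rw [gg, if_pos rfl]

private lemma pw_ge [Fact p.Prime] {j : ℕ} (hj : j ≠ 0) : 2 ≤ p ^ j := by
  have h1 : 2 ≤ p := (Fact.out : p.Prime).two_le
  calc 2 ≤ p := h1
    _ = p ^ 1 := (pow_one p).symm
    _ ≤ p ^ j := Nat.pow_le_pow_right (by omega) (Nat.one_le_iff_ne_zero.2 hj)

/-- `(*)` -/
private lemma star [Fact p.Prime] {j : ℕ} (hj : j ≠ 0) :
    (∑ i : Fin (n + 1), if (i : ℕ) ≤ j then
      C (X i) * (C (X 0) ^ p ^ (i : ℕ) * gg n p (j - i) ^ p ^ (i : ℕ)) else 0) =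
      if h : j - 1 < n then C (X 0) ^ p ^ j * X ⟨j - 1, h⟩ else (0 : PB n p) := by
  have hp := (Fact.out : p.Prime).two_le
  rw [Fin.sum_univ_succ]
  have h0 : (if ((0 : Fin (n + 1)) : ℕ) ≤ j then
      C (X 0) * (C (X 0) ^ p ^ ((0 : Fin (n + 1)) : ℕ) *
        gg n p (j - ((0 : Fin (n + 1)) : ℕ)) ^ p ^ ((0 : Fin (n + 1)) : ℕ)) else (0 : PB n p)) =
      C (X 0) ^ 2 * gg n p j := by
    rw [Fin.val_zero, if_pos (Nat.zero_le j), pow_zero, pow_one, pow_one, Nat.sub_zero]
    ring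
  rw [h0, gg, if_neg hj, mul_sub, Finset.mul_sum]
  have h1 : ∀ i : Fin n, (C (X 0) ^ 2 * (if h : (i : ℕ) + 1 < j then
      C (X i.succ) * C (X 0) ^ (p ^ ((i : ℕ) + 1) - 2) *
      gg n p (j - ((i : ℕ) + 1)) ^ p ^ ((i : ℕ) + 1) else 0) : PB n p) =
      (if ((i.succ : Fin (n + 1)) : ℕ) ≤ j then
        C (X i.succ) * (C (X 0) ^ p ^ ((i.succ : Fin (n + 1)) : ℕ) *
          gg n p (j - ((i.succ : Fin (n + 1)) : ℕ)) ^ p ^ ((i.succ : Fin (n + 1)) : ℕ)) else 0) -
      (if (i : ℕ) = j - 1 then C (X i.succ) * C (X 0) ^ p ^ j else 0) := by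
    intro i
    rw [Fin.val_succ]
    rcases lt_trichotomy ((i : ℕ) + 1) j with h | h | h
    · rw [dif_pos h, if_pos h.le, if_neg (by omega), sub_zero]
      have h2 : (C (X 0) : PB n p) ^ p ^ ((i : ℕ) + 1) =
          C (X 0) ^ 2 * C (X 0) ^ (p ^ ((i : ℕ) + 1) - 2) := by
        rw [← pow_add]
        congr 1
        have := pw_ge (p := p) (Nat.succ_ne_zero (i : ℕ))
        rw [Nat.succ_eq_add_one] at this
        omega
      rw [h2]
      ring
    · rw [dif_neg (by omega), if_pos h.le, if_pos (by omega), h, Nat.sub_self, gg_zero, one_pow,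
        mul_one, sub_self, mul_zero]
    · rw [dif_neg (by omega), if_neg (by omega), if_neg (by omega), sub_self, mul_zero]
  rw [Finset.sum_congr rfl fun i _ => h1 i, Finset.sum_sub_distrib]
  by_cases h : j - 1 < n
  · rw [dif_pos h, dif_pos h]
    have h2 : (∑ i : Fin n, (if (i : ℕ) = j - 1 then
        C (X i.succ) * C (X 0) ^ p ^ j else (0 : PB n p))) =
        C (X (Fin.succ ⟨j - 1, h⟩)) * C (X 0) ^ p ^ j := by
      rw [Finset.sum_eq_single (⟨j - 1, h⟩ : Fin n)]
      · rw [if_pos rfl]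
      · intro i _ hi
        rw [if_neg]
        intro h3
        exact hi (Fin.ext h3)
      · intro h3
        exact absurd (Finset.mem_univ _) h3
    rw [h2]
    have h3 : (C (X 0) : PB n p) ^ p ^ j = C (X 0) ^ 2 * C (X 0) ^ (p ^ j - 2) := by
      rw [← pow_add]
      congr 1
      have := pw_ge (p := p) hj
      omega
    rw [h3]
    ring
  · rw [dif_neg h, dif_neg h]
    have h2 : (∑ i : Fin n, (if (i : ℕ) = j - 1 then
        C (X i.succ) * C (X 0) ^ p ^ j else (0 : PB n p))) = 0 := by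
      refine Finset.sum_eq_zero fun i _ => ?_
      rw [if_neg]
      intro h3
      exact h (h3 ▸ i.2)
    rw [h2]
    ring

private lemma HB.cast {g : PB n p} (h : m = m') (hg : HB α β m g) : HB α β m' g := by
  subst h
  exact hg

/-- The weights `a + b (p^t - 1)`. -/
private lemma gg_HB [Fact p.Prime] {a b : ℕ} (hα : ∀ t, α t = a + b * (p ^ (t : ℕ) - 1))
    (hβ : ∀ t, β t = a + b * (p ^ ((t : ℕ) + 1) - 1)) (j : ℕ) :
    HB α β ((a + b) * (p ^ j - 1)) (gg n p j) := by
  have hp := (Fact.out : p.Prime).two_le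
  have hα0 : α 0 = a := by
    rw [hα, Fin.val_zero, pow_zero, Nat.sub_self, mul_zero, add_zero]
  induction j using Nat.strong_induction_on with
  | _ j ih =>
    by_cases hj : j = 0
    · subst hj
      rw [gg_zero, pow_zero, Nat.sub_self, mul_zero]
      exact HB.one
    · rw [gg, if_neg hj]
      refine HB.sub ?_ (HB.sum _ fun i _ => ?_)
      · by_cases h : j - 1 < n
        · rw [dif_pos h]
          have h2 := pw_ge (p := p) hj
          obtain ⟨q, hq⟩ := Nat.exists_eq_add_of_le h2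
          have h4 : j - 1 + 1 = j := by omega
          have h10 : β ⟨j - 1, h⟩ = a + b * (p ^ j - 1) := by
            rw [hβ]
            change a + b * (p ^ (j - 1 + 1) - 1) = _
            rw [h4]
          have h11 : α (Fin.succ ⟨j - 1, h⟩) = a + b * (p ^ j - 1) := by
            rw [hα, Fin.val_succ]
            change a + b * (p ^ (j - 1 + 1) - 1) = _
            rw [h4]
          have hX : HB α β (a + b * (p ^ j - 1)) (X ⟨j - 1, h⟩ : PB n p) :=
            HB.cast h10 (HB.X _)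
          have hC : HB α β (a + b * (p ^ j - 1)) (C (X (Fin.succ ⟨j - 1, h⟩)) : PB n p) :=
            HB.cast h11 (HB.CX _)
          have hV : HB α β ((p ^ j - 2) * a) ((C (X 0) : PB n p) ^ (p ^ j - 2)) :=
            HB.cast (by rw [hα0]) ((HB.CX 0).pow _)
          refine HB.cast ?_ (hV.mul (hX.sub hC))
          rw [hq]
          have h5 : 2 + q - 2 = q := by omega
          have h6 : 2 + q - 1 = q + 1 := by omega
          rw [h5, h6]
          ring
        · rw [dif_neg h]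
          exact HB.zero
      · by_cases h : (i : ℕ) + 1 < j
        · rw [dif_pos h]
          have h2 := pw_ge (p := p) (Nat.succ_ne_zero (i : ℕ))
          rw [Nat.succ_eq_add_one] at h2
          obtain ⟨q, hq⟩ := Nat.exists_eq_add_of_le h2
          have hC : HB α β (a + b * (p ^ ((i : ℕ) + 1) - 1)) (C (X i.succ) : PB n p) :=
            HB.cast (by rw [hα, Fin.val_succ]) (HB.CX i.succ)
          have hV : HB α β ((p ^ ((i : ℕ) + 1) - 2) * a)
              ((C (X 0) : PB n p) ^ (p ^ ((i : ℕ) + 1) - 2)) :=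
            HB.cast (by rw [hα0]) ((HB.CX 0).pow _)
          have h3 := (hC.mul hV).mul ((ih (j - ((i : ℕ) + 1)) (by omega)).pow
                (p ^ ((i : ℕ) + 1)))
          refine HB.cast ?_ h3
          have h4 : p ^ j = p ^ ((i : ℕ) + 1) * p ^ (j - ((i : ℕ) + 1)) := by
            rw [← pow_add]
            congr 1
            omega
          have h5 := pw_ge (p := p) (show j - ((i : ℕ) + 1) ≠ 0 by omega)
          obtain ⟨r, hr⟩ := Nat.exists_eq_add_of_le h5
          rw [h4, hr, hq]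
          have h6 : 2 + q - 2 = q := by omega
          have h7 : 2 + q - 1 = q + 1 := by omega
          have h8 : 2 + r - 1 = r + 1 := by omega
          have h9 : (2 + q) * (2 + r) - 1 = 2 * r + 2 * q + q * r + 3 := by
            have : (2 + q) * (2 + r) = 2 * r + 2 * q + q * r + 4 := by ring
            omega
          rw [h6, h7, h8, h9]
          ring
        · rw [dif_neg h]
          exact HB.zero

/-- `G R` -/
private noncomputable def GR (n p : ℕ) (R : ℕ →₀ ℕ) : PB n p :=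
  ∏ j ∈ R.support, gg n p (j + 1) ^ R j

private lemma GR_add (R S : ℕ →₀ ℕ) : GR n p (R + S) = GR n p R * GR n p S :=
  Finsupp.prod_add_index' (h := fun j r => gg n p (j + 1) ^ r) (fun _ => pow_zero _)
    (fun _ _ _ => pow_add _ _ _)

private lemma GR_single (j r : ℕ) : GR n p (Finsupp.single j r) = gg n p (j + 1) ^ r :=
  Finsupp.prod_single_index (h := fun j r => gg n p (j + 1) ^ r) (pow_zero _)

private lemma GR_HB [Fact p.Prime] {a b : ℕ} (hα : ∀ t, α t = a + b * (p ^ (t : ℕ) - 1))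
    (hβ : ∀ t, β t = a + b * (p ^ ((t : ℕ) + 1) - 1)) (R : ℕ →₀ ℕ) :
    HB α β ((a + b) * wa (fun j => p ^ (j + 1) - 1) R) (GR n p R) := by
  induction R using Finsupp.induction with
  | zero =>
    have h1 : GR n p (0 : ℕ →₀ ℕ) = 1 := Finset.prod_empty
    rw [h1, wa_zero, mul_zero]
    exact HB.one
  | single_add j r R _ _ ih =>
    rw [GR_add, GR_single, wa_add, wa_single]
    refine HB.cast ?_ (((gg_HB hα hβ (j + 1)).pow r).mul ih)
    ring

/-- coefficients of the values of `ev` -/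
private lemma ev_coeff (cc : (Fin n →₀ ℕ) → PA n p) {m s W : ℕ}
    (hcc : ∀ I J, (cc I).coeff J ≠ 0 → wa α J + W = s + wa β I) {g : PB n p}
    (hg : HB α β m g) (J : Fin (n + 1) →₀ ℕ) (h : (ev cc g).coeff J ≠ 0) :
    wa α J + W = m + s := by
  classical
  rw [ev_eq_sum, coeff_sum] at h
  obtain ⟨I, _, h1⟩ := Finset.exists_ne_zero_of_sum_ne_zero h
  rw [coeff_mul] at h1
  obtain ⟨y, hy, h2⟩ := Finset.exists_ne_zero_of_sum_ne_zero h1
  rw [HasAntidiagonal.mem_antidiagonal] at hy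
  have h3 := hg I y.1 (left_ne_zero_of_mul h2)
  have h4 := hcc I y.2 (right_ne_zero_of_mul h2)
  rw [← hy, wa_add]
  omega

/-! Weights of polynomials in the `ξ_j`. -/

private def WB (M : ℕ) (f : MvPolynomial ℕ (PA n p)) : Prop :=
  ∀ R, f.coeff R ≠ 0 → wa (fun j => p ^ (j + 1)) R ≤ M

private lemma WB.mono {M M' : ℕ} (h : M ≤ M') {f : MvPolynomial ℕ (PA n p)} (hf : WB M f) :
    WB M' f := fun R hR => (hf R hR).trans h

private lemma WB.mul {M M' : ℕ} {f f' : MvPolynomial ℕ (PA n p)} (hf : WB M f) (hf' : WB M' f') :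
    WB (M + M') (f * f') := by
  classical
  intro R h
  rw [coeff_mul] at h
  obtain ⟨x, hx, h1⟩ := Finset.exists_ne_zero_of_sum_ne_zero h
  rw [HasAntidiagonal.mem_antidiagonal] at hx
  have h2 := hf x.1 (left_ne_zero_of_mul h1)
  have h3 := hf' x.2 (right_ne_zero_of_mul h1)
  rw [← hx, wa_add]
  omega

private lemma WB.C (a : PA n p) : WB 0 (C a : MvPolynomial ℕ (PA n p)) := by
  classical
  intro R h
  rw [coeff_C] at h
  by_cases hR : 0 = R
  · rw [← hR, wa_zero]
  · rw [if_neg hR] at h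
    exact absurd rfl h

private lemma WB.one : WB 0 (1 : MvPolynomial ℕ (PA n p)) := by
  have h := WB.C (n := n) (p := p) 1
  rwa [MvPolynomial.C_1] at h

private lemma WB.pow {M : ℕ} {f : MvPolynomial ℕ (PA n p)} (hf : WB M f) (r : ℕ) :
    WB (r * M) (f ^ r) := by
  induction r with
  | zero =>
    rw [pow_zero, zero_mul]
    exact WB.one
  | succ r ih =>
    rw [pow_succ, Nat.succ_mul]
    exact ih.mul hf

private lemma WB.sum {ι : Type} {M : ℕ} (S : Finset ι) {f : ι → MvPolynomial ℕ (PA n p)}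
    (hf : ∀ i ∈ S, WB M (f i)) : WB M (∑ i ∈ S, f i) := by
  intro R h
  rw [coeff_sum] at h
  obtain ⟨i, hi, h1⟩ := Finset.exists_ne_zero_of_sum_ne_zero h
  exact hf i hi R h1

private lemma WB.prod {ι : Type} (S : Finset ι) {M : ι → ℕ} {f : ι → MvPolynomial ℕ (PA n p)}
    (hf : ∀ i ∈ S, WB (M i) (f i)) : WB (∑ i ∈ S, M i) (∏ i ∈ S, f i) := by
  classical
  induction S using Finset.induction_on with
  | empty =>
    rw [Finset.sum_empty, Finset.prod_empty]
    exact WB.one
  | insert a S ha ih =>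
    rw [Finset.sum_insert ha, Finset.prod_insert ha]
    exact (hf a (Finset.mem_insert_self a S)).mul
      (ih fun i hi => hf i (Finset.mem_insert_of_mem hi))

private lemma WB.xiP (t : ℕ) : WB (p ^ t) (xiP n p t) := by
  classical
  unfold BPN.D.xiP
  by_cases ht : t = 0
  · rw [if_pos ht]
    exact WB.one.mono (Nat.zero_le _)
  · rw [if_neg ht]
    intro R h
    rw [coeff_X] at h
    by_cases hR : Finsupp.single (t - 1) 1 = R
    · have h1 : t - 1 + 1 = t := by omega
      rw [← hR, wa_single, one_mul, h1]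
    · rw [if_neg hR] at h
      exact absurd rfl h

private lemma WB.rj (j : ℕ) : WB (p ^ j) (rj n p j) := by
  unfold BPN.D.rj
  refine WB.sum _ fun i hi => ?_
  rw [Finset.mem_filter] at hi
  have h1 := (WB.C (n := n) (p := p) (MvPolynomial.X i)).mul ((WB.xiP (n := n) (p := p)
    (j - i)).pow (p ^ (i : ℕ)))
  refine h1.mono ?_
  rw [zero_add, ← pow_add, Nat.add_sub_cancel' hi.2]

private lemma WB.rI (I : Fin n →₀ ℕ) : WB (∑ j, I j * p ^ ((j : ℕ) + 1)) (rI n p I) :=
  WB.prod _ fun j _ => (WB.rj ((j : ℕ) + 1)).pow (I j)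

private lemma ev_C_mul {σ R : Type} [CommRing R] (c : (σ →₀ ℕ) → R) (a : R)
    (g : MvPolynomial σ R) : ev c (C a * g) = a * ev c g := by
  rw [C_mul', map_smul, smul_eq_mul]

private lemma wa_mul {X : Type} (w : X → ℕ) (e : ℕ) (a : X →₀ ℕ) :
    wa (fun x => e * w x) a = e * wa w a := by
  unfold wa Finsupp.sum
  rw [Finset.mul_sum]
  exact Finset.sum_congr rfl fun x _ => by ring

private lemma wa_fintype {X : Type} [Fintype X] (w : X → ℕ) (a : X →₀ ℕ) :
    wa w a = ∑ x, a x * w x := Finsupp.sum_fintype _ _ (fun x => by simp)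

/-- the map to the fraction field -/
private noncomputable def phi (n p : ℕ) [Fact p.Prime] :
    MvPolynomial ℕ (PA n p) →+* FractionRing (PB n p) :=
  eval₂Hom ((algebraMap (PB n p) (FractionRing (PB n p))).comp C)
    (fun j => (algebraMap (PB n p) (FractionRing (PB n p)) (C (X 0)))⁻¹ ^ (p ^ (j + 1) - 1) *
      algebraMap (PB n p) (FractionRing (PB n p)) (gg n p (j + 1)))

private lemma u_ne [Fact p.Prime] :
    algebraMap (PB n p) (FractionRing (PB n p)) (C (X 0)) ≠ 0 := by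
  intro h
  rw [FaithfulSMul.algebraMap_eq_zero_iff] at h
  exact X_ne_zero (0 : Fin (n + 1)) (C_injective (Fin n) (PA n p) (h.trans (map_zero C).symm))

private lemma phi_xiP [Fact p.Prime] (t : ℕ) : phi n p (xiP n p t) =
    (algebraMap (PB n p) (FractionRing (PB n p)) (C (X 0)))⁻¹ ^ (p ^ t - 1) *
      algebraMap (PB n p) (FractionRing (PB n p)) (gg n p t) := by
  unfold xiP
  by_cases ht : t = 0
  · rw [if_pos ht, ht, map_one, gg_zero, map_one, pow_zero, Nat.sub_self, pow_zero, mul_one]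
  · have h1 : t - 1 + 1 = t := by omega
    rw [if_neg ht]
    unfold phi
    rw [coe_eval₂Hom, eval₂_X, h1]

private lemma phi_rj [Fact p.Prime] (j : Fin n) : phi n p (rj n p ((j : ℕ) + 1)) =
    algebraMap (PB n p) (FractionRing (PB n p)) (X j) := by
  have hu := u_ne (n := n) (p := p)
  have h1 : algebraMap (PB n p) (FractionRing (PB n p)) (C (X 0)) ^ p ^ ((j : ℕ) + 1) *
      phi n p (rj n p ((j : ℕ) + 1)) = algebraMap (PB n p) (FractionRing (PB n p))
        (∑ i : Fin (n + 1), if (i : ℕ) ≤ (j : ℕ) + 1 then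
          C (X i) * (C (X 0) ^ p ^ (i : ℕ) * gg n p ((j : ℕ) + 1 - i) ^ p ^ (i : ℕ)) else 0) := by
    unfold rj
    rw [Finset.sum_filter, map_sum, map_sum, Finset.mul_sum]
    refine Finset.sum_congr rfl fun i _ => ?_
    by_cases hi : (i : ℕ) ≤ (j : ℕ) + 1
    · rw [if_pos hi, if_pos hi, map_mul, map_pow, phi_xiP, map_mul, map_mul, map_pow, map_pow]
      have h2 : phi n p (C (X i)) = algebraMap (PB n p) (FractionRing (PB n p)) (C (X i)) := by
        unfold phi
        rw [coe_eval₂Hom, eval₂_C]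
        rfl
      rw [h2, mul_pow, ← pow_mul]
      have h3 : p ^ ((j : ℕ) + 1) = p ^ (i : ℕ) + (p ^ ((j : ℕ) + 1 - i) - 1) * p ^ (i : ℕ) := by
        have h4 : p ^ ((j : ℕ) + 1) = p ^ ((j : ℕ) + 1 - i) * p ^ (i : ℕ) := by
          rw [← pow_add, Nat.sub_add_cancel hi]
        have h5 : 0 < p ^ ((j : ℕ) + 1 - i) := Nat.pow_pos (Fact.out : p.Prime).pos
        obtain ⟨q, hq⟩ := Nat.exists_eq_add_of_lt h5
        rw [h4, hq]
        have h6 : 0 + q + 1 - 1 = q := by omega
        rw [h6]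
        ring
      have h7 : algebraMap (PB n p) (FractionRing (PB n p)) (C (X 0)) ^ p ^ ((j : ℕ) + 1) *
          (algebraMap (PB n p) (FractionRing (PB n p)) (C (X 0)))⁻¹ ^
            ((p ^ ((j : ℕ) + 1 - i) - 1) * p ^ (i : ℕ)) =
          algebraMap (PB n p) (FractionRing (PB n p)) (C (X 0)) ^ p ^ (i : ℕ) := by
        conv_lhs => rw [h3]
        rw [pow_add, mul_assoc, ← mul_pow, mul_inv_cancel₀ hu, one_pow, mul_one]
      rw [← h7]
      ring
    · rw [if_neg hi, if_neg hi, map_zero, map_zero, mul_zero]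
  rw [star (Nat.succ_ne_zero _)] at h1
  have h2 : (j : ℕ) + 1 - 1 < n := by
    have := j.2
    omega
  rw [dif_pos h2, map_mul, map_pow] at h1
  exact mul_left_cancel₀ (pow_ne_zero _ hu) h1

private lemma phi_rI [Fact p.Prime] (I : Fin n →₀ ℕ) : phi n p (rI n p I) =
    algebraMap (PB n p) (FractionRing (PB n p)) (monomial I 1) := by
  unfold rI
  rw [map_prod, monomial_eq, map_mul, map_one, map_one, one_mul, Finsupp.prod_fintype _ _
    (fun i => pow_zero _), map_prod]
  exact Finset.prod_congr rfl fun j _ => by rw [map_pow, phi_rj, map_pow]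

/-- `Φ_W f` for `f` of weight `≤ W` -/
private lemma phi_eq [Fact p.Prime] {W : ℕ} {f : MvPolynomial ℕ (PA n p)} (hf : WB W f) :
    algebraMap (PB n p) (FractionRing (PB n p)) (∑ R ∈ f.support, C (f.coeff R) *
      (C (X 0) ^ (W - wa (fun j => p ^ (j + 1) - 1) R) * GR n p R)) =
    algebraMap (PB n p) (FractionRing (PB n p)) (C (X 0)) ^ W * phi n p f := by
  have hu := u_ne (n := n) (p := p)
  unfold phi
  rw [coe_eval₂Hom, eval₂_eq, map_sum, Finset.mul_sum]
  refine Finset.sum_congr rfl fun R hR => ?_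
  rw [mem_support_iff] at hR
  have h1 := hf R hR
  have h2 : wa (fun j => p ^ (j + 1) - 1) R ≤ wa (fun j => p ^ (j + 1)) R :=
    wa_mono _ _ (fun j => Nat.sub_le _ _) R
  rw [map_mul, map_mul, map_pow]
  unfold GR
  rw [map_prod]
  have h3 : (∏ i ∈ R.support, ((algebraMap (PB n p) (FractionRing (PB n p)) (C (X 0)))⁻¹ ^
      (p ^ (i + 1) - 1) * algebraMap (PB n p) (FractionRing (PB n p)) (gg n p (i + 1))) ^ R i) =
      (algebraMap (PB n p) (FractionRing (PB n p)) (C (X 0)))⁻¹ ^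
        (wa (fun j => p ^ (j + 1) - 1) R) *
      ∏ i ∈ R.support, algebraMap (PB n p) (FractionRing (PB n p)) (gg n p (i + 1) ^ R i) := by
    unfold wa Finsupp.sum
    rw [← Finset.prod_pow_eq_pow_sum, ← Finset.prod_mul_distrib]
    refine Finset.prod_congr rfl fun i _ => ?_
    rw [mul_pow, ← pow_mul, mul_comm (p ^ (i + 1) - 1), map_pow]
  rw [h3]
  have h4 : algebraMap (PB n p) (FractionRing (PB n p)) (C (X 0)) ^ W =
      algebraMap (PB n p) (FractionRing (PB n p)) (C (X 0)) ^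
        (W - wa (fun j => p ^ (j + 1) - 1) R) *
      algebraMap (PB n p) (FractionRing (PB n p)) (C (X 0)) ^
        (wa (fun j => p ^ (j + 1) - 1) R) := by
    rw [← pow_add, Nat.sub_add_cancel (h2.trans h1)]
  have h5 : algebraMap (PB n p) (FractionRing (PB n p)) (C (X 0)) ^
        (wa (fun j => p ^ (j + 1) - 1) R) *
      (algebraMap (PB n p) (FractionRing (PB n p)) (C (X 0)))⁻¹ ^
        (wa (fun j => p ^ (j + 1) - 1) R) = 1 := by
    rw [← mul_pow, mul_inv_cancel₀ hu, one_pow]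
  rw [h4]
  rw [RingHom.comp_apply]
  linear_combination (-(algebraMap (PB n p) (FractionRing (PB n p)) (C (X 0)) ^
        (W - wa (fun j => p ^ (j + 1) - 1) R) *
      algebraMap (PB n p) (FractionRing (PB n p)) (C (coeff R f)) *
      ∏ i ∈ R.support, algebraMap (PB n p) (FractionRing (PB n p)) (gg n p (i + 1) ^ R i))) * h5

private lemma Phi_rI [Fact p.Prime] {W : ℕ} (I : Fin n →₀ ℕ) (hf : WB W (rI n p I)) :
    (∑ R ∈ (rI n p I).support, C ((rI n p I).coeff R) *
      (C (X 0) ^ (W - wa (fun j => p ^ (j + 1) - 1) R) * GR n p R)) =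
    (C (X 0) ^ W * monomial I 1 : PB n p) := by
  apply FaithfulSMul.algebraMap_injective (PB n p) (FractionRing (PB n p))
  rw [phi_eq hf, phi_rI, map_mul, map_pow]

end aux

theorem PRES (n p : ℕ) [Fact p.Prime] (k : ℕ) : ∃ s₀ : ℕ, ∀ s, s₀ ≤ s →
    ∀ c : (Fin n →₀ ℕ) → MvPolynomial (Fin (n + 1)) (ZMod p),
    (∀ I J, (c I).coeff J ≠ 0 → (J.sum fun _ r => r) = s + (I.sum fun _ r => r) ∧
      (J.sum fun t r => r * (2 * (p ^ (t : ℕ) - 1))) =
        I.sum fun j r => r * (2 * (p ^ ((j : ℕ) + 1) - 1))) →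
    ∃ x : (ℕ →₀ ℕ) → MvPolynomial (Fin (n + 1)) (ZMod p),
      (∀ R J, (x R).coeff J ≠ 0 → (J.sum fun _ r => r) = s ∧
        (J.sum fun t r => r * (2 * (p ^ (t : ℕ) - 1))) =
          R.sum fun j r => r * (2 * (p ^ (j + 1) - 1))) ∧
      (∀ m, n < m → ∀ R, ∑ i : Fin (n + 1), MvPolynomial.X i *
        x (R + Finsupp.single (m - i - 1) (p ^ (i : ℕ))) = 0) ∧
      ∀ I : Fin n →₀ ℕ, (I.sum fun j r => r * (2 * (p ^ ((j : ℕ) + 1) - 1))) ≤ 2 * k →
        lin x (rI n p I) = c I := by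
  classical
  have hp2 : 2 ≤ p := (Fact.out : p.Prime).two_le
  refine ⟨3 * k, fun s hs c hc => ?_⟩
  obtain ⟨W, hW⟩ : ∃ W, W = 2 * k := ⟨_, rfl⟩
  have hc' : ∀ I J, (c I).coeff J ≠ 0 → wa (fun _ => 1) J = s + wa (fun _ => 1) I ∧
      wa (fun t : Fin (n + 1) => 2 * (p ^ (t : ℕ) - 1)) J =
        wa (fun j : Fin n => 2 * (p ^ ((j : ℕ) + 1) - 1)) I := by
    intro I J h
    rw [wa_one, wa_one]
    exact hc I J h
  have key : ∀ I, wa (fun j : Fin n => 2 * (p ^ ((j : ℕ) + 1) - 1)) I ≤ W →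
      ∀ J, (c I).coeff J ≠ 0 → W ≤ J 0 := by
    intro I hI J h
    obtain ⟨h1, h2⟩ := hc' I J h
    rw [← h2, wa_fintype, Fin.sum_univ_succ] at hI
    rw [wa_fintype, Fin.sum_univ_succ] at h1
    have h3 : 2 * ∑ i : Fin n, J i.succ * 1 ≤
        ∑ i : Fin n, J i.succ * (2 * (p ^ ((i.succ : Fin (n + 1)) : ℕ) - 1)) := by
      rw [Finset.mul_sum]
      refine Finset.sum_le_sum fun i _ => ?_
      have h4 := pw_ge (p := p) (Nat.succ_ne_zero (i : ℕ))
      rw [Fin.val_succ]
      rw [Nat.succ_eq_add_one] at h4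
      have h5 : 1 ≤ p ^ ((i : ℕ) + 1) - 1 := by omega
      calc 2 * (J i.succ * 1) = J i.succ * (2 * 1) := by ring
        _ ≤ J i.succ * (2 * (p ^ ((i : ℕ) + 1) - 1)) :=
          Nat.mul_le_mul_left _ (Nat.mul_le_mul_left _ h5)
    omega
  -- the divided values
  obtain ⟨cc, hcc⟩ : ∃ cc : (Fin n →₀ ℕ) → PA n p, ∀ I, cc I =
      if wa (fun j : Fin n => 2 * (p ^ ((j : ℕ) + 1) - 1)) I ≤ W then
        MvPolynomial.divMonomial (c I) (Finsupp.single 0 W) else 0 := ⟨_, fun I => rfl⟩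
  have hccJ : ∀ I J, (cc I).coeff J ≠ 0 → (c I).coeff (Finsupp.single 0 W + J) ≠ 0 := by
    intro I J h
    rw [hcc] at h
    by_cases hI : wa (fun j : Fin n => 2 * (p ^ ((j : ℕ) + 1) - 1)) I ≤ W
    · rw [if_pos hI, MvPolynomial.coeff_divMonomial] at h
      exact h
    · rw [if_neg hI, MvPolynomial.coeff_zero] at h
      exact absurd rfl h
  have hcc1 : ∀ I J, (cc I).coeff J ≠ 0 → wa (fun _ => 1) J + W = s + wa (fun _ => 1) I := by
    intro I J h
    have h1 := (hc' I _ (hccJ I J h)).1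
    rw [wa_add, wa_single] at h1
    omega
  have hcc2 : ∀ I J, (cc I).coeff J ≠ 0 →
      wa (fun t : Fin (n + 1) => 2 * (p ^ (t : ℕ) - 1)) J + 0 =
        0 + wa (fun j : Fin n => 2 * (p ^ ((j : ℕ) + 1) - 1)) I := by
    intro I J h
    have h1 := (hc' I _ (hccJ I J h)).2
    rw [wa_add, wa_single, Fin.val_zero, pow_zero, Nat.sub_self, mul_zero, mul_zero,
      zero_add] at h1
    rw [h1, add_zero, zero_add]
  have hccW : ∀ I, wa (fun j : Fin n => 2 * (p ^ ((j : ℕ) + 1) - 1)) I ≤ W →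
      MvPolynomial.X 0 ^ W * cc I = c I := by
    intro I hI
    ext J
    rw [MvPolynomial.X_pow_eq_monomial, MvPolynomial.coeff_monomial_mul', one_mul]
    by_cases hJ : Finsupp.single 0 W ≤ J
    · rw [if_pos hJ, hcc, if_pos hI, MvPolynomial.coeff_divMonomial, add_tsub_cancel_of_le hJ]
    · rw [if_neg hJ]
      by_contra h0
      apply hJ
      rw [Finsupp.single_le_iff]
      exact key I hI J (Ne.symm h0)
  -- the function
  obtain ⟨x, hx⟩ : ∃ x : (ℕ →₀ ℕ) → PA n p, ∀ R, x R =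
      if wa (fun j => p ^ (j + 1)) R ≤ W then
        MvPolynomial.X 0 ^ (W - wa (fun j => p ^ (j + 1) - 1) R) * ev cc (GR n p R) else 0 :=
    ⟨_, fun R => rfl⟩
  have hdw : ∀ R : ℕ →₀ ℕ, wa (fun j => p ^ (j + 1) - 1) R ≤ wa (fun j => p ^ (j + 1)) R :=
    fun R => wa_mono _ _ (fun j => Nat.sub_le _ _) R
  refine ⟨x, ?_, ?_, ?_⟩
  · intro R J h
    rw [hx] at h
    by_cases hR : wa (fun j => p ^ (j + 1)) R ≤ W
    · rw [if_pos hR, MvPolynomial.coeff_mul] at h
      obtain ⟨y, hy, h1⟩ := Finset.exists_ne_zero_of_sum_ne_zero h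
      rw [HasAntidiagonal.mem_antidiagonal] at hy
      have h2 := left_ne_zero_of_mul h1
      rw [MvPolynomial.coeff_X_pow] at h2
      have h3 : Finsupp.single 0 (W - wa (fun j => p ^ (j + 1) - 1) R) = y.1 := by
        by_contra h3
        rw [if_neg h3] at h2
        exact h2 rfl
      have h4 := ev_coeff (α := fun _ => 1) (β := fun _ => 1) cc hcc1
        (GR_HB (a := 1) (b := 0) (fun t => by rw [zero_mul, add_zero])
          (fun t => by rw [zero_mul, add_zero]) R) y.2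
        (right_ne_zero_of_mul h1)
      have h5 := ev_coeff (α := fun t : Fin (n + 1) => 2 * (p ^ (t : ℕ) - 1))
        (β := fun j : Fin n => 2 * (p ^ ((j : ℕ) + 1) - 1)) cc hcc2
        (GR_HB (a := 0) (b := 2) (fun t => by rw [zero_add]) (fun t => by rw [zero_add]) R) y.2
        (right_ne_zero_of_mul h1)
      have h6 := hdw R
      constructor
      · rw [← wa_one, ← hy, wa_add, ← h3, wa_single]
        omega
      · have h7 : wa (fun t : Fin (n + 1) => 2 * (p ^ (t : ℕ) - 1)) J =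
            wa (fun j => 2 * (p ^ (j + 1) - 1)) R := by
          have h8 : wa (fun j => 2 * (p ^ (j + 1) - 1)) R =
              2 * wa (fun j => p ^ (j + 1) - 1) R := wa_mul _ 2 R
          rw [h8, ← hy, wa_add, ← h3, wa_single, Fin.val_zero, pow_zero, Nat.sub_self, mul_zero,
            mul_zero, zero_add]
          omega
        exact h7
    · rw [if_neg hR, MvPolynomial.coeff_zero] at h
      exact absurd rfl h
  · intro m hm R
    have hlt : ∀ i : Fin (n + 1), (i : ℕ) < m := fun i => by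
      have := i.2
      omega
    have hwt : ∀ i : Fin (n + 1), wa (fun j => p ^ (j + 1))
        (R + Finsupp.single (m - i - 1) (p ^ (i : ℕ))) = wa (fun j => p ^ (j + 1)) R + p ^ m := by
      intro i
      have := hlt i
      rw [wa_add, wa_single, ← pow_add]
      congr 2
      omega
    have hd : ∀ i : Fin (n + 1), wa (fun j => p ^ (j + 1) - 1)
        (R + Finsupp.single (m - i - 1) (p ^ (i : ℕ))) + p ^ (i : ℕ) =
          wa (fun j => p ^ (j + 1) - 1) R + p ^ m := by
      intro i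
      have h1 := hlt i
      have h2 : m - i - 1 + 1 = m - i := by omega
      have h3 : p ^ m = p ^ (i : ℕ) * p ^ (m - i) := by
        rw [← pow_add]
        congr 1
        omega
      have h4 : 0 < p ^ (m - (i : ℕ)) := Nat.pow_pos (by omega)
      obtain ⟨q, hq⟩ := Nat.exists_eq_add_of_lt h4
      rw [wa_add, wa_single, h2, h3, hq]
      have h6 : 0 + q + 1 - 1 = q := by omega
      rw [h6]
      ring
    by_cases hR : wa (fun j => p ^ (j + 1)) R + p ^ m ≤ W
    · have h1 : ∀ i : Fin (n + 1), MvPolynomial.X i *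
          x (R + Finsupp.single (m - i - 1) (p ^ (i : ℕ))) =
          MvPolynomial.X 0 ^ (W - wa (fun j => p ^ (j + 1) - 1) R - p ^ m) *
          ev cc (GR n p R * (if (i : ℕ) ≤ m then
            MvPolynomial.C (MvPolynomial.X i) * (MvPolynomial.C (MvPolynomial.X 0) ^ p ^ (i : ℕ) *
              gg n p (m - i) ^ p ^ (i : ℕ)) else 0)) := by
        intro i
        have h2 := hd i
        have h3 := hdw R
        have h4 : p ^ (i : ℕ) ≤ p ^ m := Nat.pow_le_pow_right (by omega) (hlt i).le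
        have h5 : W - wa (fun j => p ^ (j + 1) - 1)
            (R + Finsupp.single (m - i - 1) (p ^ (i : ℕ))) =
            (W - wa (fun j => p ^ (j + 1) - 1) R - p ^ m) + p ^ (i : ℕ) := by omega
        have h6 : m - (i : ℕ) - 1 + 1 = m - i := by
          have := hlt i
          omega
        rw [hx, if_pos (by rw [hwt]; exact hR), h5, if_pos (hlt i).le, GR_add, GR_single, h6]
        have h7 : GR n p R * (MvPolynomial.C (MvPolynomial.X i) *
            (MvPolynomial.C (MvPolynomial.X 0) ^ p ^ (i : ℕ) * gg n p (m - i) ^ p ^ (i : ℕ))) =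
            MvPolynomial.C (MvPolynomial.X i * MvPolynomial.X 0 ^ p ^ (i : ℕ)) *
              (GR n p R * gg n p (m - i) ^ p ^ (i : ℕ)) := by
          rw [map_mul, map_pow]
          ring
        rw [h7, ev_C_mul]
        ring
      rw [Finset.sum_congr rfl fun i _ => h1 i, ← Finset.mul_sum, ← map_sum, ← Finset.mul_sum,
        star (by omega : m ≠ 0), dif_neg (by omega), mul_zero, map_zero, mul_zero]
    · refine Finset.sum_eq_zero fun i _ => ?_
      rw [hx, if_neg (by rw [hwt]; exact hR), mul_zero]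
  · intro I hI
    have hI' : wa (fun j : Fin n => 2 * (p ^ ((j : ℕ) + 1) - 1)) I ≤ W := by
      rw [hW]
      exact hI
    have hWI : (∑ j, I j * p ^ ((j : ℕ) + 1)) ≤ W := by
      refine le_trans ?_ hI'
      rw [wa_fintype]
      refine Finset.sum_le_sum fun j _ => Nat.mul_le_mul_left _ ?_
      have h4 := pw_ge (p := p) (Nat.succ_ne_zero (j : ℕ))
      rw [Nat.succ_eq_add_one] at h4
      omega
    have hWB : WB W (rI n p I) := (WB.rI I).mono hWI
    have h1 := congrArg (ev cc) (Phi_rI I hWB)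
    have h2 : (MvPolynomial.C (MvPolynomial.X 0) ^ W : PB n p) =
        MvPolynomial.C (MvPolynomial.X 0 ^ W) := (map_pow _ _ _).symm
    rw [h2, ev_C_mul, ev_monomial, one_mul, hccW I hI', map_sum] at h1
    rw [← h1]
    unfold lin
    refine Finset.sum_congr rfl fun R hR => ?_
    rw [MvPolynomial.mem_support_iff] at hR
    rw [hx, if_pos (hWB R hR), ev_C_mul, ← map_pow, ev_C_mul]

end BPN.D
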