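import Pool.Agent.BPN.D.Surj
import Pool.Agent.BPN.D.Kos

/-!
# BPN, part D, module Van: the vanishing theorem (interface)

`x R E` : polynomial in `v_0, .., v_n`, the value on `ξ^R τ^E` (variable `j` of `R` is `ξ_{j+1}`).  `deg R E` = degree of `ξ^R τ^E`.
`Typ s c x`: filtration `s`, shift `c`.  `dd x R E = ∑_i v_i x (L_i (ξ^R τ^E))`, for `E ⊆ {k > n}`.
PROOF of `VAN`.  Pass to coefficients: `f E R J = coeff J (x R E)`, `f E : V ℕ n p`.  For `E ⊆ {k > n}` `coeff J (dd x R E) = kd (rr p · 0) f E R J`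
(`MvPolynomial.coeff_X_mul'`, exchange the sums over `i` and `k`; `i ≤ k` always).  `Typ s c x` says `f E ∈ GG s (-c + ∑_{k ∈ E} (2 p^k - 1))`
(`2 dJ J = ∑ J_t 2 (p^t - 1) + 2 ∑ J_t`, `deg R ∅ = 2 wtR R - 2 sz R`).
`GG σ c = 0` if `c > σ (2 p^n - 2)` (`dJ J ≤ p^n ∑ J_t`, `sz R ≤ wtR R`).  Let `K = t + n + 2`; for `k > K`: `2 p^k - 1 > (t + 1) (2 p^n - 2) + 1`.
Put `f E = 0` unless `E ⊆ Ioc n K`: for `E ⊆ {k > n}` this is automatic.  `f ∅ = 0` by parity.  `koszul` with `δ k = 2 p^k - 1`, `G = GG n p`, `c = -1`,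
`σ = t` gives `y`.  `y E ∈ GG t (∑_E δ)` has finitely many `J` for each `R` (`∑ J = t`): define polynomials with these coefficients.
`kd y E = f E` for `E ⊆ Ioc n K`; for other `E ⊆ {k > n}`: `f E = 0` and every `r_k (y (E.erase k))` with `E.erase k ⊆ Ioc n K` has `k > K` and is in
`GG (t+1) (∑_{E.erase k} δ + δ k - 1) = 0`.
-/

set_option autoImplicit false

namespace BPN.D

open Finset

/-- The degree of `ξ^R τ^E`. -/
def deg (p : ℕ) (R : ℕ →₀ ℕ) (E : Finset ℕ) : ℕ :=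
  (R.sum fun j r => r * (2 * (p ^ (j + 1) - 1))) + ∑ e ∈ E, (2 * p ^ e - 1)

/-- Type (filtration `s`, shift `c`). -/
def Typ (n p s c : ℕ) (x : (ℕ →₀ ℕ) → Finset ℕ → MvPolynomial (Fin (n + 1)) (ZMod p)) : Prop :=
  ∀ R E, (∀ k ∈ E, n < k) → ∀ J, (x R E).coeff J ≠ 0 → (J.sum fun _ r => r) = s ∧
    (J.sum fun t r => r * (2 * (p ^ (t : ℕ) - 1))) + c = deg p R E

/-- The differential. -/
noncomputable def dd (n p : ℕ)
    (x : (ℕ →₀ ℕ) → Finset ℕ → MvPolynomial (Fin (n + 1)) (ZMod p)) (R : ℕ →₀ ℕ)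
    (E : Finset ℕ) : MvPolynomial (Fin (n + 1)) (ZMod p) :=
  -∑ i : Fin (n + 1), MvPolynomial.X i * ∑ k ∈ E.filter (fun k => (i : ℕ) ≤ k),
    ((-1 : ℤ) ^ (E.filter (· < k)).card) • x (R + Finsupp.single (k - i - 1) (p ^ (i : ℕ)))
      (E.erase k)

section van

variable {n p : ℕ}

private theorem van_cast {X : Type} (hp : 1 ≤ p) (g : X → ℕ) (a : X →₀ ℕ) :
    ((a.sum fun j r => r * (2 * (p ^ (g j) - 1)) : ℕ) : ℤ) =
      2 * ((a.sum fun j r => r * p ^ (g j) : ℕ) : ℤ) - 2 * ((a.sum fun _ r => r : ℕ) : ℤ) := by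
  unfold Finsupp.sum
  push_cast
  rw [Finset.mul_sum, Finset.mul_sum, ← Finset.sum_sub_distrib]
  refine Finset.sum_congr rfl fun j _ => ?_
  rw [Nat.cast_sub (Nat.one_le_pow _ _ hp)]
  push_cast
  ring

private theorem van_deg (hp : 1 ≤ p) (R : ℕ →₀ ℕ) (E : Finset ℕ) :
    ((deg p R E : ℕ) : ℤ) = 2 * (wtR p R : ℤ) - 2 * (sz R : ℤ) + ∑ e ∈ E, (2 * (p : ℤ) ^ e - 1) := by
  unfold deg
  rw [Nat.cast_add, van_cast hp (fun j => j + 1) R]
  have h1 : ((∑ e ∈ E, (2 * p ^ e - 1) : ℕ) : ℤ) = ∑ e ∈ E, (2 * (p : ℤ) ^ e - 1) := by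
    rw [Nat.cast_sum]
    refine Finset.sum_congr rfl fun e _ => ?_
    have : 1 ≤ 2 * p ^ e := by
      have := Nat.one_le_pow e p hp
      omega
    rw [Nat.cast_sub this]
    push_cast
    ring
  have h2 : (R.sum fun _ r => r) = sz R := by
    unfold sz wa
    simp
  rw [h1, h2]
  rfl

private theorem van_dJ (hp : 1 ≤ p) (J : Fin (n + 1) →₀ ℕ) :
    ((J.sum fun t r => r * (2 * (p ^ (t : ℕ) - 1)) : ℕ) : ℤ) =
      2 * (dJ p J : ℤ) - 2 * ((J.sum fun _ r => r : ℕ) : ℤ) :=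
  van_cast hp (fun t : Fin (n + 1) => (t : ℕ)) J

private theorem van_dJ_le (hp : 1 ≤ p) (J : Fin (n + 1) →₀ ℕ) :
    dJ p J ≤ p ^ n * (J.sum fun _ r => r) := by
  unfold dJ Finsupp.sum
  rw [Finset.mul_sum]
  refine Finset.sum_le_sum fun t _ => ?_
  have ht : p ^ (t : ℕ) ≤ p ^ n := Nat.pow_le_pow_right hp (by omega)
  calc J t * p ^ (t : ℕ) ≤ J t * p ^ n := Nat.mul_le_mul_left _ ht
    _ = p ^ n * J t := mul_comm _ _

private theorem van_sz_le (hp : 1 ≤ p) (R : ℕ →₀ ℕ) : sz R ≤ wtR p R := by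
  unfold sz wtR wa Finsupp.sum
  refine Finset.sum_le_sum fun t _ => ?_
  exact Nat.mul_le_mul_left _ (Nat.one_le_pow _ _ hp)

private theorem van_zero (hp : 1 ≤ p) {σ : ℕ} {c : ℤ} {z : V ℕ n p} (hz : z ∈ GG n p σ c)
    (hc : (σ : ℤ) * (2 * (p : ℤ) ^ n - 2) < c) : z = 0 := by
  funext R J
  by_contra h
  obtain ⟨h1, h2⟩ := hz R J h
  have h3 := van_dJ_le (p := p) hp J
  have h4 := van_sz_le hp R
  rw [h1] at h3
  have h3' : (dJ p J : ℤ) ≤ (p : ℤ) ^ n * σ := by exact_mod_cast h3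
  have h4' : (sz R : ℤ) ≤ wtR p R := by exact_mod_cast h4
  nlinarith

/-- the operators -/
private noncomputable def rf (n p : ℕ) : ℕ → V ℕ n p →+ V ℕ n p := fun k =>
  (rr p k 0 : Module.End (ZMod p) (V ℕ n p)).toAddMonoidHom

private theorem rf_apply (k : ℕ) (z : V ℕ n p) : rf n p k z = rr p k 0 z := rfl

/-- the coefficients -/
private noncomputable def cf (x : (ℕ →₀ ℕ) → Finset ℕ → MvPolynomial (Fin (n + 1)) (ZMod p)) :
    Finset ℕ → V ℕ n p := fun E R J => (x R E).coeff J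

private theorem van_coeff (x : (ℕ →₀ ℕ) → Finset ℕ → MvPolynomial (Fin (n + 1)) (ZMod p))
    (R : ℕ →₀ ℕ) (E : Finset ℕ) (hE : ∀ k ∈ E, n < k) (J : Fin (n + 1) →₀ ℕ) :
    (dd n p x R E).coeff J = kd (rf n p) (cf x) E R J := by
  classical
  have hfil : ∀ i : Fin (n + 1), E.filter (fun k => (i : ℕ) ≤ k) = E := by
    intro i
    rw [Finset.filter_true_of_mem]
    intro k hk
    have := hE k hk
    omega
  unfold dd kd
  simp only [hfil]
  rw [MvPolynomial.coeff_neg, MvPolynomial.coeff_sum]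
  have hR : (-∑ k ∈ E, ((-1 : ℤ) ^ (E.filter (· < k)).card) • rf n p k (cf x (E.erase k))) R J =
      -∑ k ∈ E, ((-1 : ℤ) ^ (E.filter (· < k)).card) • (rf n p k (cf x (E.erase k)) R J) := by
    simp only [Pi.neg_apply, Finset.sum_apply, Pi.smul_apply]
  rw [hR]
  congr 1
  have h1 : ∀ i : Fin (n + 1), MvPolynomial.coeff J (MvPolynomial.X i * ∑ k ∈ E,
      ((-1 : ℤ) ^ (E.filter (· < k)).card) • x (R + Finsupp.single (k - i - 1) (p ^ (i : ℕ)))
      (E.erase k)) = ∑ k ∈ E, ((-1 : ℤ) ^ (E.filter (· < k)).card) •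
        (if p ^ 0 ≤ J i then cf x (E.erase k) (R + Finsupp.single (k - 1 - i) (p ^ ((i : ℕ) + 0)))
          (J - Finsupp.single i (p ^ 0)) else 0) := by
    intro i
    rw [MvPolynomial.coeff_X_mul']
    simp only [pow_zero, add_zero]
    by_cases h : i ∈ J.support
    · rw [if_pos h, MvPolynomial.coeff_sum]
      have h' : 1 ≤ J i := Nat.one_le_iff_ne_zero.mpr (Finsupp.mem_support_iff.mp h)
      refine Finset.sum_congr rfl fun k _ => ?_
      rw [if_pos h', MvPolynomial.coeff_smul]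
      have e1 : k - (i : ℕ) - 1 = k - 1 - (i : ℕ) := by omega
      rw [e1]
      rfl
    · rw [if_neg h]
      have h' : ¬ 1 ≤ J i := by
        rw [Finsupp.mem_support_iff, not_not] at h
        omega
      simp [h']
  simp only [h1]
  rw [Finset.sum_comm]
  refine Finset.sum_congr rfl fun k _ => ?_
  rw [rf_apply, rr_apply, Finset.smul_sum]

end van

theorem VAN (n p : ℕ) [Fact p.Prime] (t : ℕ)
    (x : (ℕ →₀ ℕ) → Finset ℕ → MvPolynomial (Fin (n + 1)) (ZMod p)) (hx : Typ n p (t + 1) 1 x)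
    (hd : ∀ R E, (∀ k ∈ E, n < k) → dd n p x R E = 0) :
    ∃ y : (ℕ →₀ ℕ) → Finset ℕ → MvPolynomial (Fin (n + 1)) (ZMod p), Typ n p t 0 y ∧
      (∀ R E, (∃ k ∈ E, k ≤ n) → y R E = 0) ∧
      ∀ R E, (∀ k ∈ E, n < k) → dd n p y R E = x R E := by
  classical
  have hp2 : 2 ≤ p := (Fact.out : p.Prime).two_le
  have hp : 1 ≤ p := by omega
  have hpn : (1 : ℤ) ≤ (p : ℤ) ^ n := by exact_mod_cast Nat.one_le_pow n p hp
  obtain ⟨K, hK⟩ : ∃ K, K = t + n + 2 := ⟨_, rfl⟩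
  have hIoc : ∀ E : Finset ℕ, E ⊆ Ioc n K → ∀ k ∈ E, n < k := fun E hE k hk =>
    (Finset.mem_Ioc.mp (hE hk)).1
  -- large exponents
  have hbig : ∀ k, K < k → ((t + 1 : ℕ) : ℤ) * (2 * (p : ℤ) ^ n - 2) + 1 < 2 * (p : ℤ) ^ k - 1 := by
    intro k hk
    have h1 : p ^ n * (t + 3) ≤ p ^ k := by
      have h2 : p ^ n * p ^ (t + 3) ≤ p ^ k := by
        rw [← pow_add]
        exact Nat.pow_le_pow_right hp (by omega)
      have h3 : t + 3 ≤ p ^ (t + 3) := (Nat.lt_pow_self (by omega : 1 < p)).le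
      exact (Nat.mul_le_mul_left _ h3).trans h2
    have h1' : (p : ℤ) ^ n * (t + 3) ≤ (p : ℤ) ^ k := by exact_mod_cast h1
    push_cast
    nlinarith
  have hδ0 : ∀ k : ℕ, (0 : ℤ) ≤ 2 * (p : ℤ) ^ k - 1 := by
    intro k
    have : (1 : ℤ) ≤ (p : ℤ) ^ k := by exact_mod_cast Nat.one_le_pow k p hp
    linarith
  have hsumbig : ∀ E : Finset ℕ, (∀ k ∈ E, n < k) → ¬ E ⊆ Ioc n K →
      ((t + 1 : ℕ) : ℤ) * (2 * (p : ℤ) ^ n - 2) < -1 + ∑ k ∈ E, (2 * (p : ℤ) ^ k - 1) := by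
    intro E hE hEK
    obtain ⟨k, hk, hkK⟩ := Finset.not_subset.mp hEK
    have hkK' : K < k := by
      by_contra hcon
      exact hkK (Finset.mem_Ioc.mpr ⟨hE k hk, not_lt.mp hcon⟩)
    have h1 := hbig k hkK'
    have h2 : 2 * (p : ℤ) ^ k - 1 ≤ ∑ k ∈ E, (2 * (p : ℤ) ^ k - 1) :=
      Finset.single_le_sum (f := fun k => 2 * (p : ℤ) ^ k - 1) (fun j _ => hδ0 j) hk
    linarith
  -- the coefficients are in the right groups
  have hmem : ∀ E : Finset ℕ, (∀ k ∈ E, n < k) →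
      cf x E ∈ GG n p (t + 1) (-1 + ∑ k ∈ E, (2 * (p : ℤ) ^ k - 1)) := by
    intro E hE R J h
    obtain ⟨h1, h2⟩ := hx R E hE J h
    refine ⟨h1, ?_⟩
    have h3 : (((J.sum fun t r => r * (2 * (p ^ (t : ℕ) - 1))) + 1 : ℕ) : ℤ) = (deg p R E : ℤ) := by
      exact_mod_cast h2
    rw [Nat.cast_add, van_dJ hp, van_deg hp, h1] at h3
    push_cast at h3 ⊢
    linarith
  have hzero : ∀ E : Finset ℕ, (∀ k ∈ E, n < k) → ¬ E ⊆ Ioc n K → cf x E = 0 :=
    fun E hE hEK => van_zero hp (hmem E hE) (hsumbig E hE hEK)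
  have hempty : cf x ∅ = 0 := by
    funext R J
    by_contra h
    obtain ⟨-, h2⟩ := hmem ∅ (by simp) R J h
    rw [Finset.sum_empty] at h2
    omega
  obtain ⟨f, hf⟩ : ∃ f : Finset ℕ → V ℕ n p, f = fun E => if E ⊆ Ioc n K then cf x E else 0 :=
    ⟨_, rfl⟩
  have hf1 : ∀ E, E ⊆ Ioc n K → f E = cf x E := fun E hE => by rw [hf]; exact if_pos hE
  have hf2 : ∀ E, ¬ E ⊆ Ioc n K → f E = 0 := fun E hE => by rw [hf]; exact if_neg hE
  have hkd : ∀ (g g' : Finset ℕ → V ℕ n p) (E : Finset ℕ), (∀ k ∈ E, g (E.erase k) = g' (E.erase k)) →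
      kd (rf n p) g E = kd (rf n p) g' E := by
    intro g g' E h
    unfold kd
    congr 1
    exact Finset.sum_congr rfl fun k hk => by rw [h k hk]
  obtain ⟨y, hy0, hyG, hyd⟩ := koszul (rf n p)
    (fun k l z => by
      rw [rf_apply, rf_apply, rf_apply, rf_apply]
      exact rr_comm k 0 l 0 z) n (fun k => 2 * (p : ℤ) ^ k - 1) (fun k _ => hδ0 k)
    (GG n p) (fun k hk σ c z hz => GG_rr hp2 hk σ c z hz)
    (fun K hK σ c hc z hz h0 => GG_surj K hK σ c hc z hz h0) t K (-1) f (by positivity)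
    (fun E hE => hf2 E hE) (by rw [hf1 ∅ (Finset.empty_subset _), hempty])
    (fun E hE => by rw [hf1 E hE]; exact hmem E (hIoc E hE))
    (fun E hE => by
      rw [hkd f (cf x) E (fun k _ => hf1 _ ((Finset.erase_subset _ _).trans hE))]
      funext R J
      rw [← van_coeff x R E (hIoc E hE) J, hd R E (hIoc E hE)]
      simp)
  -- the polynomials
  obtain ⟨Y, hY⟩ : ∃ Y : (ℕ →₀ ℕ) → Finset ℕ → MvPolynomial (Fin (n + 1)) (ZMod p),
      Y = fun R E => ∑ J ∈ Finset.finsuppAntidiag (Finset.univ : Finset (Fin (n + 1))) t,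
        MvPolynomial.monomial J (y E R J) := ⟨_, rfl⟩
  have hsum : ∀ J : Fin (n + 1) →₀ ℕ, (J.sum fun _ r => r) = ∑ i, J i := fun J =>
    Finsupp.sum_fintype _ _ (fun _ => rfl)
  have hcoef : ∀ R E J, (Y R E).coeff J = y E R J := by
    intro R E J
    rw [hY, MvPolynomial.coeff_sum]
    simp only [MvPolynomial.coeff_monomial]
    rw [Finset.sum_ite_eq']
    by_cases h : J ∈ Finset.finsuppAntidiag (Finset.univ : Finset (Fin (n + 1))) t
    · rw [if_pos h]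
    · rw [if_neg h]
      by_contra hne
      apply h
      rw [Finset.mem_finsuppAntidiag]
      refine ⟨?_, Finset.subset_univ _⟩
      have hE : E ⊆ Ioc n K := by
        by_contra hE
        rw [hy0 E hE] at hne
        exact hne rfl
      have := (hyG E hE R J (Ne.symm hne)).1
      rw [hsum] at this
      exact this
  have hcfY : cf Y = y := by
    funext E R J
    exact hcoef R E J
  refine ⟨Y, ?_, ?_, ?_⟩
  · intro R E hE J h
    rw [hcoef] at h
    have hEK : E ⊆ Ioc n K := by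
      by_contra hEK
      rw [hy0 E hEK] at h
      exact h rfl
    obtain ⟨h1, h2⟩ := hyG E hEK R J h
    refine ⟨h1, ?_⟩
    have h3 : (((J.sum fun t r => r * (2 * (p ^ (t : ℕ) - 1))) + 0 : ℕ) : ℤ) = (deg p R E : ℤ) := by
      rw [Nat.cast_add, van_dJ hp, van_deg hp, h1]
      push_cast
      linarith
    exact_mod_cast h3
  · rintro R E ⟨k, hk, hkn⟩
    ext J
    rw [hcoef, hy0 E]
    · simp
    · intro hE
      have := hIoc E hE k hk
      omega
  · intro R E hE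
    ext J
    rw [van_coeff Y R E hE J, hcfY]
    by_cases hEK : E ⊆ Ioc n K
    · rw [hyd E hEK, hf1 E hEK]
      rfl
    · have h1 : (x R E).coeff J = 0 := by
        have := congrFun (congrFun (hzero E hE hEK) R) J
        exact this
      rw [h1]
      have h2 : kd (rf n p) y E = 0 := by
        unfold kd
        rw [neg_eq_zero]
        refine Finset.sum_eq_zero fun k hk => ?_
        by_cases hk2 : E.erase k ⊆ Ioc n K
        · have h3 := GG_rr hp2 (hE k hk) t _ _ (hyG _ hk2)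
          have h4 : rr p k 0 (y (E.erase k)) = 0 := by
            refine van_zero hp h3 ?_
            have h5 := hsumbig E hE hEK
            rw [← Finset.add_sum_erase _ _ hk] at h5
            linarith
          rw [rf_apply, h4, smul_zero]
        · rw [hy0 _ hk2, map_zero, smul_zero]
      rw [h2]
      rfl

end BPN.D
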