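import Pool.Agent.BPN.T.DOut
import Pool.Agent.BPN.D.Van
import Pool.Agent.BPN.D.Pres

/-!
# Output of part (D) (project BPN): translation of `BPN.D.VAN` and `BPN.D.PRES`
-/

namespace BPN

open Finset

variable {p n : ℕ} [Fact p.Prime]

/-- The additive map with given values on the basis. -/
noncomputable def mkX (p n : ℕ) (y : (ℕ →₀ ℕ) → Finset ℕ → PV p n) : Mil p →+ PV p n :=
  (Finsupp.lsum (ZMod p) fun E : Finset ℕ =>
    (MvPolynomial.basisMonomials ℕ (ZMod p)).constr (ZMod p) fun R => y R E).toAddMonoidHom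

theorem mkX_mon (y : (ℕ →₀ ℕ) → Finset ℕ → PV p n) (R : ℕ →₀ ℕ) (E : Finset ℕ) :
    mkX p n y (Mil.mon p R E) = y R E := by
  show (Finsupp.lsum (ZMod p) fun E : Finset ℕ =>
    (MvPolynomial.basisMonomials ℕ (ZMod p)).constr (ZMod p) fun R => y R E)
      (Finsupp.single E (MvPolynomial.monomial R 1)) = y R E
  rw [Finsupp.lsum_single]
  have h := (MvPolynomial.basisMonomials ℕ (ZMod p)).constr_basis (ZMod p) (fun R => y R E) R
  rw [MvPolynomial.coe_basisMonomials] at h
  exact h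

theorem Lop_mon (i : ℕ) (R : ℕ →₀ ℕ) (E : Finset ℕ) (hE : ∀ k ∈ E, i < k) :
    Mil.Lop p i (Mil.mon p R E) = -∑ k ∈ E.filter (fun k => i ≤ k),
      ((-1 : ℤ) ^ (E.filter (· < k)).card) •
        Mil.mon p (R + Finsupp.single (k - i - 1) (p ^ i)) (E.erase k) := by
  unfold Mil.Lop Mil.mon
  rw [Finsupp.lsum_single, LinearMap.neg_apply, LinearMap.sum_apply]
  congr 1
  refine sum_congr rfl fun k hk => ?_
  have h1 : i < k := hE k (mem_filter.1 hk).1
  rw [LinearMap.smul_apply, LinearMap.smul_apply, Finsupp.lsingle_apply, smul_comm,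
    Finsupp.smul_single]
  congr 2
  have h2 : Mil.xi p (k - i) = MvPolynomial.monomial (Finsupp.single (k - i - 1) 1) 1 := by
    unfold Mil.xi
    rw [if_neg (by omega)]
    rfl
  rw [h2, MvPolynomial.monomial_pow, smul_eq_mul, MvPolynomial.monomial_mul, one_pow, one_mul,
    Finsupp.smul_single, smul_eq_mul, mul_one, add_comm]

theorem dC_mon (x : Mil p →+ PV p n) (R : ℕ →₀ ℕ) (E : Finset ℕ) (hE : ∀ k ∈ E, n < k) :
    dC p n x (Mil.mon p R E) = D.dd n p (fun R E => x (Mil.mon p R E)) R E := by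
  unfold dC D.dd
  rw [AddMonoidHom.finsetSum_apply, ← sum_neg_distrib]
  refine sum_congr rfl fun i _ => ?_
  show MvPolynomial.X i * x (Mil.Lop p i (Mil.mon p R E)) = _
  rw [Lop_mon i R E (fun k hk => by have := hE k hk; have := i.2; omega), map_neg, map_sum,
    mul_neg]
  congr 2
  refine sum_congr rfl fun k _ => ?_
  rw [map_zsmul]

omit [Fact p.Prime] in
theorem deg_eq (R : ℕ →₀ ℕ) (E : Finset ℕ) : D.deg p R E = Mil.deg p R E := rfl

theorem mdeg_eq {m : ℕ} (J : Fin (m + 1) →₀ ℕ) :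
    ((J.sum fun t r => r * (2 * (p ^ (t : ℕ) - 1)) : ℕ) : ℤ) = mdeg p (fun i => J i) := by
  unfold mdeg
  rw [Finsupp.sum_fintype _ _ (by simp)]
  push_cast
  refine sum_congr rfl fun t _ => ?_
  have h : 1 ≤ p ^ (t : ℕ) := Nat.one_le_pow _ _ (Fact.out : p.Prime).pos
  push_cast [Nat.cast_sub h]
  rfl

theorem sum_eq {m : ℕ} (J : Fin m →₀ ℕ) : (J.sum fun _ r => r) = ∑ i, J i := by
  rw [Finsupp.sum_fintype _ _ (by simp)]

/-- **Vanishing.**  A cocycle of filtration `t + 1 ≥ 2` in stem `-1` is a coboundary. -/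
theorem van_D (t : ℕ) (ht : 1 ≤ t) (x : Mil p →+ PV p n) (hx : DCl p n (t + 1) 1 x)
    (hd : ∀ R E, (∀ i ∈ E, n < i) → dC p n x (Mil.mon p R E) = 0) :
    ∃ y : Mil p →+ PV p n, DCl p n t 0 y ∧
      ∀ R E, (∀ i ∈ E, n < i) → dC p n y (Mil.mon p R E) = x (Mil.mon p R E) := by
  obtain ⟨y, hy1, hy2, hy3⟩ := D.VAN n p t (fun R E => x (Mil.mon p R E))
    (by
      intro R E _ J hJ
      obtain ⟨h1, h2⟩ := hx.2 R E J (MvPolynomial.mem_support_iff.2 hJ)
      refine ⟨by rw [sum_eq]; exact h1, ?_⟩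
      rw [← mdeg_eq] at h2
      rw [deg_eq]
      exact_mod_cast h2)
    (by
      intro R E hE
      rw [← dC_mon x R E hE]
      exact hd R E hE)
  refine ⟨mkX p n y, ⟨fun R E hE => by rw [mkX_mon]; exact hy2 R E hE, fun R E J hJ => ?_⟩,
    fun R E hE => ?_⟩
  · rw [mkX_mon, MvPolynomial.mem_support_iff] at hJ
    have hE : ∀ k ∈ E, n < k := by
      intro k hk
      by_contra hc
      rw [hy2 R E ⟨k, hk, not_lt.1 hc⟩, MvPolynomial.coeff_zero] at hJ
      exact hJ rfl
    obtain ⟨h1, h2⟩ := hy1 R E hE J hJ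
    refine ⟨by rw [← sum_eq]; exact h1, ?_⟩
    rw [← mdeg_eq, ← deg_eq]
    exact_mod_cast h2
  · rw [dC_mon _ R E hE]
    have : (fun R E => mkX p n y (Mil.mon p R E)) = y := by
      funext R E
      exact mkX_mon y R E
    rw [this]
    exact hy3 R E hE

theorem lin_eq (x : (ℕ →₀ ℕ) → PV p n) (g : MvPolynomial ℕ (PV p n)) :
    D.lin x g = ((MvPolynomial.basisMonomials ℕ (PV p n)).constr (PV p n) x) g := by
  rw [Module.Basis.constr_apply]
  rfl

theorem lin_add (x : (ℕ →₀ ℕ) → PV p n) (f g : MvPolynomial ℕ (PV p n)) :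
    D.lin x (f + g) = D.lin x f + D.lin x g := by
  rw [lin_eq, lin_eq, lin_eq, map_add]

theorem lin_sum {ι : Type} (x : (ℕ →₀ ℕ) → PV p n) (s : Finset ι)
    (f : ι → MvPolynomial ℕ (PV p n)) : D.lin x (∑ i ∈ s, f i) = ∑ i ∈ s, D.lin x (f i) := by
  simp only [lin_eq, map_sum]

theorem lin_C (x : (ℕ →₀ ℕ) → PV p n) (a : PV p n) (g : MvPolynomial ℕ (PV p n)) :
    D.lin x (MvPolynomial.C a * g) = a * D.lin x g := by
  rw [lin_eq, lin_eq, MvPolynomial.C_mul', map_smul, smul_eq_mul]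

theorem lin_monomial (x : (ℕ →₀ ℕ) → PV p n) (R : ℕ →₀ ℕ) (a : PV p n) :
    D.lin x (MvPolynomial.monomial R a) = a * x R := by
  have h1 : MvPolynomial.monomial R a = MvPolynomial.C a * MvPolynomial.monomial R 1 := by
    rw [MvPolynomial.C_mul_monomial, mul_one]
  rw [h1, lin_C, lin_eq]
  congr 1
  have h := (MvPolynomial.basisMonomials ℕ (PV p n)).constr_basis (PV p n) x R
  rw [MvPolynomial.coe_basisMonomials] at h
  exact h

theorem lin_map (x : (ℕ →₀ ℕ) → Finset ℕ → PV p n) (g : MvPolynomial ℕ (ZMod p)) :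
    mkX p n x (Finsupp.single ∅ g) = D.lin (fun R => x R ∅) (MvPolynomial.map MvPolynomial.C g) := by
  induction g using MvPolynomial.induction_on' with
  | monomial R a =>
    rw [MvPolynomial.map_monomial, lin_monomial]
    have h1 : (Finsupp.single ∅ (MvPolynomial.monomial R a) : Mil p) = a • Mil.mon p R ∅ := by
      unfold Mil.mon
      rw [Finsupp.smul_single, MvPolynomial.smul_monomial, smul_eq_mul, mul_one]
    have h2 : mkX p n x (a • Mil.mon p R ∅) = a • mkX p n x (Mil.mon p R ∅) := by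
      show (Finsupp.lsum (ZMod p) fun E : Finset ℕ =>
        (MvPolynomial.basisMonomials ℕ (ZMod p)).constr (ZMod p) fun R => x R E)
        (a • Mil.mon p R ∅) = _
      rw [map_smul]
      rfl
    rw [h1, h2, mkX_mon, MvPolynomial.smul_eq_C_mul]
  | add f g hf hg =>
    rw [Finsupp.single_add, map_add, hf, hg, map_add, lin_add]

theorem evR_eq (x : (ℕ →₀ ℕ) → Finset ℕ → PV p n) (l : List (Fin (n + 1)))
    (g : MvPolynomial ℕ (ZMod p)) :
    evR p n (mkX p n x) l g = D.lin (fun R => x R ∅)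
      (MvPolynomial.map MvPolynomial.C g * (l.map fun j : Fin (n + 1) => D.rj n p (j : ℕ)).prod) := by
  induction l generalizing g with
  | nil =>
    rw [List.map_nil, List.prod_nil, mul_one]
    exact lin_map x g
  | cons j l ih =>
    rw [List.map_cons, List.prod_cons]
    show ∑ i : Fin (n + 1), MvPolynomial.X i * evR p n (mkX p n x) l (g * rco p j i) = _
    have h1 : D.rj n p j = ∑ i : Fin (n + 1), MvPolynomial.C (MvPolynomial.X i) *
        MvPolynomial.map MvPolynomial.C (rco p j i) := by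
      unfold D.rj
      rw [sum_filter]
      refine sum_congr rfl fun i _ => ?_
      unfold rco
      by_cases h : (i : ℕ) ≤ (j : ℕ)
      · rw [if_pos h, if_pos h, map_pow]
        congr 2
        unfold D.xiP Mil.xi
        by_cases h2 : (j : ℕ) - i = 0
        · rw [if_pos h2, if_pos h2, map_one]
        · rw [if_neg h2, if_neg h2, MvPolynomial.map_X]
      · rw [if_neg h, if_neg h, map_zero, mul_zero]
    rw [h1, sum_mul, mul_sum, lin_sum]
    refine sum_congr rfl fun i _ => ?_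
    have h3 : ∀ a b c d : MvPolynomial ℕ (PV p n), b * (a * c * d) = a * (b * c * d) := by
      intro a b c d
      ring
    rw [ih, ← lin_C, map_mul]
    exact congrArg _ (h3 _ _ _ _)

/-- **Prescribed values.**  For every `k` and all large `s` there are cocycles `x` of filtration `s` in
stem `0` with prescribed values on the products of the `r_j`, `1 ≤ j ≤ n`, of stem `≤ 2 k`: for a
multi-index `I` (with `I_0 = 0`), represented by the sorted list of its entries. -/
theorem pres_D (k : ℕ) : ∃ s₀ : ℕ, ∀ s, s₀ ≤ s → ∀ c : (Fin (n + 1) → ℕ) → PV p n,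
    (∀ I, ∀ J ∈ (c I).support, ∑ i, J i = s + ∑ i, I i ∧ mdeg p (fun i => J i) = mdeg p I) →
    ∃ x : Mil p →+ PV p n, DCl p n s 0 x ∧
      (∀ R E, (∀ i ∈ E, n < i) → dC p n x (Mil.mon p R E) = 0) ∧
      ∀ (I : Fin (n + 1) → ℕ) (l : List (Fin (n + 1))), I 0 = 0 → mdeg p I ≤ 2 * k →
        (∀ i, l.count i = I i) → evR p n x l 1 = c I := by
  obtain ⟨s₀, hs₀⟩ := D.PRES n p k
  refine ⟨s₀, fun s hs c hc => ?_⟩
  have hmd : ∀ I : Fin n →₀ ℕ, ((I.sum fun j r => r * (2 * (p ^ ((j : ℕ) + 1) - 1)) : ℕ) : ℤ) =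
      mdeg p (Fin.cons 0 (fun j => I j) : Fin (n + 1) → ℕ) := by
    intro I
    unfold mdeg
    rw [Finsupp.sum_fintype _ _ (by simp), Fin.sum_univ_succ]
    push_cast
    rw [Fin.cons_zero]
    simp only [Fin.cons_succ, Nat.cast_zero, zero_mul, zero_add, Fin.val_succ]
    refine sum_congr rfl fun t _ => ?_
    have h : 1 ≤ p ^ ((t : ℕ) + 1) := Nat.one_le_pow _ _ (Fact.out : p.Prime).pos
    push_cast [Nat.cast_sub h]
    rfl
  obtain ⟨x, hx1, hx2, hx3⟩ := hs₀ s hs
    (fun I => c (Fin.cons 0 (fun j => I j) : Fin (n + 1) → ℕ)) (by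
      intro I J hJ
      obtain ⟨h1, h2⟩ := hc _ J (MvPolynomial.mem_support_iff.2 hJ)
      rw [Fin.sum_univ_succ (f := (Fin.cons 0 (fun j => I j) : Fin (n + 1) → ℕ)), Fin.cons_zero,
        zero_add] at h1
      simp only [Fin.cons_succ] at h1
      refine ⟨by rw [sum_eq, sum_eq]; exact h1, ?_⟩
      rw [← mdeg_eq, ← hmd] at h2
      exact_mod_cast h2)
  have hE0 : ∀ R (E : Finset ℕ), E ≠ ∅ →
      (if E = ∅ then x R else (0 : PV p n)) = 0 := fun R E hE => if_neg hE
  refine ⟨mkX p n (fun R E => if E = ∅ then x R else 0), ⟨fun R E hE => ?_, fun R E J hJ => ?_⟩,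
    fun R E hE => ?_, fun I l hI0 hIk hl => ?_⟩
  · rw [mkX_mon]
    obtain ⟨i, hi, _⟩ := hE
    exact if_neg (Finset.ne_empty_of_mem hi)
  · rw [mkX_mon, MvPolynomial.mem_support_iff] at hJ
    by_cases hEe : E = ∅
    · rw [if_pos hEe] at hJ
      obtain ⟨h1, h2⟩ := hx1 R J hJ
      refine ⟨by rw [← sum_eq]; exact h1, ?_⟩
      rw [← mdeg_eq, h2, hEe]
      unfold Mil.deg
      rw [sum_empty, add_zero, add_zero]
    · rw [if_neg hEe, MvPolynomial.coeff_zero] at hJ
      exact absurd rfl hJ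
  · rw [dC_mon _ R E hE]
    have h0 : (fun R E => mkX p n (fun R E => if E = ∅ then x R else 0) (Mil.mon p R E)) =
        fun R (E : Finset ℕ) => if E = ∅ then x R else (0 : PV p n) := by
      funext R E
      exact mkX_mon _ R E
    rw [h0]
    unfold D.dd
    rw [neg_eq_zero]
    by_cases h1 : ∃ m, E = {m}
    · obtain ⟨m, rfl⟩ := h1
      have hm : n < m := hE m (by simp)
      rw [← hx2 m hm R]
      refine sum_congr rfl fun i _ => ?_
      congr 1
      have h2 : ({m} : Finset ℕ).filter (fun k => (i : ℕ) ≤ k) = {m} := by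
        rw [filter_singleton, if_pos (by have := i.2; omega)]
      rw [h2, sum_singleton, filter_singleton, if_neg (lt_irrefl _)]
      simp
    · refine sum_eq_zero fun i _ => ?_
      rw [sum_eq_zero, mul_zero]
      intro k hk
      have h2 : E.erase k ≠ ∅ := by
        intro hc
        apply h1
        refine ⟨k, ?_⟩
        have hk' := (mem_filter.1 hk).1
        rw [← insert_erase hk', hc]
        rfl
      show _ • (if E.erase k = ∅ then x (R + Finsupp.single (k - i - 1) (p ^ (i : ℕ))) else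
        (0 : PV p n)) = 0
      rw [if_neg h2, smul_zero]
  · rw [evR_eq]
    have h1 : (fun R => if (∅ : Finset ℕ) = ∅ then x R else (0 : PV p n)) = x := by
      funext R
      rw [if_pos rfl]
    rw [h1, map_one, one_mul]
    set I' : Fin n →₀ ℕ := Finsupp.equivFunOnFinite.symm (fun j => I j.succ) with hI'
    have hII : (Fin.cons 0 (fun j => I' j) : Fin (n + 1) → ℕ) = I := by
      funext j
      refine Fin.cases ?_ (fun j => ?_) j
      · rw [Fin.cons_zero, hI0]
      · rw [Fin.cons_succ, hI']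
        rfl
    have h2 := hx3 I' (by
      have h3 := hmd I'
      rw [hII] at h3
      rw [← h3] at hIk
      exact_mod_cast hIk)
    simp only [hII] at h2
    rw [← h2]
    congr 1
    rw [prod_list_map_count]
    have h4 : ∏ j ∈ l.toFinset, D.rj n p (j : ℕ) ^ l.count j =
        ∏ j : Fin (n + 1), D.rj n p (j : ℕ) ^ I j := by
      rw [← prod_subset (subset_univ l.toFinset)]
      · exact prod_congr rfl fun j _ => by rw [hl j]
      · intro j _ hj
        rw [← hl j, List.count_eq_zero_of_not_mem (by simpa using hj), pow_zero]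
    rw [h4, Fin.prod_univ_succ, hI0, pow_zero, one_mul]
    unfold D.rI
    refine prod_congr rfl fun j _ => ?_
    rw [hI']
    rfl

end BPN
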