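import Pool.Agent.BPN.D.Appr

/-!
# BPN, part D, module Surj: surjectivity on kernels, with gradings

`GG σ c`: functions `z` with `z R J ≠ 0 → ∑ J_t = σ ∧ 2 dJ J = c + 2 wtR R - 2 sz R + 2 σ` (in `ℤ`): coefficients are in the span of the `v^J`
with `|J| = σ` and `|v^J| = c + |ξ^R|`.
* `GG_rr`: `r_k : GG σ c → GG (σ+1) (c + (2 p^k - 1) - 1)` (`rr_apply`, one summand is nonzero; `wtR (R + single (k-1-t) (p^t)) = wtR R + p^k`,
  `sz = sz R + p^t`, `dJ (J - single t 1) + p^t = dJ J`).
* `GG_surj`: write `c + 2 σ = 2 g` if it is even (`g ≥ 0`), otherwise `z = 0` (`GG` with `c` odd is `0`) and `y = 0`.  For every `w` let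
  `z_w R J = if wtR R + p^K = w then z R J else 0`: `TW w (p^K) (w + g)`: from `2 dJ J = c + 2 p^K - 2 + 2 wtR R - 2 sz R + 2 (σ + 1)`.  `rr k 0 z_w = 0` for
  `n < k < K` (`(rr k 0 z_w) R J = (rr k 0 z) R J` or `0` by weight).  `solveS` for `𝒦 = Ioc n K`, `h = w + g`, the family `x K = z_w`, `x k = 0` (`k ≠ K`)
  gives `y_w`.  `y R J = if ∑ J_t = σ then y_w R J else 0` with `w = wtR R`.  `(rr k 0 y) R J` involves only `y_w` with `w = wtR R + p^k` and only `J` with
  `∑ J_t = σ + 1`; for such `J` it is `(rr k 0 y_w) R J = (z_w) R J = z R J` (`k = K`) or `0` (`k < K`); for other `J` it is `0 = z R J`.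
-/

set_option autoImplicit false

namespace BPN.D

open Finset

variable {n p : ℕ}

/-- Functions of type `(σ, c)`. -/
def GG (n p : ℕ) (σ : ℕ) (c : ℤ) : AddSubgroup (V ℕ n p) where
  carrier := {z | ∀ R J, z R J ≠ 0 → (J.sum fun _ r => r) = σ ∧
    (2 * dJ p J : ℤ) = c + 2 * wtR p R - 2 * sz R + 2 * σ}
  add_mem' := by
    intro f g hf hg R J h
    by_cases h1 : f R J = 0
    · refine hg R J ?_
      intro h2
      apply h
      show f R J + g R J = 0
      rw [h1, h2, add_zero]
    · exact hf R J h1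
  zero_mem' := by
    intro a J h
    exact absurd rfl h
  neg_mem' := by
    intro f hf R J h
    refine hf R J ?_
    intro h1
    apply h
    show -f R J = 0
    rw [h1, neg_zero]

private theorem sj_sum (J : Fin (n + 1) →₀ ℕ) (t : Fin (n + 1)) (h : 1 ≤ J t) :
    ((J - Finsupp.single t 1).sum fun _ r => r) + 1 = J.sum fun _ r => r := by
  classical
  have h1 : (J - Finsupp.single t 1) + Finsupp.single t 1 = J :=
    tsub_add_cancel_of_le (Finsupp.single_le_iff.2 h)
  have h2 : ((J - Finsupp.single t 1) + Finsupp.single t 1).sum (fun _ r => r) =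
      ((J - Finsupp.single t 1).sum fun _ r => r) + (Finsupp.single t 1).sum (fun _ r => r) :=
    Finsupp.sum_add_index' (fun _ => rfl) (fun _ _ _ => rfl)
  rw [Finsupp.sum_single_index rfl, h1] at h2
  exact h2.symm

private theorem sj_wtR {k : ℕ} (hk : n < k) (R : ℕ →₀ ℕ) (t : Fin (n + 1)) :
    wtR p (R + Finsupp.single (k - 1 - t) (p ^ ((t : ℕ) + 0))) = wtR p R + p ^ k := by
  have ht := t.isLt
  unfold wtR
  rw [wa_add, wa_single, ← pow_add]
  congr 2
  omega

private theorem sj_sz (k : ℕ) (R : ℕ →₀ ℕ) (t : Fin (n + 1)) :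
    sz (R + Finsupp.single (k - 1 - t) (p ^ ((t : ℕ) + 0))) = sz R + p ^ (t : ℕ) := by
  unfold sz
  rw [wa_add, wa_single, mul_one, add_zero]

theorem GG_rr (hp : 2 ≤ p) {k : ℕ} (hk : n < k) (σ : ℕ) (c : ℤ) (z : V ℕ n p)
    (hz : z ∈ GG n p σ c) : rr p k 0 z ∈ GG n p (σ + 1) (c + (2 * p ^ k - 1) - 1) := by
  intro R J hne
  rw [rr_apply] at hne
  obtain ⟨t, -, ht⟩ := Finset.exists_ne_zero_of_sum_ne_zero hne
  by_cases hJ : p ^ 0 ≤ J t
  · rw [if_pos hJ] at ht
    rw [pow_zero] at hJ ht
    obtain ⟨h1, h2⟩ := hz _ _ ht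
    rw [sj_wtR hk, sj_sz] at h2
    have h3 := sj_sum J t hJ
    have h4 := dJ_sub (p := p) J t 1 hJ
    refine ⟨by omega, ?_⟩
    have h5 : (dJ p (J - Finsupp.single t 1) : ℤ) + (p : ℤ) ^ (t : ℕ) = dJ p J := by
      rw [← h4]
      push_cast
      ring
    rw [← h5]
    push_cast at h2 ⊢
    linarith
  · rw [if_neg hJ] at ht
    exact absurd rfl ht

theorem GG_surj [Fact p.Prime] (K : ℕ) (hK : n < K) (σ : ℕ) (c : ℤ) (hc : 0 ≤ c + 2 * σ)
    (z : V ℕ n p) (hz : z ∈ GG n p (σ + 1) (c + (2 * p ^ K - 1) - 1))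
    (h0 : ∀ k, n < k → k < K → rr p k 0 z = 0) :
    ∃ y ∈ GG n p σ c, (∀ k, n < k → k < K → rr p k 0 y = 0) ∧ rr p K 0 y = z := by
  classical
  by_cases hpar : ∃ g : ℕ, c + 2 * σ = 2 * g
  · obtain ⟨g, hg⟩ := hpar
    have hzv : ∀ R J, z R J ≠ 0 → sz R + dJ p J = g + p ^ K + wtR p R := by
      intro R J h
      obtain ⟨-, h2⟩ := hz R J h
      have h3 : ((sz R + dJ p J : ℕ) : ℤ) = ((g + p ^ K + wtR p R : ℕ) : ℤ) := by
        push_cast at h2 ⊢
        linarith
      exact_mod_cast h3
    -- the parts of given weight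
    let zw : ℕ → V ℕ n p := fun w R J => if wtR p R + p ^ K = w then z R J else 0
    have hzw : ∀ w, TW p w (p ^ K) (w + g) (zw w) := by
      intro w R J h
      by_cases hw : wtR p R + p ^ K = w
      · have h1 : zw w R J = z R J := if_pos hw
        rw [h1] at h
        have h2 := hzv R J h
        exact ⟨hw, by omega⟩
      · exact absurd (if_neg hw : zw w R J = 0) h
    have hzk : ∀ w k, n < k → k < K → rr p k 0 (zw w) = 0 := by
      intro w k hk hkK
      funext R J
      rw [rr_apply]
      by_cases hw : wtR p R + p ^ k + p ^ K = w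
      · have h1 := congrFun (congrFun (h0 k hk hkK) R) J
        rw [rr_apply] at h1
        refine Eq.trans (Finset.sum_congr rfl fun t _ => ?_) h1
        by_cases hJ : p ^ 0 ≤ J t
        · rw [if_pos hJ, if_pos hJ]
          exact if_pos (by rw [sj_wtR hk]; exact hw)
        · rw [if_neg hJ, if_neg hJ]
      · refine Finset.sum_eq_zero fun t _ => ?_
        by_cases hJ : p ^ 0 ≤ J t
        · rw [if_pos hJ]
          exact if_neg (by rw [sj_wtR hk]; exact hw)
        · rw [if_neg hJ]
    have hsol : ∀ w, ∃ y : V ℕ n p, TW p w 0 (w + g) y ∧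
        (∀ k, n < k → k < K → rr p k 0 y = 0) ∧ rr p K 0 y = zw w := by
      intro w
      let x : ℕ → V ℕ n p := fun k => if k = K then zw w else 0
      have hxK : x K = zw w := if_pos rfl
      have hxk : ∀ k, k ≠ K → x k = 0 := fun k hk => if_neg hk
      have hmem : ∀ k, k ∈ Finset.Ioc n K ↔ n < k ∧ k ≤ K := fun k => Finset.mem_Ioc
      obtain ⟨y, hy1, hy2⟩ := solveS (Finset.Ioc n K) (fun k hk => ((hmem k).1 hk).1) w (w + g)
        (by
          have h1 : p ^ ((0 : Fin (n + 1)) : ℕ) ≤ ∑ t : Fin (n + 1), p ^ (t : ℕ) :=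
            Finset.single_le_sum (f := fun t : Fin (n + 1) => p ^ (t : ℕ))
              (fun t _ => Nat.zero_le _) (Finset.mem_univ 0)
          rw [Fin.val_zero, pow_zero] at h1
          omega) x
        (fun k hk => by
          by_cases hkK : k = K
          · subst hkK
            rw [hxK]
            exact hzw w
          · rw [hxk k hkK]
            intro R J h
            exact absurd rfl h)
        (fun k hk l hl => by
          by_cases hkK : k = K
          · by_cases hlK : l = K
            · rw [hkK, hlK]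
            · have hl' := (hmem l).1 hl
              rw [hkK, hxk l hlK, hxK, map_zero, hzk w l hl'.1 (by omega)]
          · by_cases hlK : l = K
            · have hk' := (hmem k).1 hk
              rw [hlK, hxk k hkK, hxK, map_zero, hzk w k hk'.1 (by omega)]
            · rw [hxk k hkK, hxk l hlK, map_zero, map_zero])
      refine ⟨y, hy1, fun k hk hkK => ?_, ?_⟩
      · rw [hy2 k ((hmem k).2 ⟨hk, hkK.le⟩), hxk k (by omega)]
      · rw [hy2 K ((hmem K).2 ⟨hK, le_rfl⟩), hxK]
    choose yw hyw1 hyw2 hyw3 using hsol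
    let y : V ℕ n p := fun R J => if (J.sum fun _ r => r) = σ then yw (wtR p R) R J else 0
    have hrr : ∀ k, n < k → ∀ R J, rr p k 0 y R J =
        if (J.sum fun _ r => r) = σ + 1 then rr p k 0 (yw (wtR p R + p ^ k)) R J else 0 := by
      intro k hk R J
      rw [rr_apply, rr_apply]
      by_cases hσ : (J.sum fun _ r => r) = σ + 1
      · rw [if_pos hσ]
        refine Finset.sum_congr rfl fun t _ => ?_
        by_cases hJ : p ^ 0 ≤ J t
        · rw [if_pos hJ, if_pos hJ]
          have h1 := sj_sum J t (by rwa [pow_zero] at hJ)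
          have h2 : ((J - Finsupp.single t (p ^ 0)).sum fun _ r => r) = σ := by
            rw [pow_zero]
            omega
          have h3 : y (R + Finsupp.single (k - 1 - t) (p ^ ((t : ℕ) + 0)))
              (J - Finsupp.single t (p ^ 0)) =
              yw (wtR p (R + Finsupp.single (k - 1 - t) (p ^ ((t : ℕ) + 0))))
                (R + Finsupp.single (k - 1 - t) (p ^ ((t : ℕ) + 0)))
                (J - Finsupp.single t (p ^ 0)) := if_pos h2
          rw [h3, sj_wtR hk]
        · rw [if_neg hJ, if_neg hJ]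
      · rw [if_neg hσ]
        refine Finset.sum_eq_zero fun t _ => ?_
        by_cases hJ : p ^ 0 ≤ J t
        · rw [if_pos hJ]
          have h1 := sj_sum J t (by rwa [pow_zero] at hJ)
          have h2 : ¬ ((J - Finsupp.single t (p ^ 0)).sum fun _ r => r) = σ := by
            rw [pow_zero]
            omega
          exact if_neg h2
        · rw [if_neg hJ]
    refine ⟨y, ?_, ?_, ?_⟩
    · intro R J h
      by_cases hσ : (J.sum fun _ r => r) = σ
      · have h1 : y R J = yw (wtR p R) R J := if_pos hσ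
        rw [h1] at h
        obtain ⟨-, h3⟩ := hyw1 _ R J h
        refine ⟨hσ, ?_⟩
        have h4 : ((sz R + dJ p J : ℕ) : ℤ) = ((wtR p R + g : ℕ) : ℤ) := by exact_mod_cast h3
        push_cast at h4
        linarith
      · exact absurd (if_neg hσ : y R J = 0) h
    · intro k hk hkK
      funext R J
      rw [hrr k hk R J, hyw2 _ k hk hkK]
      split_ifs <;> rfl
    · funext R J
      rw [hrr K hK R J, hyw3]
      by_cases hσ : (J.sum fun _ r => r) = σ + 1
      · rw [if_pos hσ]
        exact if_pos rfl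
      · rw [if_neg hσ]
        by_contra h
        exact hσ (hz R J (Ne.symm h)).1
  · refine ⟨0, (GG n p σ c).zero_mem, fun k _ _ => map_zero _, ?_⟩
    rw [map_zero]
    funext R J
    by_contra h
    obtain ⟨-, h2⟩ := hz R J (Ne.symm h)
    apply hpar
    refine ⟨((c + 2 * σ) / 2).toNat, ?_⟩
    have h3 : c + 2 * σ = 2 * ((dJ p J : ℤ) - p ^ K - wtR p R + sz R) := by
      push_cast at h2
      linarith
    have h4 : (c + 2 * σ) / 2 = (dJ p J : ℤ) - p ^ K - wtR p R + sz R := by
      rw [h3]
      exact Int.mul_ediv_cancel_left _ (by norm_num)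
    have h5 : 0 ≤ (c + 2 * σ) / 2 := Int.ediv_nonneg hc (by norm_num)
    rw [Int.toNat_of_nonneg h5, h4]
    exact h3

end BPN.D
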